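import Pool.Agent.MP_807c24_nt.H13.PntSpec
import Pool.Agent.MP_ff3f8e_an.H65.Rect

namespace Pool.Agent.MP_807c24_nt.H13

open Filter Topology MeasureTheory Set Complex

namespace Nw

/-- the kernel -/
noncomputable def K (R : ℝ) (z : ℂ) : ℂ := (1 + z ^ 2 / R ^ 2) / z

theorem K_horiz {R s x : ℝ} (hR : 0 < R) (hs : |s| = R) (hx : |x| ≤ R) :
    ‖K R (x + s * I)‖ ≤ 3 * |x| / R ^ 2 := by
  have hR' : (R : ℂ) ≠ 0 := by exact_mod_cast hR.ne'
  have h2 : (s : ℂ) ^ 2 = R ^ 2 := by exact_mod_cast (by rw [← hs, sq_abs] : s ^ 2 = R ^ 2)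
  have e : 1 + ((x : ℂ) + s * I) ^ 2 / R ^ 2 = x * (x + 2 * s * I) / R ^ 2 := by
    field_simp
    linear_combination (s : ℂ) ^ 2 * I_sq - h2
  have h3 : R ≤ ‖(x : ℂ) + s * I‖ := by
    have := abs_im_le_norm ((x : ℂ) + s * I)
    simpa [hs] using this
  have h4 : ‖(x : ℂ) + 2 * s * I‖ ≤ 3 * R := by
    refine (norm_add_le _ _).trans ?_
    simp only [norm_real, Real.norm_eq_abs, norm_mul, norm_ofNat, norm_I, hs]
    linarith
  rw [K, e, norm_div, norm_div, norm_mul, norm_pow, norm_real, norm_real, Real.norm_eq_abs,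
    Real.norm_eq_abs, abs_of_pos hR]
  calc |x| * ‖(x : ℂ) + 2 * s * I‖ / R ^ 2 / ‖(x : ℂ) + s * I‖
      ≤ |x| * (3 * R) / R ^ 2 / R := by gcongr
    _ = 3 * |x| / R ^ 2 := by field_simp

theorem K_vert {R a y : ℝ} (hR : 0 < R) (ha0 : a ≠ 0) (ha : |a| ≤ R) (hy : |y| ≤ R) :
    ‖K R (a + y * I)‖ ≤ 3 / |a| := by
  have h3 : |a| ≤ ‖(a : ℂ) + y * I‖ := by
    simpa using abs_re_le_norm ((a : ℂ) + y * I)
  have h4 : ‖(a : ℂ) + y * I‖ ^ 2 ≤ 2 * R ^ 2 := by
    rw [Complex.sq_norm, normSq_add_mul_I]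
    have e1 := sq_le_sq' (abs_le.1 ha).1 (abs_le.1 ha).2
    have e2 := sq_le_sq' (abs_le.1 hy).1 (abs_le.1 hy).2
    linarith
  have h5 : ‖1 + ((a : ℂ) + y * I) ^ 2 / R ^ 2‖ ≤ 3 := by
    refine (norm_add_le _ _).trans ?_
    rw [norm_one, norm_div, norm_pow, norm_pow, norm_real, Real.norm_eq_abs, abs_of_pos hR]
    have : ‖(a : ℂ) + y * I‖ ^ 2 / R ^ 2 ≤ 2 := by rwa [div_le_iff₀ (by positivity)]
    linarith
  rw [K, norm_div]
  have := abs_pos.2 ha0
  gcongr

theorem cont_horiz (R : ℝ) {s : ℝ} (hs : s ≠ 0) : Continuous fun x : ℝ => K R (x + s * I) :=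
  Continuous.div (by fun_prop) (by fun_prop) fun x h => hs (by simpa using congrArg im h)

theorem cont_vert (R : ℝ) {a : ℝ} (ha : a ≠ 0) : Continuous fun y : ℝ => K R (a + y * I) :=
  Continuous.div (by fun_prop) (by fun_prop) fun x h => ha (by simpa using congrArg re h)

theorem cauchy {u : ℂ → ℂ} {a R : ℝ} (ha : a < 0) (hR : 0 < R)
    (hu : DifferentiableOn ℂ u (Icc a R ×ℂ Icc (-R) R)) :
    (∫ x in a..R, u (x + (-R : ℝ) * I) * K R (x + (-R : ℝ) * I)) -
      (∫ x in a..R, u (x + R * I) * K R (x + R * I)) +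
      I * (∫ y in (-R)..R, u (R + y * I) * K R (R + y * I)) -
      I * (∫ y in (-R)..R, u (a + y * I) * K R (a + y * I)) = 2 * Real.pi * I * u 0 := by
  have h := MP_ff3f8e_an.H65.rect_cauchy (fun z => u z * (1 + z ^ 2 / R ^ 2)) a R (-R) R 0
    (by simpa using ha) (by simpa using hR) (by simpa using hR) (by simpa using hR)
    (hu.mul (by fun_prop))
  simpa only [K, sub_zero, mul_div_assoc, ne_eq, OfNat.ofNat_ne_zero, not_false_eq_true, zero_pow,
    zero_div, add_zero, mul_one] using h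

/-- the contour estimate -/
theorem core {u v : ℂ → ℂ} {R δ C M η : ℝ} (hδ : 0 < δ) (hδR : δ ≤ R)
    (hu : DifferentiableOn ℂ u (Icc (-δ) R ×ℂ Icc (-R) R)) (hv : Differentiable ℂ v)
    (h1 : ∀ z : ℂ, 0 < z.re → ‖u z - v z‖ * z.re ≤ C)
    (h2 : ∀ z : ℂ, z.re ≤ 0 → ‖v z‖ * |z.re| ≤ C)
    (h3 : ∀ z ∈ Icc (-δ) 0 ×ℂ Icc (-R) R, ‖u z‖ ≤ M)
    (h4 : ∀ y ∈ Icc (-R) R, ‖u ((-δ : ℝ) + y * I)‖ ≤ η) :
    ‖u 0 - v 0‖ ≤ 24 * C / R + 6 * M * δ / R + 6 * R * η / δ := by
  have hR : 0 < R := hδ.trans_le hδR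
  have hRR : -R ≤ R := by linarith
  have hc := hv.continuous
  have hM : 0 ≤ M := (norm_nonneg _).trans (h3 0 ⟨⟨by simpa using hδ.le, by simp⟩,
    ⟨by simpa using hR.le, by simpa using hR.le⟩⟩)
  have c1 := cauchy (neg_lt_zero.2 hδ) hR hu
  have c2 := cauchy (neg_lt_zero.2 hR) hR hv.differentiableOn
  have hH : ∀ s : ℝ, |s| = R → ‖(∫ x in (-δ)..R, u (x + s * I) * K R (x + s * I)) -
      ∫ x in (-R)..R, v (x + s * I) * K R (x + s * I)‖ ≤ 3 * M * δ / R + 6 * C / R := by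
    intro s hs
    have hs0 : s ≠ 0 := fun h => by rw [h, abs_zero] at hs; exact hR.ne hs
    have hsm : s ∈ Icc (-R) R := abs_le.1 hs.le
    have iu : ∀ a b : ℝ, a ∈ Icc (-δ) R → b ∈ Icc (-δ) R →
        IntervalIntegrable (fun x : ℝ => u (x + s * I) * K R (x + s * I)) volume a b := by
      intro a b ha hb
      refine ContinuousOn.intervalIntegrable (ContinuousOn.mul ?_ (cont_horiz R hs0).continuousOn)
      refine hu.continuousOn.comp (f := fun x : ℝ => (x : ℂ) + s * I) (by fun_prop) fun x hx => ?_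
      exact ⟨by simpa using uIcc_subset_Icc ha hb hx, by simpa using hsm⟩
    have iv : ∀ a b : ℝ,
        IntervalIntegrable (fun x : ℝ => v (x + s * I) * K R (x + s * I)) volume a b :=
      fun a b => (Continuous.mul (by fun_prop) (cont_horiz R hs0)).intervalIntegrable a b
    have m0 : (0 : ℝ) ∈ Icc (-δ) R := ⟨by linarith, hR.le⟩
    have mR : R ∈ Icc (-δ) R := ⟨by linarith, le_rfl⟩
    rw [← intervalIntegral.integral_add_adjacent_intervals (iu _ 0 ⟨le_rfl, by linarith⟩ m0)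
      (iu 0 R m0 mR), ← intervalIntegral.integral_add_adjacent_intervals (iv _ 0) (iv 0 R),
      add_sub_add_comm, ← intervalIntegral.integral_sub (iu 0 R m0 mR) (iv 0 R)]
    have b1 : ‖∫ x in (-δ)..0, u (x + s * I) * K R (x + s * I)‖ ≤ 3 * M / R * |0 - -δ| := by
      refine intervalIntegral.norm_integral_le_of_norm_le_const fun x hx => ?_
      rw [uIoc_of_le (by linarith)] at hx
      have e1 : |x| ≤ R := abs_le.2 ⟨by linarith [hx.1], by linarith [hx.2]⟩
      have e2 := h3 (x + s * I) ⟨by simpa using ⟨hx.1.le, hx.2⟩, by simpa using hsm⟩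
      rw [norm_mul]
      calc _ ≤ M * (3 * |x| / R ^ 2) := mul_le_mul e2 (K_horiz hR hs e1) (norm_nonneg _) hM
        _ ≤ M * (3 * R / R ^ 2) := by gcongr
        _ = 3 * M / R := by field_simp
    have b2 : ‖∫ x in (-R)..0, v (x + s * I) * K R (x + s * I)‖ ≤ 3 * C / R ^ 2 * |0 - -R| := by
      refine intervalIntegral.norm_integral_le_of_norm_le_const fun x hx => ?_
      rw [uIoc_of_le (by linarith)] at hx
      have e1 : |x| ≤ R := abs_le.2 ⟨hx.1.le, by linarith [hx.2]⟩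
      have e2 : ‖v (x + s * I)‖ * |x| ≤ C := by simpa using h2 (x + s * I) (by simpa using hx.2)
      rw [norm_mul]
      calc _ ≤ ‖v (x + s * I)‖ * (3 * |x| / R ^ 2) := by gcongr; exact K_horiz hR hs e1
        _ = 3 * (‖v (x + s * I)‖ * |x|) / R ^ 2 := by ring
        _ ≤ _ := by gcongr
    have b3 : ‖∫ x in (0 : ℝ)..R, u (x + s * I) * K R (x + s * I) -
        v (x + s * I) * K R (x + s * I)‖ ≤ 3 * C / R ^ 2 * |R - 0| := by
      refine intervalIntegral.norm_integral_le_of_norm_le_const fun x hx => ?_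
      rw [uIoc_of_le hR.le] at hx
      have e1 : |x| ≤ R := abs_le.2 ⟨by linarith [hx.1], hx.2⟩
      have e2 : ‖u (x + s * I) - v (x + s * I)‖ * x ≤ C := by
        simpa using h1 (x + s * I) (by simpa using hx.1)
      rw [← sub_mul, norm_mul]
      calc _ ≤ ‖u (x + s * I) - v (x + s * I)‖ * (3 * |x| / R ^ 2) := by
            gcongr; exact K_horiz hR hs e1
        _ = 3 * (‖u (x + s * I) - v (x + s * I)‖ * x) / R ^ 2 := by rw [abs_of_pos hx.1]; ring
        _ ≤ _ := by gcongr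
    rw [zero_sub, neg_neg, abs_of_pos hδ] at b1
    rw [zero_sub, neg_neg, abs_of_pos hR] at b2
    rw [sub_zero, abs_of_pos hR] at b3
    have e : 3 * M * δ / R + 6 * C / R =
        3 * M / R * δ + 3 * C / R ^ 2 * R + 3 * C / R ^ 2 * R := by field_simp; ring
    rw [e]
    exact (norm_add_le _ _).trans (add_le_add ((norm_sub_le _ _).trans (add_le_add b1 b2)) b3)
  have hlen : |R - -R| = 2 * R := by rw [abs_of_pos (by linarith)]; ring
  have hV1 : ‖(∫ y in (-R)..R, u (R + y * I) * K R (R + y * I)) -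
      ∫ y in (-R)..R, v (R + y * I) * K R (R + y * I)‖ ≤ 3 * C / R ^ 2 * |R - -R| := by
    rw [← intervalIntegral.integral_sub]
    · refine intervalIntegral.norm_integral_le_of_norm_le_const fun y hy => ?_
      rw [uIoc_of_le hRR] at hy
      have e2 : ‖u (R + y * I) - v (R + y * I)‖ * R ≤ C := by
        simpa using h1 (R + y * I) (by simpa using hR)
      have e3 := K_vert hR hR.ne' (abs_of_pos hR).le (abs_le.2 ⟨hy.1.le, hy.2⟩)
      rw [abs_of_pos hR] at e3
      rw [← sub_mul, norm_mul]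
      calc _ ≤ ‖u (R + y * I) - v (R + y * I)‖ * (3 / R) := by gcongr
        _ = 3 * (‖u (R + y * I) - v (R + y * I)‖ * R) / R ^ 2 := by field_simp
        _ ≤ _ := by gcongr
    · refine ContinuousOn.intervalIntegrable (ContinuousOn.mul ?_ (cont_vert R hR.ne').continuousOn)
      refine hu.continuousOn.comp (f := fun y : ℝ => (R : ℂ) + y * I) (by fun_prop) fun y hy => ?_
      rw [uIcc_of_le hRR] at hy
      exact ⟨by simpa using (by linarith : -δ ≤ R), by simpa using hy⟩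
    · exact (Continuous.mul (by fun_prop) (cont_vert R hR.ne')).intervalIntegrable _ _
  have hV2 : ‖∫ y in (-R)..R, u ((-δ : ℝ) + y * I) * K R ((-δ : ℝ) + y * I)‖ ≤
      η * (3 / δ) * |R - -R| := by
    refine intervalIntegral.norm_integral_le_of_norm_le_const fun y hy => ?_
    rw [uIoc_of_le hRR] at hy
    have e2 := h4 y ⟨hy.1.le, hy.2⟩
    have e3 := K_vert (a := -δ) hR (by linarith) (by rwa [abs_neg, abs_of_pos hδ])
      (abs_le.2 ⟨hy.1.le, hy.2⟩)
    rw [abs_neg, abs_of_pos hδ] at e3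
    rw [norm_mul]
    exact mul_le_mul e2 e3 (norm_nonneg _) ((norm_nonneg _).trans e2)
  have hV3 : ‖∫ y in (-R)..R, v ((-R : ℝ) + y * I) * K R ((-R : ℝ) + y * I)‖ ≤
      3 * C / R ^ 2 * |R - -R| := by
    refine intervalIntegral.norm_integral_le_of_norm_le_const fun y hy => ?_
    rw [uIoc_of_le hRR] at hy
    have e2 : ‖v ((-R : ℝ) + y * I)‖ * R ≤ C := by
      simpa [abs_of_pos hR] using h2 ((-R : ℝ) + y * I) (by simpa using hR.le)
    have e3 := K_vert (a := -R) hR (by linarith) (by rw [abs_neg, abs_of_pos hR])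
      (abs_le.2 ⟨hy.1.le, hy.2⟩)
    rw [abs_neg, abs_of_pos hR] at e3
    rw [norm_mul]
    calc _ ≤ ‖v ((-R : ℝ) + y * I)‖ * (3 / R) := by gcongr
      _ = 3 * (‖v ((-R : ℝ) + y * I)‖ * R) / R ^ 2 := by field_simp
      _ ≤ _ := by gcongr
  have g1 := hH (-R) (by rw [abs_neg, abs_of_pos hR])
  have g2 := hH R (abs_of_pos hR)
  rw [hlen] at hV1 hV2 hV3
  have tri : ∀ a1 b1 c1 d a2 b2 c2 e w1 w2 : ℂ, a1 - b1 + I * c1 - I * d = 2 * Real.pi * I * w1 →
      a2 - b2 + I * c2 - I * e = 2 * Real.pi * I * w2 →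
      ‖w1 - w2‖ ≤ ‖a1 - a2‖ + ‖b1 - b2‖ + ‖c1 - c2‖ + ‖d‖ + ‖e‖ := by
    intro a1 b1 c1 d a2 b2 c2 e w1 w2 k1 k2
    have h : 2 * Real.pi * I * (w1 - w2) =
        (a1 - a2) - (b1 - b2) + I * (c1 - c2) - I * d + I * e := by linear_combination k2 - k1
    generalize w1 - w2 = w, a1 - a2 = a, b1 - b2 = b, c1 - c2 = c at h ⊢
    have e1 : ‖w‖ ≤ ‖2 * Real.pi * I * w‖ := by
      rw [norm_mul]
      refine le_mul_of_one_le_left (norm_nonneg _) ?_
      simp only [norm_mul, norm_ofNat, norm_real, Real.norm_eq_abs, norm_I, abs_of_pos Real.pi_pos]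
      linarith [Real.pi_gt_three]
    rw [h] at e1
    have e2 := norm_add_le (a - b + I * c - I * d) (I * e)
    have e3 := norm_sub_le (a - b + I * c) (I * d)
    have e4 := norm_add_le (a - b) (I * c)
    have e5 := norm_sub_le a b
    simp only [norm_mul, norm_I, one_mul] at e2 e3 e4
    linarith
  have fin := tri _ _ _ _ _ _ _ _ _ _ c1 c2
  have e : 24 * C / R + 6 * M * δ / R + 6 * R * η / δ =
      (3 * M * δ / R + 6 * C / R) + (3 * M * δ / R + 6 * C / R) + 3 * C / R ^ 2 * (2 * R) +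
        η * (3 / δ) * (2 * R) + 3 * C / R ^ 2 * (2 * R) := by field_simp; ring
  rw [e]
  exact fin.trans (add_le_add (add_le_add (add_le_add (add_le_add g1 g2) hV1) hV2) hV3)

variable {f : ℝ → ℝ} {C : ℝ}

/-- the truncated Laplace transform -/
noncomputable def gT (f : ℝ → ℝ) (T : ℝ) (z : ℂ) : ℂ :=
  ∫ t in (0 : ℝ)..T, (f t : ℂ) * exp (-(z * t))

theorem meas (hf : Measurable f) (z : ℂ) (μ : Measure ℝ) :
    AEStronglyMeasurable (fun t : ℝ => (f t : ℂ) * exp (-(z * t))) μ :=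
  Measurable.aestronglyMeasurable (by fun_prop)

theorem norm_le (hC : ∀ t, |f t| ≤ C) (z : ℂ) (t : ℝ) :
    ‖(f t : ℂ) * exp (-(z * t))‖ ≤ C * Real.exp (-z.re * t) := by
  rw [norm_mul, norm_real, Real.norm_eq_abs, norm_exp]
  simp only [neg_re, mul_re, ofReal_re, ofReal_im, mul_zero, sub_zero, neg_mul]
  exact mul_le_mul_of_nonneg_right (hC t) (Real.exp_pos _).le

theorem diff_gT (hf : Measurable f) (hC : ∀ t, |f t| ≤ C) (T : ℝ) :
    Differentiable ℂ (gT f T) := by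
  intro z
  have hC0 : 0 ≤ C := (abs_nonneg _).trans (hC 0)
  refine (intervalIntegral.hasDerivAt_integral_of_dominated_loc_of_deriv_le (μ := volume)
    (F := fun w t => (f t : ℂ) * exp (-(w * t)))
    (F' := fun w t => (f t : ℂ) * exp (-(w * t)) * (-t))
    (bound := fun t => C * Real.exp ((‖z‖ + 1) * |t|) * |t|)
    (Metric.ball_mem_nhds z one_pos) (.of_forall fun w => meas hf w _) ?_
    (Measurable.aestronglyMeasurable (by fun_prop)) (.of_forall fun t _ w hw => ?_)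
    (Continuous.intervalIntegrable (by fun_prop) _ _)
    (.of_forall fun t _ w _ => ?_)).2.differentiableAt
  · refine IntervalIntegrable.mono_fun' (g := fun t => C * Real.exp (-z.re * t))
      (Continuous.intervalIntegrable (by fun_prop) _ _) (meas hf z _)
      (.of_forall fun t => norm_le hC z t)
  · rw [norm_mul, norm_neg, norm_real, Real.norm_eq_abs]
    refine mul_le_mul_of_nonneg_right ((norm_le hC w t).trans ?_) (abs_nonneg _)
    refine mul_le_mul_of_nonneg_left (Real.exp_le_exp.2 ((le_abs_self _).trans ?_)) hC0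
    rw [abs_mul, abs_neg]
    refine mul_le_mul_of_nonneg_right ?_ (abs_nonneg _)
    have e1 := abs_re_le_norm w
    have e2 := norm_sub_norm_le w z
    rw [Metric.mem_ball, dist_eq_norm] at hw
    linarith
  · have := (((hasDerivAt_id w).mul_const (t : ℂ)).neg.cexp).const_mul (f t : ℂ)
    refine this.congr_deriv ?_
    simp only [id, Pi.neg_apply]
    ring

theorem norm_exp_mul (z : ℂ) (T : ℝ) : ‖exp (z * T)‖ = Real.exp (z.re * T) := by
  rw [norm_exp]
  simp

theorem right (hf : Measurable f) (hC : ∀ t, |f t| ≤ C) (T : ℝ) {z : ℂ} (hz : 0 < z.re) :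
    ‖(∫ t in Ioi (0 : ℝ), (f t : ℂ) * exp (-(z * t))) * exp (z * T) - gT f T z * exp (z * T)‖ *
      z.re ≤ C := by
  have hb : ∀ a : ℝ, IntegrableOn (fun t : ℝ => C * Real.exp (-z.re * t)) (Ioi a) := fun a =>
    (exp_neg_integrableOn_Ioi a hz).const_mul C
  have hi : ∀ a : ℝ, IntegrableOn (fun t : ℝ => (f t : ℂ) * exp (-(z * t))) (Ioi a) := fun a =>
    Integrable.mono' (hb a) (meas hf z _) (.of_forall fun t => norm_le hC z t)
  rw [← sub_mul, ← intervalIntegral.integral_interval_add_Ioi (hi 0) (hi T), gT,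
    add_sub_cancel_left, norm_mul, norm_exp_mul]
  have h1 := norm_integral_le_of_norm_le (hb T) (.of_forall fun t => norm_le hC z t)
  rw [integral_const_mul, integral_exp_mul_Ioi (neg_lt_zero.2 hz)] at h1
  calc _ ≤ C * (-Real.exp (-z.re * T) / -z.re) * Real.exp (z.re * T) * z.re := by gcongr
    _ = C * (Real.exp (-z.re * T) * Real.exp (z.re * T)) := by field_simp
    _ = C := by rw [← Real.exp_add]; simp

theorem left (hC : ∀ t, |f t| ≤ C) {T : ℝ} (hT : 0 ≤ T) {z : ℂ} (hz : z.re ≤ 0) :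
    ‖gT f T z * exp (z * T)‖ * |z.re| ≤ C := by
  have hC0 : 0 ≤ C := (abs_nonneg _).trans (hC 0)
  have h1 : ‖gT f T z‖ ≤ ∫ t in (0 : ℝ)..T, C * Real.exp (-z.re * t) :=
    intervalIntegral.norm_integral_le_of_norm_le hT (.of_forall fun t _ => norm_le hC z t)
      (Continuous.intervalIntegrable (by fun_prop) _ _)
  have h2 : ∫ t in (0 : ℝ)..T, Real.exp (-z.re * t) * -z.re =
      Real.exp (-z.re * T) - Real.exp (-z.re * 0) :=
    intervalIntegral.integral_eq_sub_of_hasDerivAt (f := fun t => Real.exp (-z.re * t))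
      (fun t _ => by simpa using ((hasDerivAt_id t).const_mul (-z.re)).exp)
      (Continuous.intervalIntegrable (by fun_prop) _ _)
  rw [intervalIntegral.integral_mul_const, mul_zero, Real.exp_zero] at h2
  rw [intervalIntegral.integral_const_mul] at h1
  rw [norm_mul, norm_exp_mul, abs_of_nonpos hz]
  have h3 : Real.exp (-z.re * T) * Real.exp (z.re * T) = 1 := by rw [← Real.exp_add]; simp
  have h4 := (Real.exp_pos (z.re * T)).le
  have h5 : 0 ≤ -z.re := by linarith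
  calc _ ≤ C * (∫ t in (0 : ℝ)..T, Real.exp (-z.re * t)) * Real.exp (z.re * T) * -z.re := by
        gcongr
    _ = C * (((∫ t in (0 : ℝ)..T, Real.exp (-z.re * t)) * -z.re) * Real.exp (z.re * T)) := by ring
    _ = C * (1 - Real.exp (z.re * T)) := by rw [h2, sub_mul, h3, one_mul]
    _ ≤ C := by nlinarith

theorem tube {U : Set ℂ} (hU : IsOpen U) (h : ∀ z : ℂ, 0 ≤ z.re → z ∈ U) (R : ℝ) :
    ∃ δ : ℝ, 0 < δ ∧ Icc (-δ) R ×ℂ Icc (-R) R ⊆ U := by
  obtain ⟨a, b, ha, -, h0, hb, hab⟩ := generalized_tube_lemma (isCompact_singleton (x := (0 : ℝ)))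
    (isCompact_Icc (a := -R) (b := R))
    (hU.preimage (f := fun p : ℝ × ℝ => (p.1 : ℂ) + p.2 * I) (by fun_prop))
    (fun p hp => h _ (by simpa using (mem_singleton_iff.1 hp.1).ge))
  obtain ⟨ε, hε, hs⟩ := Metric.isOpen_iff.1 ha 0 (h0 rfl)
  refine ⟨ε / 2, half_pos hε, fun z hz => ?_⟩
  rcases le_total 0 z.re with h1 | h1
  · exact h z h1
  · have h2 : z.re ∈ a := hs (by
      rw [Metric.mem_ball, Real.dist_eq, sub_zero, abs_of_nonpos h1]
      linarith [hz.1.1])
    simpa using hab (show (z.re, z.im) ∈ a ×ˢ b from ⟨h2, hb hz.2⟩)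

end Nw

open Nw in
theorem newman : NewmanStmt := by
  intro f g U C hf hC hU hre hg hL
  have hC0 : 0 ≤ C := (abs_nonneg _).trans (hC 0)
  rw [Metric.tendsto_nhds]
  intro ε hε
  obtain ⟨R, hR⟩ : ∃ R : ℝ, R = 96 * C / ε + 1 := ⟨_, rfl⟩
  have hR0 : 0 < R := by rw [hR]; positivity
  have b1 : 24 * C / R ≤ ε / 4 := by
    rw [div_le_iff₀ hR0, hR]
    field_simp
    nlinarith
  obtain ⟨δ₀, hδ₀, hsub⟩ := tube hU hre R
  obtain ⟨M₀, hM₀⟩ := (isCompact_Icc.reProdIm isCompact_Icc).exists_bound_of_continuousOn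
    (hg.mono hsub).continuousOn
  obtain ⟨M, hM⟩ : ∃ M : ℝ, M = |M₀| + 1 := ⟨_, rfl⟩
  have hM0 : 0 < M := by rw [hM]; positivity
  have hM1 : M₀ ≤ M := by rw [hM]; linarith [le_abs_self M₀]
  obtain ⟨δ, hδ⟩ : ∃ δ : ℝ, δ = min (min δ₀ R) (ε * R / (24 * M)) := ⟨_, rfl⟩
  have hδ0 : 0 < δ := by rw [hδ]; positivity
  have hδ1 : δ ≤ δ₀ := by rw [hδ]; exact (min_le_left _ _).trans (min_le_left _ _)
  have hδ2 : δ ≤ R := by rw [hδ]; exact (min_le_left _ _).trans (min_le_right _ _)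
  have hδ3 : δ ≤ ε * R / (24 * M) := by rw [hδ]; exact min_le_right _ _
  have b2 : 6 * M * δ / R ≤ ε / 4 := by
    rw [le_div_iff₀ (by positivity)] at hδ3
    rw [div_le_iff₀ hR0]
    linarith
  have hs2 : Icc (-δ) R ×ℂ Icc (-R) R ⊆ Icc (-δ₀) R ×ℂ Icc (-R) R := fun z hz =>
    ⟨⟨(neg_le_neg hδ1).trans hz.1.1, hz.1.2⟩, hz.2⟩
  have t1 : Tendsto (fun T : ℝ => 6 * R * (M * Real.exp (-δ * T)) / δ) atTop
      (𝓝 (6 * R * (M * 0) / δ)) := by
    refine ((Tendsto.const_mul M ?_).const_mul _).div_const δ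
    exact Real.tendsto_exp_atBot.comp (tendsto_id.const_mul_atTop_of_neg (neg_lt_zero.2 hδ0))
  filter_upwards [t1.eventually (gt_mem_nhds (show 6 * R * (M * 0) / δ < ε / 4 by
    simpa using hε)), eventually_ge_atTop 0] with T hT hT0
  have key := core (u := fun z => g z * exp (z * T)) (v := fun z => gT f T z * exp (z * T))
    (C := C) (M := M) (η := M * Real.exp (-δ * T)) hδ0 hδ2
    ((hg.mono (hs2.trans hsub)).mul (by fun_prop)) ((diff_gT hf hC T).mul (by fun_prop))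
    (fun z hz => by rw [hL z hz]; exact right hf hC T hz) (fun z hz => left hC hT0 hz)
    (fun z hz => by
      rw [norm_mul, norm_exp_mul]
      have e1 := hM₀ z (hs2 ⟨⟨hz.1.1, hz.1.2.trans hR0.le⟩, hz.2⟩)
      have e2 : Real.exp (z.re * T) ≤ 1 :=
        Real.exp_le_one_iff.2 (mul_nonpos_of_nonpos_of_nonneg hz.1.2 hT0)
      exact (mul_le_of_le_one_right (norm_nonneg _) e2).trans (e1.trans hM1))
    (fun y hy => by
      rw [norm_mul, norm_exp_mul]
      have e1 := hM₀ ((-δ : ℝ) + y * I) (hs2 ⟨by simpa using (by linarith : -δ ≤ R),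
        by simpa using hy⟩)
      have e2 : (((-δ : ℝ) : ℂ) + y * I).re = -δ := by simp
      rw [e2]
      exact mul_le_mul_of_nonneg_right (e1.trans hM1) (Real.exp_pos _).le)
  have e : gT f T 0 = ((∫ t in (0 : ℝ)..T, f t : ℝ) : ℂ) := by
    simp [gT, intervalIntegral.integral_ofReal]
  simp only [zero_mul, exp_zero, mul_one, e] at key
  rw [dist_comm, dist_eq_norm]
  linarith

end Pool.Agent.MP_807c24_nt.H13
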