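import Pool.Agent.MP_807c24_nt.H13.PntSpec

namespace Pool.Agent.MP_807c24_nt.H13

open Filter Topology MeasureTheory Asymptotics

/-- The normalised Chebyshev function in the logarithmic variable. -/
noncomputable def pntH (t : ℝ) : ℝ := Chebyshev.psi (Real.exp t) * Real.exp (-t)

theorem pntH_nonneg (t : ℝ) : 0 ≤ pntH t :=
  mul_nonneg (Chebyshev.psi_nonneg _) (Real.exp_pos _).le

theorem pntH_le (t : ℝ) : pntH t ≤ Real.log 4 + 4 := by
  have h := Chebyshev.psi_le_const_mul_self (Real.exp_pos t).le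
  have e : Real.exp t * Real.exp (-t) = 1 := by rw [← Real.exp_add]; simp
  unfold pntH
  calc Chebyshev.psi (Real.exp t) * Real.exp (-t)
      ≤ (Real.log 4 + 4) * Real.exp t * Real.exp (-t) :=
        mul_le_mul_of_nonneg_right h (Real.exp_pos _).le
    _ = Real.log 4 + 4 := by rw [mul_assoc, e, mul_one]

theorem pntH_measurable : Measurable pntH := by
  unfold pntH
  exact (Chebyshev.psi_mono.measurable.comp Real.measurable_exp).mul
    (Real.measurable_exp.comp measurable_neg)

theorem pntF_abs (t : ℝ) : |pntH t - 1| ≤ Real.log 4 + 5 := by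
  have h1 := pntH_nonneg t
  have h2 := pntH_le t
  have h3 : 0 ≤ Real.log 4 := Real.log_nonneg (by norm_num)
  rw [abs_le]
  constructor <;> linarith

theorem pntF_intervalIntegrable (a b : ℝ) :
    IntervalIntegrable (fun t => pntH t - 1) volume a b := by
  refine (intervalIntegrable_const (c := Real.log 4 + 5)).mono_fun'
    (pntH_measurable.sub measurable_const).aestronglyMeasurable ?_
  exact Eventually.of_forall fun t => by simpa [Real.norm_eq_abs] using pntF_abs t

/-- The continuation of the Laplace transform. -/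
noncomputable def pntG (z : ℂ) : ℂ :=
  (-(deriv riemannZeta₁ (z + 1) / riemannZeta₁ (z + 1)) - 1) / (z + 1)

/-- The domain of the continuation. -/
def pntU : Set ℂ := {z | riemannZeta₁ (z + 1) ≠ 0 ∧ z + 1 ≠ 0}

theorem pntU_open : IsOpen pntU := by
  have h1 : Continuous fun z : ℂ => riemannZeta₁ (z + 1) :=
    differentiable_riemannZeta₁.continuous.comp (by fun_prop)
  have h2 : Continuous fun z : ℂ => z + 1 := by fun_prop
  exact (isOpen_ne_fun h1 continuous_const).inter (isOpen_ne_fun h2 continuous_const)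

theorem mem_pntU (z : ℂ) (hz : 0 ≤ z.re) : z ∈ pntU := by
  refine ⟨?_, ?_⟩
  · by_cases h : z + 1 = 1
    · rw [h]; simp
    · intro h0
      have h1 := riemannZeta_ne_zero_of_one_le_re (s := z + 1) (by simp; linarith)
      rw [riemannZeta_eq_inv_sub_mul h, h0, mul_zero] at h1
      exact h1 rfl
  · intro h
    have := congrArg Complex.re h
    simp at this
    linarith

theorem pntG_diff : DifferentiableOn ℂ pntG pntU := by
  intro z hz
  have h1 : DifferentiableAt ℂ (fun z : ℂ => riemannZeta₁ (z + 1)) z :=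
    (differentiable_riemannZeta₁ _).comp z (by fun_prop)
  have h2 : DifferentiableAt ℂ (fun z : ℂ => deriv riemannZeta₁ (z + 1)) z :=
    (differentiable_riemannZeta₁.deriv _).comp z (by fun_prop)
  have h3 : DifferentiableAt ℂ (fun z : ℂ => z + 1) z := by fun_prop
  exact ((((h2.div h1 hz.1).neg).sub_const 1).div h3 hz.2).differentiableWithinAt

theorem psi_eq_Icc (x : ℝ) :
    Chebyshev.psi x = ∑ k ∈ Finset.Icc 1 ⌊x⌋₊, ArithmeticFunction.vonMangoldt k := by
  unfold Chebyshev.psi
  rfl

theorem laplace_psi (z : ℂ) (hz : 0 < z.re) :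
    (z + 1) * ∫ t in Set.Ioi (0 : ℝ), (pntH t : ℂ) * Complex.exp (-(z * t)) =
      -deriv riemannZeta (z + 1) / riemannZeta (z + 1) := by
  have hs : (1 : ℝ) < (z + 1).re := by simp; linarith
  have hO : (fun n : ℕ => ∑ k ∈ Finset.Icc 1 n, ArithmeticFunction.vonMangoldt k) =O[atTop]
      fun n : ℕ => (n : ℝ) ^ (1 : ℝ) := by
    refine IsBigO.of_bound (Real.log 4 + 4) (Eventually.of_forall fun n => ?_)
    have h := Chebyshev.psi_le_const_mul_self (x := n) (Nat.cast_nonneg n)
    have h0 := Chebyshev.psi_nonneg (n : ℝ)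
    rw [psi_eq_Icc, Nat.floor_natCast] at h h0
    rw [Real.rpow_one, Real.norm_of_nonneg h0, Real.norm_of_nonneg (Nat.cast_nonneg n)]
    exact h
  have key := LSeries_eq_mul_integral_of_nonneg (fun n => ArithmeticFunction.vonMangoldt n)
    zero_le_one hs hO (fun _ => ArithmeticFunction.vonMangoldt_nonneg)
  rw [← ArithmeticFunction.LSeries_vonMangoldt_eq_deriv_riemannZeta_div hs, key]
  congr 1
  have sub := integral_comp_exp_Ioi (fun t : ℝ =>
    (∑ k ∈ Finset.Icc 1 ⌊t⌋₊, ((ArithmeticFunction.vonMangoldt k : ℝ) : ℂ)) *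
      (t : ℂ) ^ (-(z + 1 + 1))) 0
  rw [Real.exp_zero] at sub
  rw [← sub]
  refine integral_congr_ae (Eventually.of_forall fun t => ?_)
  simp only
  have e1 : ((Real.exp t : ℝ) : ℂ) ^ (-(z + 1 + 1)) = Complex.exp (t * (-(z + 1 + 1))) := by
    rw [Complex.cpow_def_of_ne_zero (by exact_mod_cast (Real.exp_pos t).ne'),
      ← Complex.ofReal_log (Real.exp_pos t).le, Real.log_exp]
  rw [e1, ← Complex.ofReal_sum, ← psi_eq_Icc, Complex.real_smul]
  unfold pntH
  push_cast
  have e2 : Complex.exp (-(t : ℂ)) * Complex.exp (-(z * t)) =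
      Complex.exp t * Complex.exp (t * (-(z + 1 + 1))) := by
    rw [← Complex.exp_add, ← Complex.exp_add]
    congr 1
    ring
  rw [mul_assoc, e2]
  ring

theorem pntG_eq (z : ℂ) (hz : 0 < z.re) :
    pntG z = ∫ t in Set.Ioi (0 : ℝ), ((pntH t - 1 : ℝ) : ℂ) * Complex.exp (-(z * t)) := by
  have hz0 : z ≠ 0 := by rintro rfl; simp at hz
  obtain ⟨hZ, hz1⟩ := mem_pntU z hz.le
  have hne : z + 1 ≠ 1 := by simpa using hz0
  have i1 : IntegrableOn (fun t : ℝ => Complex.exp (-(z * t))) (Set.Ioi 0) := by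
    have := integrableOn_exp_mul_complex_Ioi (a := -z) (by simpa using hz) 0
    simpa using this
  have v1 : ∫ t in Set.Ioi (0 : ℝ), Complex.exp (-(z * t)) = 1 / z := by
    have := integral_exp_mul_complex_Ioi (a := -z) (by simpa using hz) 0
    simp only [neg_mul] at this
    rw [this]
    simp [neg_div_neg_eq]
  have i2 : IntegrableOn (fun t : ℝ => (pntH t : ℂ) * Complex.exp (-(z * t))) (Set.Ioi 0) := by
    refine Integrable.bdd_mul (c := Real.log 4 + 4) i1
      (Complex.measurable_ofReal.comp pntH_measurable).aestronglyMeasurable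
      (Eventually.of_forall fun t => ?_)
    rw [Complex.norm_real, Real.norm_of_nonneg (pntH_nonneg t)]
    exact pntH_le t
  have e : ∀ t : ℝ, ((pntH t - 1 : ℝ) : ℂ) * Complex.exp (-(z * t)) =
      (pntH t : ℂ) * Complex.exp (-(z * t)) - Complex.exp (-(z * t)) := by
    intro t
    push_cast
    ring
  simp only [e]
  rw [integral_sub i2 i1, v1]
  have h := laplace_psi z hz
  rw [deriv_riemannZeta_eq_neg_inv_sub_sq_mul_add hne, riemannZeta_eq_inv_sub_mul hne,
    add_sub_cancel_right] at h
  have h2 : ∫ t in Set.Ioi (0 : ℝ), (pntH t : ℂ) * Complex.exp (-(z * t)) =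
      (1 / z - deriv riemannZeta₁ (z + 1) / riemannZeta₁ (z + 1)) / (z + 1) := by
    rw [eq_div_iff hz1, mul_comm, h]
    field_simp
    ring
  rw [h2]
  unfold pntG
  field_simp
  ring

theorem pntH_mono {s t : ℝ} (h : s ≤ t) : pntH s * Real.exp (s - t) ≤ pntH t := by
  unfold pntH
  rw [mul_assoc, ← Real.exp_add, show -s + (s - t) = -t by ring]
  exact mul_le_mul_of_nonneg_right (Chebyshev.psi_mono (Real.exp_le_exp.mpr h))
    (Real.exp_pos _).le

theorem upper_step (T d : ℝ) (hd : 0 < d) :
    pntH T ≤ Real.exp d * (1 + (∫ t in T..(T + d), (pntH t - 1)) / d) := by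
  have h : ∫ _ in T..(T + d), (pntH T * Real.exp (-d) - 1) ≤ ∫ t in T..(T + d), (pntH t - 1) := by
    refine intervalIntegral.integral_mono_on (by linarith) intervalIntegrable_const
      (pntF_intervalIntegrable _ _) fun t ht => ?_
    have h1 := pntH_mono ht.1
    have h2 : Real.exp (-d) ≤ Real.exp (T - t) := Real.exp_le_exp.mpr (by linarith [ht.2])
    have h3 := mul_le_mul_of_nonneg_left h2 (pntH_nonneg T)
    linarith
  rw [intervalIntegral.integral_const, add_sub_cancel_left, smul_eq_mul] at h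
  have h4 : pntH T * Real.exp (-d) - 1 ≤ (∫ t in T..(T + d), (pntH t - 1)) / d := by
    rw [le_div_iff₀ hd]
    linarith
  have e : Real.exp d * Real.exp (-d) = 1 := by rw [← Real.exp_add]; simp
  calc pntH T = Real.exp d * (pntH T * Real.exp (-d)) := by
        rw [mul_comm (pntH T), ← mul_assoc, e, one_mul]
    _ ≤ _ := mul_le_mul_of_nonneg_left (by linarith) (Real.exp_pos _).le

theorem lower_step (T d : ℝ) (hd : 0 < d) :
    Real.exp (-d) * (1 + (∫ t in (T - d)..T, (pntH t - 1)) / d) ≤ pntH T := by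
  have h : ∫ t in (T - d)..T, (pntH t - 1) ≤ ∫ _ in (T - d)..T, (pntH T * Real.exp d - 1) := by
    refine intervalIntegral.integral_mono_on (by linarith) (pntF_intervalIntegrable _ _)
      intervalIntegrable_const fun t ht => ?_
    have h1 := pntH_mono ht.2
    have h2 : 1 ≤ Real.exp (t - T) * Real.exp d := by
      rw [← Real.exp_add]
      exact Real.one_le_exp (by linarith [ht.1])
    have h3 := mul_le_mul_of_nonneg_left h2 (pntH_nonneg t)
    have h4 := mul_le_mul_of_nonneg_right h1 (Real.exp_pos d).le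
    nlinarith
  rw [intervalIntegral.integral_const, sub_sub_cancel, smul_eq_mul] at h
  have h4 : (∫ t in (T - d)..T, (pntH t - 1)) / d ≤ pntH T * Real.exp d - 1 := by
    rw [div_le_iff₀ hd]
    linarith
  have e : Real.exp (-d) * Real.exp d = 1 := by rw [← Real.exp_add]; simp
  calc Real.exp (-d) * (1 + (∫ t in (T - d)..T, (pntH t - 1)) / d)
      ≤ Real.exp (-d) * (pntH T * Real.exp d) :=
        mul_le_mul_of_nonneg_left (by linarith) (Real.exp_pos _).le
    _ = pntH T := by rw [mul_comm (pntH T), ← mul_assoc, e, one_mul]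

theorem pntH_tendsto (c : ℝ)
    (hF : Tendsto (fun T : ℝ => ∫ t in (0 : ℝ)..T, (pntH t - 1)) atTop (𝓝 c)) :
    Tendsto pntH atTop (𝓝 1) := by
  have diff : ∀ a b : ℝ, ∫ t in a..b, (pntH t - 1) =
      (∫ t in (0 : ℝ)..b, (pntH t - 1)) - ∫ t in (0 : ℝ)..a, (pntH t - 1) := fun a b =>
    (intervalIntegral.integral_interval_sub_left (pntF_intervalIntegrable _ _)
      (pntF_intervalIntegrable _ _)).symm
  have hcont : Tendsto Real.exp (𝓝 0) (𝓝 1) := by
    simpa using Real.continuous_exp.tendsto 0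
  rw [tendsto_order]
  constructor
  · intro a ha
    obtain ⟨d, hd, hda⟩ : ∃ d : ℝ, 0 < d ∧ a < Real.exp (-d) := by
      have h1 : Tendsto (fun d : ℝ => Real.exp (-d)) (𝓝[>] 0) (𝓝 1) := by
        refine hcont.comp ?_
        have : Tendsto (fun d : ℝ => -d) (𝓝 0) (𝓝 0) := by
          simpa using (continuous_neg (G := ℝ)).tendsto 0
        exact this.mono_left nhdsWithin_le_nhds
      exact ((eventually_mem_nhdsWithin).and (h1.eventually (lt_mem_nhds ha))).exists
    have h2 : Tendsto (fun T : ℝ => ∫ t in (0 : ℝ)..(T - d), (pntH t - 1)) atTop (𝓝 c) :=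
      hF.comp (tendsto_atTop_add_const_right atTop (-d) tendsto_id)
    have h3 : Tendsto (fun T : ℝ => Real.exp (-d) * (1 + (∫ t in (T - d)..T, (pntH t - 1)) / d))
        atTop (𝓝 (Real.exp (-d) * (1 + (c - c) / d))) := by
      refine ((((hF.sub h2).div_const d).const_add 1).const_mul _).congr fun T => ?_
      rw [diff (T - d) T]
    rw [sub_self, zero_div, add_zero, mul_one] at h3
    filter_upwards [h3.eventually (lt_mem_nhds hda)] with T hT
    exact hT.trans_le (lower_step T d hd)
  · intro a ha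
    obtain ⟨d, hd, hda⟩ : ∃ d : ℝ, 0 < d ∧ Real.exp d < a := by
      have h1 : Tendsto Real.exp (𝓝[>] 0) (𝓝 1) := hcont.mono_left nhdsWithin_le_nhds
      exact ((eventually_mem_nhdsWithin).and (h1.eventually (gt_mem_nhds ha))).exists
    have h2 : Tendsto (fun T : ℝ => ∫ t in (0 : ℝ)..(T + d), (pntH t - 1)) atTop (𝓝 c) :=
      hF.comp (tendsto_atTop_add_const_right atTop d tendsto_id)
    have h3 : Tendsto (fun T : ℝ => Real.exp d * (1 + (∫ t in T..(T + d), (pntH t - 1)) / d))
        atTop (𝓝 (Real.exp d * (1 + (c - c) / d))) := by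
      refine ((((h2.sub hF).div_const d).const_add 1).const_mul _).congr fun T => ?_
      rw [diff T (T + d)]
    rw [sub_self, zero_div, add_zero, mul_one] at h3
    filter_upwards [h3.eventually (gt_mem_nhds hda)] with T hT
    exact (upper_step T d hd).trans_lt hT

theorem psi_tendsto (hN : NewmanStmt) :
    Tendsto (fun x : ℝ => Chebyshev.psi x / x) atTop (𝓝 1) := by
  have h := hN (fun t => pntH t - 1) pntG pntU (Real.log 4 + 5)
    (pntH_measurable.sub measurable_const) pntF_abs pntU_open mem_pntU pntG_diff pntG_eq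
  have h1 : Tendsto (fun T : ℝ => ∫ t in (0 : ℝ)..T, (pntH t - 1)) atTop (𝓝 (pntG 0).re) :=
    (Complex.continuous_re.tendsto _).comp h
  have h2 := (pntH_tendsto _ h1).comp Real.tendsto_log_atTop
  refine h2.congr' ?_
  filter_upwards [eventually_gt_atTop 0] with x hx
  simp only [Function.comp, pntH]
  rw [Real.exp_neg, Real.exp_log hx, div_eq_mul_inv]

theorem pnt_of_newman (hN : NewmanStmt) : PntStmt := by
  have h1 := psi_tendsto hN
  have h2 : Tendsto (fun x : ℝ => (Chebyshev.psi x - Chebyshev.theta x) / x) atTop (𝓝 0) := by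
    have h3 : (fun x : ℝ => Real.sqrt x) =o[atTop] fun x : ℝ => x := by
      refine (isLittleO_iff_tendsto' ?_).mpr ?_
      · filter_upwards [eventually_gt_atTop 0] with x hx h0 using absurd h0 hx.ne'
      · refine (tendsto_inv_atTop_zero.comp Real.tendsto_sqrt_atTop).congr fun x => ?_
        simp only [Function.comp]
        rw [Real.sqrt_div_self']
        simp
    exact (Chebyshev.isBigO_psi_sub_theta_sqrt.trans_isLittleO h3).tendsto_div_nhds_zero
  have h4 := h1.sub h2
  rw [sub_zero] at h4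
  refine h4.congr fun x => ?_
  ring

end Pool.Agent.MP_807c24_nt.H13
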