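import Pool.Agent.MP_807c24_nt.H13.Spec

/-!
p-adic bounds for the coefficients of the fraction expansion and for one residue class.
-/

namespace Pool.Agent.MP_807c24_nt.H13

open Finset PowerSeries

namespace Class

variable {p : ℕ} [hp : Fact p.Prime]

theorem pn_nonneg (x : ℚ) : 0 ≤ pn p x := norm_nonneg _

theorem pn_mul (x y : ℚ) : pn p (x * y) = pn p x * pn p y := by simp [pn]

theorem pn_neg (x : ℚ) : pn p (-x) = pn p x := by simp [pn]

theorem pn_zero : pn p 0 = 0 := by simp [pn]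

theorem pn_one : pn p 1 = 1 := by simp [pn]

theorem pn_inv (x : ℚ) : pn p x⁻¹ = (pn p x)⁻¹ := by simp [pn]

theorem pn_pow (x : ℚ) (n : ℕ) : pn p (x ^ n) = pn p x ^ n := by simp [pn]

theorem pn_zpow (x : ℚ) (n : ℤ) : pn p (x ^ n) = pn p x ^ n := by simp [pn]

theorem pn_prod {ι : Type} (s : Finset ι) (f : ι → ℚ) :
    pn p (∏ i ∈ s, f i) = ∏ i ∈ s, pn p (f i) := by simp [pn]

theorem pn_pos {x : ℚ} (h : x ≠ 0) : 0 < pn p x :=
  norm_pos_iff.2 (by exact_mod_cast h)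

theorem pn_sign (n : ℕ) : pn p ((-1) ^ n) = 1 := by simp [pn]

theorem pn_zsign (n : ℤ) : pn p ((-1) ^ n) = 1 := by simp [pn]

theorem pn_add {x y : ℚ} {B : ℝ} (hx : pn p x ≤ B) (hy : pn p y ≤ B) : pn p (x + y) ≤ B := by
  unfold pn at *
  rw [Rat.cast_add]
  exact (IsUltrametricDist.norm_add_le_max _ _).trans (max_le hx hy)

theorem pn_sub {x y : ℚ} {B : ℝ} (hx : pn p x ≤ B) (hy : pn p y ≤ B) : pn p (x - y) ≤ B := by
  rw [sub_eq_add_neg]
  exact pn_add hx (by rwa [pn_neg])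

theorem pn_sum {ι : Type} {s : Finset ι} {f : ι → ℚ} {B : ℝ} (hB : 0 ≤ B)
    (h : ∀ i ∈ s, pn p (f i) ≤ B) : pn p (∑ i ∈ s, f i) ≤ B :=
  Finset.sum_induction f (fun x => pn p x ≤ B) (fun _ _ => pn_add) (by rwa [pn_zero]) h

theorem pn_mul_le {x y : ℚ} {A B : ℝ} (hx : pn p x ≤ A) (hy : pn p y ≤ B) :
    pn p (x * y) ≤ A * B := by
  rw [pn_mul]
  exact mul_le_mul hx hy (pn_nonneg _) ((pn_nonneg _).trans hx)

theorem pn_int (c : ℤ) : pn p (c : ℚ) ≤ 1 := by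
  simpa [pn] using Padic.norm_int_le_one (p := p) c

theorem pn_nat (c : ℕ) : pn p (c : ℚ) ≤ 1 := by simpa using pn_int (p := p) c

theorem pn_unit {c : ℤ} (h : ¬(p : ℤ) ∣ c) : pn p (c : ℚ) = 1 := by
  refine le_antisymm (pn_int c) (not_lt.1 fun h1 => h ?_)
  rw [← Padic.norm_intCast_lt_one_iff]
  simpa [pn] using h1

theorem p_pos : (0 : ℝ) < p := by exact_mod_cast hp.out.pos

theorem one_le_p : (1 : ℝ) ≤ p := by exact_mod_cast hp.out.one_le

theorem pn_p : pn p (p : ℚ) = (p : ℝ)⁻¹ := by simp [pn]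

theorem pn_dvd {c : ℤ} (h : (p : ℤ) ∣ c) : pn p (c : ℚ) ≤ (p : ℝ)⁻¹ := by
  obtain ⟨d, rfl⟩ := h
  push_cast
  simpa using pn_mul_le pn_p.le (pn_int (p := p) d)

theorem pn_small {c : ℤ} (h : (p : ℤ) ∣ c) (h0 : c ≠ 0) (h1 : |c| < (p : ℤ) ^ 2) :
    pn p (c : ℚ) = (p : ℝ)⁻¹ := by
  obtain ⟨d, rfl⟩ := h
  have : ¬(p : ℤ) ∣ d := by
    rintro ⟨e, rfl⟩
    exact absurd (Int.le_of_dvd (abs_pos.2 h0) ((dvd_abs _ _).2 ⟨e, by ring⟩)) (not_le.2 h1)
  push_cast
  rw [pn_mul, pn_p, pn_unit this, mul_one]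

theorem pn_inv_le {c : ℤ} (h0 : c ≠ 0) (h1 : |c| < (p : ℤ) ^ 2) : (pn p (c : ℚ))⁻¹ ≤ p := by
  by_cases h : (p : ℤ) ∣ c
  · rw [pn_small h h0 h1, inv_inv]
  · rw [pn_unit h, inv_one]
    exact one_le_p

theorem pn_inv_le_abs {c : ℤ} (h0 : c ≠ 0) : (pn p (c : ℚ))⁻¹ ≤ |(c : ℝ)| := by
  have e : pn p (c : ℚ) = ((p : ℝ) ^ padicValInt p c)⁻¹ := by
    rw [pn, Padic.eq_padicNorm, padicNorm.eq_zpow_of_nonzero (by exact_mod_cast h0),
      padicValRat.of_int]
    simp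
  rw [e, inv_inv]
  have := Int.le_of_dvd (abs_pos.2 h0) ((dvd_abs _ _).2 (padicValInt_dvd (p := p) c))
  exact_mod_cast this

variable (p) in
/-- Geometric bounds for the coefficients. -/
def Bd (f : PowerSeries ℚ) (A r : ℝ) : Prop := ∀ d, pn p (coeff d f) ≤ A * r ^ d

theorem Bd.nonneg {f : PowerSeries ℚ} {A r : ℝ} (h : Bd p f A r) : 0 ≤ A := by
  simpa using (pn_nonneg _).trans (h 0)

theorem Bd.mul {f g : PowerSeries ℚ} {A B r : ℝ} (hr : 0 ≤ r) (hf : Bd p f A r)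
    (hg : Bd p g B r) : Bd p (f * g) (A * B) r := fun d => by
  have := hf.nonneg
  have := hg.nonneg
  rw [coeff_mul]
  refine pn_sum (by positivity) fun x hx => (pn_mul_le (hf _) (hg _)).trans_eq ?_
  rw [← mem_antidiagonal.1 hx, pow_add]
  ring

theorem Bd.one {r : ℝ} (hr : 0 ≤ r) : Bd p 1 1 r := fun d => by
  rw [coeff_one]
  split_ifs with h
  · simp [h, pn_one]
  · rw [pn_zero]; positivity

theorem Bd.pow {f : PowerSeries ℚ} {A r : ℝ} (hr : 0 ≤ r) (hf : Bd p f A r) (n : ℕ) :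
    Bd p (f ^ n) (A ^ n) r := by
  induction n with
  | zero => simpa using Bd.one hr
  | succ n ih => rw [pow_succ, pow_succ]; exact ih.mul hr hf

theorem Bd.prod {ι : Type} {s : Finset ι} {f : ι → PowerSeries ℚ} {A : ι → ℝ} {r : ℝ}
    (hr : 0 ≤ r) (h : ∀ i ∈ s, Bd p (f i) (A i) r) : Bd p (∏ i ∈ s, f i) (∏ i ∈ s, A i) r := by
  classical
  induction s using Finset.induction_on with
  | empty => simpa using Bd.one hr
  | insert a s ha ih =>
    rw [prod_insert ha, prod_insert ha]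
    exact (h a (mem_insert_self _ _)).mul hr (ih fun i hi => h i (mem_insert_of_mem hi))

theorem Bd.resc {f : PowerSeries ℚ} {A r : ℝ} (hf : Bd p f A r) : Bd p (rescale (-1) f) A r :=
  fun d => by rw [coeff_rescale, pn_mul, pn_sign, one_mul]; exact hf d

theorem Bd.lin {a b : ℚ} {A r : ℝ} (hr : 0 ≤ r) (ha : pn p a ≤ A) (hb : pn p b ≤ A * r) :
    Bd p (C a + C b * X) A r := fun d => by
  have := (pn_nonneg _).trans ha
  rcases d with _ | _ | d
  · simpa using ha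
  · simpa [coeff_one, coeff_C] using hb
  · simp only [map_add, coeff_C, coeff_C_mul, coeff_X]
    simp only [Nat.add_eq_zero_iff, one_ne_zero, and_false, if_false, Nat.add_eq_right, mul_zero,
      add_zero, pn_zero]
    positivity

theorem inv_lin {c : ℚ} (hc : c ≠ 0) :
    (C c + X : PowerSeries ℚ)⁻¹ = PowerSeries.mk fun d => (-1) ^ d / c ^ (d + 1) := by
  symm
  rw [PowerSeries.eq_inv_iff_mul_eq_one (by simpa using hc)]
  ext d
  rw [mul_add, map_add, coeff_mul_C, coeff_one]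
  rcases d with _ | d
  · simp [hc]
  · rw [coeff_succ_mul_X, coeff_mk, coeff_mk, if_neg (Nat.succ_ne_zero d)]
    field_simp
    ring

theorem bd_lin {c : ℚ} {A r : ℝ} (hr : 0 ≤ r) (ha : pn p c ≤ A) (hb : 1 ≤ A * r) :
    Bd p (C c + X) A r := by
  simpa using Bd.lin (a := c) (b := 1) hr ha (by rwa [pn_one])

theorem bd_inv {c : ℚ} (hc : c ≠ 0) {r : ℝ} (hr : (pn p c)⁻¹ ≤ r) :
    Bd p (C c + X)⁻¹ (pn p c)⁻¹ r := fun d => by
  have := (inv_pos.2 (pn_pos (p := p) hc)).le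
  rw [inv_lin hc, coeff_mk, div_eq_mul_inv, pn_mul, pn_sign, one_mul, pn_inv, pn_pow, ← inv_pow,
    pow_succ']
  exact mul_le_mul_of_nonneg_left (pow_le_pow_left₀ this hr d) this

theorem zpow_split {K : Type} [Field K] (x : K) (e : ℤ) :
    x ^ e.toNat * x⁻¹ ^ (-e).toNat = x ^ e := by
  rcases e with n | n
  · simp
  · simp [Int.negSucc_eq, ← zpow_natCast]

theorem bd_fac {c : ℚ} (hc : c ≠ 0) (e : ℤ) {r : ℝ} (hr : (pn p c)⁻¹ ≤ r) :
    Bd p (fac c e) (pn p c ^ e) r := by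
  have h0 := pn_pos (p := p) hc
  have r0 : 0 ≤ r := (inv_pos.2 h0).le.trans hr
  rw [← zpow_split]
  exact ((bd_lin r0 le_rfl ((inv_le_iff_one_le_mul₀' h0).1 hr)).pow r0 _).mul r0
    ((bd_inv hc hr).pow r0 _)

theorem bd_fac_one {c e : ℤ} (h : 0 ≤ e ∨ ¬(p : ℤ) ∣ c) : Bd p (fac c e) 1 1 := by
  rcases h with h | h
  · have : (-e).toNat = 0 := by omega
    rw [fac, this, pow_zero, mul_one]
    simpa using (bd_lin zero_le_one (pn_int (p := p) c) (by simp)).pow zero_le_one e.toNat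
  · have hc : (c : ℚ) ≠ 0 := by
      rintro h0
      exact h ((Int.cast_eq_zero.1 h0) ▸ dvd_zero _)
    simpa [pn_unit h] using bd_fac (p := p) hc e (r := 1) (by simp [pn_unit h])

theorem bd_front (a : ℤ) {r : ℝ} (hr : 1 ≤ r) : Bd p (C (a : ℚ) + C 2 * X) 1 r :=
  Bd.lin (zero_le_one.trans hr) (pn_int a) ((by simpa using pn_nat (p := p) 2 : pn p 2 ≤ 1).trans
    (by simpa using hr))

omit hp in
theorem const_fac (c : ℚ) (e : ℤ) : constantCoeff (fac c e) = c ^ e := by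
  simp [fac, ← zpow_split c e]

omit hp in
theorem fac_neg {c : ℚ} (hc : c ≠ 0) (e : ℤ) :
    fac (-c) e = C ((-1) ^ e) * rescale (-1) (fac c e) := by
  have a : (C (-c) + X : PowerSeries ℚ) = C (-1) * rescale (-1) (C c + X) := by
    ext d
    rw [coeff_C_mul, coeff_rescale]
    rcases d with _ | _ | d <;> simp [coeff_X]
  have b : (C (-c) + X : PowerSeries ℚ)⁻¹ = C (-1)⁻¹ * rescale (-1) (C c + X)⁻¹ := by
    ext d
    rw [inv_lin hc, inv_lin (neg_ne_zero.2 hc), coeff_C_mul, coeff_rescale, coeff_mk, coeff_mk,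
      neg_pow c, pow_succ (-1 : ℚ)]
    rcases neg_one_pow_eq_or ℚ d with h | h <;> rw [h] <;> field_simp
  rw [fac, fac, b, a, ← zpow_split (-1 : ℚ) e]
  simp only [map_mul, map_pow, mul_pow]
  ring

omit hp in
theorem sub_lt {h k k' : ℤ} (hk : k ∈ pts h) (hk' : k' ∈ (pts h).erase k) :
    k' - k ≠ 0 ∧ |k' - k| < h := by
  simp only [pts, mem_erase, mem_Icc] at hk hk'
  refine ⟨by omega, abs_lt.2 ⟨by omega, by omega⟩⟩

omit hp in
theorem cls_eq {h k c : ℤ} (hk : k ∈ cls h p c) : cls h p k = cls h p c := by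
  have := (mem_filter.1 hk).2
  refine filter_congr fun x _ => ⟨fun a => ?_, fun a => ?_⟩
  · simpa using dvd_add a this
  · simpa using dvd_sub a this

omit hp in
theorem self_mem {h k : ℤ} (hk : k ∈ pts h) : k ∈ cls h p k := mem_filter.2 ⟨hk, by simp⟩

/-- The factors of the class. -/
noncomputable def Ac (p : ℕ) (m : ℤ → ℤ) (h k : ℤ) : PowerSeries ℚ :=
  ∏ k' ∈ (cls h p k).erase k, fac ((k' - k : ℤ) : ℚ) (-(m k'))

/-- The other factors. -/
noncomputable def Wc (p : ℕ) (m : ℤ → ℤ) (h k : ℤ) : PowerSeries ℚ :=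
  (C ((h - 2 * k : ℤ) : ℚ) + C 2 * X) *
    ∏ k' ∈ (pts h).filter (fun k' => ¬(p : ℤ) ∣ k' - k), fac ((k' - k : ℤ) : ℚ) (-(m k'))

omit hp in
theorem Gs_eq (m : ℤ → ℤ) (h k : ℤ) : Gs m h k = Ac p m h k * Wc p m h k := by
  rw [Gs, Ac, Wc, ← prod_filter_mul_prod_filter_not _ fun k' => (p : ℤ) ∣ k' - k, filter_erase,
    filter_erase, erase_eq_of_notMem (s := filter (fun k' => ¬(p : ℤ) ∣ k' - k) _) (by simp), cls]
  ring

theorem bd_Wc (m : ℤ → ℤ) (h k : ℤ) : Bd p (Wc p m h k) 1 1 := by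
  simpa [Wc] using (bd_front (p := p) (h - 2 * k) le_rfl).mul zero_le_one
    (Bd.prod (s := (pts h).filter fun k' => ¬(p : ℤ) ∣ k' - k) (A := fun _ => 1) zero_le_one
      fun k' hk' => bd_fac_one (e := -(m k')) (Or.inr (mem_filter.1 hk').2))

theorem bd_Ac (m : ℤ → ℤ) {h k : ℤ} (hk : k ∈ pts h) (hh : h ≤ (p : ℤ) ^ 2) :
    Bd p (Ac p m h k) ((p : ℝ) ^ ((∑ k' ∈ cls h p k, m k') - m k)) p := by
  have e : (p : ℝ) ^ ((∑ k' ∈ cls h p k, m k') - m k) =
      ∏ k' ∈ (cls h p k).erase k, (p : ℝ) ^ m k' := by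
    rw [← add_sum_erase _ _ (self_mem hk), add_sub_cancel_left]
    induction (cls h p k).erase k using Finset.induction_on with
    | empty => simp
    | insert a s ha ih => rw [sum_insert ha, prod_insert ha, zpow_add₀ p_pos.ne', ih]
  rw [e]
  refine Bd.prod p_pos.le fun k' hk' => ?_
  obtain ⟨h1, h2⟩ := mem_erase.1 hk'
  obtain ⟨h3, h4⟩ := mem_filter.1 h2
  obtain ⟨h5, h6⟩ := sub_lt hk (mem_erase.2 ⟨h1, h3⟩)
  have := bd_fac (p := p) (c := ((k' - k : ℤ) : ℚ)) (by exact_mod_cast h5) (-(m k'))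
    (pn_inv_le h5 (h6.trans_le hh))
  rwa [pn_small h4 h5 (h6.trans_le hh), inv_zpow', neg_neg] at this

theorem Bd.mono {f : PowerSeries ℚ} {A r r' : ℝ} (hf : Bd p f A r) (h0 : 0 ≤ r) (h : r ≤ r') :
    Bd p f A r' := fun d =>
  (hf d).trans (mul_le_mul_of_nonneg_left (pow_le_pow_left₀ h0 h d) hf.nonneg)

omit hp in
theorem ord_cast {m : ℤ → ℤ} {k : ℤ} {i : ℕ} (hi : i ∈ ords m k) :
    0 < m k ∧ (((m k).toNat - i : ℕ) : ℤ) = m k - i := by
  simp only [ords, mem_Icc] at hi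
  omega

theorem cf_large (m : ℤ → ℤ) {h k : ℤ} (hk : k ∈ pts h) {i : ℕ} (hi : i ∈ ords m k)
    (hh : h ≤ (p : ℤ) ^ 2) : pn p (cf m h k i) ≤ (p : ℝ) ^ ((∑ k' ∈ cls h p k, m k') - i) := by
  have := ((bd_Ac m hk hh).mul p_pos.le ((bd_Wc m h k).mono zero_le_one one_le_p))
    ((m k).toNat - i)
  rw [← Gs_eq, mul_one, ← zpow_natCast, ← zpow_add₀ p_pos.ne', (ord_cast hi).2,
    sub_add_sub_cancel] at this
  exact this

theorem cf_lone (m : ℤ → ℤ) {h k : ℤ} (i : ℕ) (H : ∀ k' ∈ cls h p k, k' ≠ k → m k' ≤ 0) :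
    pn p (cf m h k i) ≤ 1 := by
  have a : Bd p (Ac p m h k) 1 1 := by
    simpa [Ac] using Bd.prod (p := p) (s := (cls h p k).erase k) (A := fun _ => 1) zero_le_one
      fun k' hk' => bd_fac_one (c := k' - k) (e := -(m k'))
        (Or.inl (neg_nonneg.2 (H k' (mem_erase.1 hk').2 (mem_erase.1 hk').1)))
  have := (a.mul zero_le_one (bd_Wc m h k)) ((m k).toNat - i)
  rw [← Gs_eq] at this
  simpa [cf] using this

theorem hs_le {s : ℕ} {N : ℤ} (hN : N < (p : ℤ) ^ 2) : pn p (Hs s N) ≤ (p : ℝ) ^ s := by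
  refine pn_sum (pow_pos p_pos _).le fun l hl => ?_
  obtain ⟨h1, h2⟩ := mem_Icc.1 hl
  rw [one_div, pn_inv, pn_pow, ← inv_pow]
  exact pow_le_pow_left₀ (inv_nonneg.2 (pn_nonneg _))
    (pn_inv_le (by omega) (by rw [abs_of_pos (by omega)]; omega)) _

theorem hs_sub {s : ℕ} {N N' : ℤ} (H : ∀ l : ℤ, (p : ℤ) ∣ l → 1 ≤ l → (l ≤ N ↔ l ≤ N')) :
    pn p (Hs s N - Hs s N') ≤ 1 := by
  have e : (Finset.Icc 1 N).filter (fun l => (p : ℤ) ∣ l) =
      (Finset.Icc 1 N').filter (fun l => (p : ℤ) ∣ l) := by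
    ext l
    simp only [mem_filter, mem_Icc]
    exact ⟨fun a => ⟨⟨a.1.1, (H l a.2 a.1.1).1 a.1.2⟩, a.2⟩,
      fun a => ⟨⟨a.1.1, (H l a.2 a.1.1).2 a.1.2⟩, a.2⟩⟩
  have b : ∀ M : ℤ, pn p (∑ l ∈ (Finset.Icc 1 M).filter (fun l => ¬(p : ℤ) ∣ l),
      1 / (l : ℚ) ^ s) ≤ 1 := fun M => pn_sum zero_le_one fun l hl => by
    rw [one_div, pn_inv, pn_pow, pn_unit (mem_filter.1 hl).2]
    simp
  rw [Hs, Hs, ← sum_filter_add_sum_filter_not _ fun l => (p : ℤ) ∣ l,
    ← sum_filter_add_sum_filter_not (Finset.Icc 1 N') fun l => (p : ℤ) ∣ l, e,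
    add_sub_add_left_eq_sub]
  exact pn_sub (b N) (b N')

theorem hs_one {s : ℕ} {N : ℤ} (H : ∀ l : ℤ, (p : ℤ) ∣ l → 1 ≤ l → ¬l ≤ N) :
    pn p (Hs s N) ≤ 1 := by
  have := hs_sub (p := p) (s := s) (N := N) (N' := 0) fun l a b =>
    ⟨fun c => absurd c (H l a b), fun c => by omega⟩
  simpa [Hs] using this

theorem yw_le {h z k : ℤ} (i : ℕ) (hh : h ≤ (p : ℤ) ^ 2) (hz : 0 ≤ z) (hk : k ∈ pts h) :
    pn p (Yw h z k i) ≤ (p : ℝ) ^ (i + 2) := by
  simp only [pts, mem_Icc] at hk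
  refine pn_add (hs_le (by omega)) ?_
  rw [pn_mul, pn_sign, one_mul]
  exact hs_le (by omega)

variable (p) in
/-- Congruence of p-integral numbers. -/
def Cg (a b : ℚ) : Prop := pn p a ≤ 1 ∧ pn p b ≤ 1 ∧ pn p (a - b) ≤ (p : ℝ)⁻¹

theorem Cg.mul {a b c d : ℚ} (h : Cg p a b) (h' : Cg p c d) : Cg p (a * c) (b * d) := by
  refine ⟨by simpa using pn_mul_le h.1 h'.1, by simpa using pn_mul_le h.2.1 h'.2.1, ?_⟩
  rw [show a * c - b * d = (a - b) * c + b * (c - d) by ring]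
  exact pn_add (by simpa using pn_mul_le h.2.2 h'.1) (by simpa using pn_mul_le h.2.1 h'.2.2)

theorem Cg.one : Cg p 1 1 := ⟨pn_one.le, pn_one.le, by simp [pn_zero]⟩

theorem Cg.pow {a b : ℚ} (h : Cg p a b) (n : ℕ) : Cg p (a ^ n) (b ^ n) := by
  induction n with
  | zero => simpa using Cg.one
  | succ n ih => rw [pow_succ, pow_succ]; exact ih.mul h

theorem Cg.int {a b : ℤ} (h : (p : ℤ) ∣ a - b) : Cg p a b :=
  ⟨pn_int a, pn_int b, by simpa using pn_dvd h⟩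

theorem Cg.zpow {a b : ℤ} (h : (p : ℤ) ∣ a - b) (ha : ¬(p : ℤ) ∣ a) (e : ℤ) :
    Cg p ((a : ℚ) ^ e) ((b : ℚ) ^ e) := by
  have hb : ¬(p : ℤ) ∣ b := fun hb => ha (by simpa using dvd_add h hb)
  have a0 : (a : ℚ) ≠ 0 := fun h0 => ha ((Int.cast_eq_zero.1 h0) ▸ dvd_zero _)
  have b0 : (b : ℚ) ≠ 0 := fun h0 => hb ((Int.cast_eq_zero.1 h0) ▸ dvd_zero _)
  have i : Cg p (a : ℚ)⁻¹ (b : ℚ)⁻¹ := by
    refine ⟨by simp [pn_inv, pn_unit ha], by simp [pn_inv, pn_unit hb], ?_⟩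
    rw [show (a : ℚ)⁻¹ - (b : ℚ)⁻¹ = -(((a - b : ℤ) : ℚ) * (a : ℚ)⁻¹ * (b : ℚ)⁻¹) by
      push_cast; field_simp; ring]
    simpa [pn_neg, pn_mul, pn_inv, pn_unit ha, pn_unit hb] using pn_dvd h
  rw [← zpow_split, ← zpow_split]
  exact ((Cg.int h).pow _).mul (i.pow _)

theorem Cg.prod {ι : Type} {s : Finset ι} {f g : ι → ℚ} (h : ∀ i ∈ s, Cg p (f i) (g i)) :
    Cg p (∏ i ∈ s, f i) (∏ i ∈ s, g i) := by
  classical
  induction s using Finset.induction_on with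
  | empty => simpa using Cg.one
  | insert a s ha ih =>
    rw [prod_insert ha, prod_insert ha]
    exact (h a (mem_insert_self _ _)).mul (ih fun i hi => h i (mem_insert_of_mem hi))

theorem bd_Wc_sub (m : ℤ → ℤ) (h : ℤ) {k k₁ : ℤ} (hk : (p : ℤ) ∣ k₁ - k) :
    Bd p (Wc p m h k₁ - rescale (-1) (Wc p m h k)) (p : ℝ)⁻¹ p := fun d => by
  rcases d with _ | d
  · have e : (pts h).filter (fun k' => ¬(p : ℤ) ∣ k' - k₁) =
        (pts h).filter (fun k' => ¬(p : ℤ) ∣ k' - k) := by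
      refine filter_congr fun x _ => not_congr ⟨fun a => ?_, fun a => ?_⟩
      · simpa using dvd_add a hk
      · simpa using dvd_sub a hk
    rw [map_sub, coeff_rescale, pow_zero, one_mul, pow_zero, mul_one,
      coeff_zero_eq_constantCoeff_apply, coeff_zero_eq_constantCoeff_apply, Wc, Wc, e]
    simp only [map_mul, map_prod, const_fac, map_add, constantCoeff_C, constantCoeff_X, mul_zero,
      add_zero]
    refine ((Cg.int ?_).mul (Cg.prod fun k' hk' => Cg.zpow ?_ ?_ _)).2.2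
    · rw [show h - 2 * k₁ - (h - 2 * k) = (k₁ - k) * (-2) by ring]
      exact hk.mul_right _
    · rw [show k' - k₁ - (k' - k) = -(k₁ - k) by ring]
      exact hk.neg_right
    · exact fun a => (mem_filter.1 hk').2 (by simpa using dvd_add a hk)
  · rw [map_sub, pow_succ', ← mul_assoc, inv_mul_cancel₀ p_pos.ne', one_mul]
    refine (pn_sub ?_ ?_).trans (one_le_pow₀ one_le_p)
    · simpa using bd_Wc (p := p) m h k₁ (d + 1)
    · simpa using (bd_Wc (p := p) m h k).resc (d + 1)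

omit hp in
theorem zsign_sum {ι : Type} (s : Finset ι) (f : ι → ℤ) :
    ∏ i ∈ s, (-1 : ℚ) ^ f i = (-1) ^ ∑ i ∈ s, f i := by
  classical
  induction s using Finset.induction_on with
  | empty => simp
  | insert a s ha ih => rw [sum_insert ha, prod_insert ha, zpow_add₀ (by norm_num), ih]

section Sym

variable {m : ℤ → ℤ} {h c κ : ℤ} (hκ : (p : ℤ) ∣ κ - 2 * c)
  (H : ∀ k : ℤ, (p : ℤ) ∣ k - c → m (κ - k) = m k ∧ (κ - k ∈ pts h ↔ k ∈ pts h))

omit hp in
include hκ in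
theorem refl_dvd {k : ℤ} (hk : (p : ℤ) ∣ k - c) : (p : ℤ) ∣ κ - k - c := by
  rw [show κ - k - c = κ - 2 * c - (k - c) by ring]
  exact dvd_sub hκ hk

omit hp in
include hκ H in
theorem refl_mem {k : ℤ} (hk : k ∈ cls h p c) : κ - k ∈ cls h p c := by
  obtain ⟨h1, h2⟩ := mem_filter.1 hk
  exact mem_filter.2 ⟨(H k h2).2.2 h1, refl_dvd hκ h2⟩

omit hp in
include hκ H in
theorem Ac_refl {k : ℤ} (hk : k ∈ cls h p c) : Ac p m h (κ - k) =
    C ((-1) ^ (m k - ∑ k' ∈ cls h p c, m k')) * rescale (-1) (Ac p m h k) := by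
  have e : m k - ∑ k' ∈ cls h p c, m k' = ∑ k' ∈ (cls h p c).erase k, -m k' := by
    rw [← add_sum_erase _ _ hk, sum_neg_distrib]; ring
  rw [Ac, Ac, cls_eq hk, cls_eq (refl_mem hκ H hk), e, ← zsign_sum, map_prod, map_prod,
    ← prod_mul_distrib]
  refine prod_bij' (fun x _ => κ - x) (fun x _ => κ - x) (fun x hx => ?_) (fun x hx => ?_)
    (fun x _ => by ring) (fun x _ => by ring) fun x hx => ?_
  · obtain ⟨h1, h2⟩ := mem_erase.1 hx
    exact mem_erase.2 ⟨by omega, refl_mem hκ H h2⟩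
  · obtain ⟨h1, h2⟩ := mem_erase.1 hx
    exact mem_erase.2 ⟨by omega, refl_mem hκ H h2⟩
  · obtain ⟨h1, h2⟩ := mem_erase.1 hx
    rw [(H x (mem_filter.1 h2).2).1, ← fac_neg (by exact_mod_cast (by omega : κ - x - k ≠ 0))]
    congr 1
    push_cast
    ring

include hκ H in
theorem cf_refl (hh : h ≤ (p : ℤ) ^ 2) {k : ℤ} (hk : k ∈ cls h p c) {i : ℕ} (hi : i ∈ ords m k) :
    pn p (cf m h (κ - k) i -
      (-1) ^ (m k - ∑ k' ∈ cls h p c, m k') * (-1) ^ ((m k).toNat - i) * cf m h k i) ≤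
      (p : ℝ) ^ ((∑ k' ∈ cls h p c, m k') - i - 1) := by
  obtain ⟨h1, h2⟩ := mem_filter.1 hk
  have d : (p : ℤ) ∣ κ - k - k := by simpa using dvd_sub (refl_dvd hκ h2) h2
  have a := ((bd_Ac m h1 hh).resc.mul p_pos.le (bd_Wc_sub m h d)) ((m k).toNat - i)
  rw [cls_eq hk, ← zpow_natCast, ← zpow_neg_one, ← zpow_add₀ p_pos.ne', ← zpow_add₀ p_pos.ne',
    (ord_cast hi).2] at a
  rw [cf, cf, (H k h2).1, Gs_eq (p := p), Gs_eq (p := p), Ac_refl hκ H hk, mul_assoc, mul_assoc,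
    ← coeff_rescale, coeff_C_mul, ← mul_sub, pn_mul, pn_zsign, one_mul, ← map_sub, map_mul,
    ← mul_sub]
  exact a.trans_eq (by congr 1; ring)

end Sym

end Class

open Pool.Agent.MP_807c24_nt.H13.Class

theorem coef : CoefStmt := by
  intro p _ m h k hk i hi
  refine ⟨?_, cf_large m hk hi, cf_lone m i, fun e => ?_⟩
  · have h1 : (1 : ℝ) ≤ h := by
      simp only [pts, mem_Icc] at hk
      exact_mod_cast (by omega : 1 ≤ h)
    have := ((bd_front (p := p) (h - 2 * k) h1).mul (zero_le_one.trans h1)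
      (Bd.prod (s := (pts h).erase k) (zero_le_one.trans h1) fun k' hk' =>
        bd_fac (c := ((k' - k : ℤ) : ℚ)) (by exact_mod_cast (Class.sub_lt hk hk').1) (-(m k'))
          ((pn_inv_le_abs (Class.sub_lt hk hk').1).trans
            (by exact_mod_cast (Class.sub_lt hk hk').2.le)))) ((m k).toNat - i)
    rwa [one_mul] at this
  · rw [cf, e, Nat.sub_self, coeff_zero_eq_constantCoeff_apply, Gs]
    simp only [map_mul, map_prod, const_fac, map_add, constantCoeff_C, constantCoeff_X, mul_zero,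
      add_zero, pn_mul, pn_prod, pn_zpow]

theorem classB : ClassStmt := by
  intro p _ m h z c p2 hh hz hm
  have p0 := p_pos (p := p)
  refine ⟨?_, ?_, fun H => ?_⟩
  · refine pn_sum (zpow_pos p0 _).le fun k hk => pn_sum (zpow_pos p0 _).le fun i hi => ?_
    have h1 := (mem_filter.1 hk).1
    refine (pn_mul_le (pn_mul_le (cf_large m h1 hi hh) (pn_nat _)) (yw_le i hh hz h1)).trans_eq ?_
    rw [cls_eq hk, mul_one, ← zpow_natCast, ← zpow_add₀ p0.ne']
    congr 1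
    push_cast
    ring
  · rintro ⟨κ, hκ, H⟩ hM
    have H' : ∀ k : ℤ, (p : ℤ) ∣ k - c → m (κ - k) = m k ∧ (κ - k ∈ pts h ↔ k ∈ pts h) :=
      fun k a => ⟨(H k a).1, (H k a).2.1⟩
    have e : Sc m h z p c = ∑ k ∈ cls h p c, ∑ i ∈ ords m k,
        cf m h (κ - k) i * ((i + 1).choose 2 : ℚ) * Yw h z (κ - k) i := by
      refine sum_bij' (fun x _ => κ - x) (fun x _ => κ - x) (fun x hx => refl_mem hκ H' hx)
        (fun x hx => refl_mem hκ H' hx) (fun x _ => by ring) (fun x _ => by ring) fun x hx => ?_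
      simp only [sub_sub_cancel, ords, (H x (mem_filter.1 hx).2).1]
    have p2' : pn p 2 = 1 := by
      have : ¬(p : ℤ) ∣ 2 := fun a => p2 ((Nat.prime_dvd_prime_iff_eq Fact.out Nat.prime_two).1
        (by exact_mod_cast a))
      simpa using pn_unit this
    have hs : ∀ (s : ℕ) (k : ℤ), (p : ℤ) ∣ k - c →
        pn p (Hs s (κ - k - z - 1) - Hs s (h - k - z - 1)) ≤ 1 := fun s k hk =>
      hs_sub fun l a _ => by
        have := (H (κ - k - l) (by
          rw [show κ - k - l - c = κ - k - c - l by ring]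
          exact dvd_sub (refl_dvd hκ hk) a)).2.2
        omega
    rw [← one_mul (pn p _), ← p2', ← pn_mul, two_mul]
    nth_rewrite 2 [e]
    rw [Sc, ← sum_add_distrib]
    refine pn_sum (zpow_pos p0 _).le fun k hk => ?_
    rw [← sum_add_distrib]
    refine pn_sum (zpow_pos p0 _).le fun i hi => ?_
    obtain ⟨h1, h2⟩ := mem_filter.1 hk
    have a1 := cf_refl hκ H' hh hk hi
    have a2 : pn p (Yw h z (κ - k) i - (-1) ^ (i + 1) * Yw h z k i) ≤ 1 := by
      have b1 := hs (i + 2) k h2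
      have b2 := hs (i + 2) (κ - k) (refl_dvd hκ h2)
      rw [sub_sub_cancel] at b2
      have : Yw h z (κ - k) i - (-1) ^ (i + 1) * Yw h z k i =
          (Hs (i + 2) (κ - k - z - 1) - Hs (i + 2) (h - k - z - 1)) - (-1) ^ (i + 1) *
            (Hs (i + 2) (k - z - 1) - Hs (i + 2) (h - (κ - k) - z - 1)) := by
        simp only [Yw]
        rcases neg_one_pow_eq_or ℚ (i + 1) with a | a <;> rw [a] <;> ring
      rw [this]
      exact pn_sub b1 (by rwa [pn_mul, pn_sign, one_mul])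
    have a3 := cf_large m h1 hi hh
    rw [cls_eq hk] at a3
    have a4 := yw_le (p := p) i hh hz (mem_filter.1 (refl_mem hκ H' hk)).1
    have sg : (-1 : ℚ) ^ (m k - ∑ k' ∈ cls h p c, m k') * (-1) ^ ((m k).toNat - i) *
        (-1) ^ (i + 1) = -1 := by
      rw [← zpow_natCast, ← zpow_natCast, ← zpow_add₀ (by norm_num), ← zpow_add₀ (by norm_num),
        (ord_cast hi).2]
      obtain ⟨r, hr⟩ := hM
      exact Odd.neg_one_zpow ⟨m k - r, by rw [hr]; push_cast; ring⟩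
    have sg' : pn p ((-1 : ℚ) ^ (m k - ∑ k' ∈ cls h p c, m k') * (-1) ^ ((m k).toNat - i)) = 1 := by
      rw [pn_mul, pn_zsign, pn_sign, one_mul]
    generalize (-1 : ℚ) ^ (m k - ∑ k' ∈ cls h p c, m k') * (-1) ^ ((m k).toNat - i) = u
      at a1 sg sg'
    have : cf m h k i * ((i + 1).choose 2 : ℚ) * Yw h z k i +
        cf m h (κ - k) i * ((i + 1).choose 2 : ℚ) * Yw h z (κ - k) i =
        ((i + 1).choose 2 : ℚ) * ((cf m h (κ - k) i - u * cf m h k i) * Yw h z (κ - k) i +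
          u * cf m h k i * (Yw h z (κ - k) i - (-1) ^ (i + 1) * Yw h z k i)) := by
      linear_combination (((i + 1).choose 2 : ℚ) * cf m h k i * Yw h z k i) * sg
    rw [this, ← one_mul ((p : ℝ) ^ _)]
    refine pn_mul_le (pn_nat _) (pn_add ((pn_mul_le a1 a4).trans_eq ?_)
      ((pn_mul_le (pn_mul_le sg'.le a3) a2).trans ?_))
    · rw [← zpow_natCast, ← zpow_add₀ p0.ne']
      congr 1
      push_cast
      ring
    · rw [one_mul, mul_one]
      exact zpow_le_zpow_right₀ one_le_p (by omega)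
  · refine pn_sum zero_le_one fun k hk => pn_sum zero_le_one fun i hi => ?_
    obtain ⟨h1, h2⟩ := mem_filter.1 hk
    obtain ⟨h3, h4⟩ := hm k h1 (ord_cast hi).1
    have a1 : pn p (cf m h k i) ≤ 1 := cf_lone m i fun k' hk' hne => by
      rw [cls_eq hk] at hk'
      obtain ⟨h5, h6⟩ := mem_filter.1 hk'
      by_contra h7
      obtain ⟨h8, h9⟩ := hm k' h5 (not_le.1 h7)
      exact hne (H k' k h6 h2 h8 h9 h3 h4)
    have a2 : pn p (Yw h z k i) ≤ 1 := by
      refine pn_add (hs_one fun l a b d => ?_) ?_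
      · have := H (k - l) k (by
          rw [show k - l - c = k - c - l by ring]
          exact dvd_sub h2 a) h2 (by omega) (by omega) h3 h4
        omega
      · rw [pn_mul, pn_sign, one_mul]
        refine hs_one fun l a b d => ?_
        have := H (k + l) k (by
          rw [show k + l - c = k - c + l by ring]
          exact dvd_add h2 a) h2 (by omega) (by omega) h3 h4
        omega
    simpa using pn_mul_le (pn_mul_le a1 (pn_nat _)) a2

end Pool.Agent.MP_807c24_nt.H13
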