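import Pool.Agent.MP_807c24_nt.H13.Spec

/-!
Large primes: the p-adic bound for the coefficients of the linear form.
-/

namespace Pool.Agent.MP_807c24_nt.H13

open Finset

namespace Large

theorem le_iff {p : ℕ} (hp : 0 < p) (c j a : ℤ) : c + j * p ≤ a ↔ j ≤ (a - c) / p := by
  rw [Int.le_ediv_iff_mul_le (by exact_mod_cast hp)]
  constructor <;> intro h <;> linarith

theorem lt_iff {p : ℕ} (hp : 0 < p) (c j a : ℤ) : a < c + j * p ↔ (a - c) / p < j := by
  rw [← not_le, le_iff hp, not_le]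

theorem exists_idx {p : ℕ} {c k : ℤ} (h : (p : ℤ) ∣ k - c) : ∃ j : ℤ, k = c + j * p := by
  obtain ⟨j, hj⟩ := h
  exact ⟨j, by linarith⟩

theorem card_cls {p : ℕ} (hp : 0 < p) (c : ℤ) {a b : ℤ} (hab : a ≤ b) :
    (((Finset.Ioc a b).filter fun k => (p : ℤ) ∣ k - c).card : ℤ) = (b - c) / p - (a - c) / p := by
  have e : (Finset.Ioc a b).filter (fun k => (p : ℤ) ∣ k - c) =
      (Finset.Ioc ((a - c) / p) ((b - c) / p)).image fun j => c + j * p := by
    ext k
    simp only [Finset.mem_filter, Finset.mem_Ioc, Finset.mem_image]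
    constructor
    · rintro ⟨⟨h1, h2⟩, h3⟩
      obtain ⟨j, rfl⟩ := exists_idx h3
      exact ⟨j, ⟨(lt_iff hp c j a).1 h1, (le_iff hp c j b).1 h2⟩, rfl⟩
    · rintro ⟨j, ⟨h1, h2⟩, rfl⟩
      exact ⟨⟨(lt_iff hp c j a).2 h1, (le_iff hp c j b).2 h2⟩, j, by ring⟩
  rw [e, Finset.card_image_of_injective _ (fun j j' h => by
    simpa [hp.ne'] using h), Int.card_Ioc,
    Int.toNat_of_nonneg (sub_nonneg.2 (Int.ediv_le_ediv (by exact_mod_cast hp) (by linarith)))]

theorem sum_list {α : Type} (s : Finset ℤ) (f : α → ℤ → ℤ) (l : List α) :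
    ∑ k ∈ s, (l.map fun j => f j k).sum = (l.map fun j => ∑ k ∈ s, f j k).sum := by
  induction l with
  | nil => simp
  | cons a l ih => simp only [List.map_cons, List.sum_cons, Finset.sum_add_distrib, ih]

theorem jumps_le : ∀ j ∈ jumps, j.1 ≤ 35 := by decide

theorem sum_cls {p : ℕ} (hp : 0 < p) (n c : ℕ) :
    ∑ k ∈ cls (hh n) p c, mult n k = Mof (nbf n p c) := by
  unfold mult Mof
  rw [sum_list]
  congr 1
  refine List.map_congr_left fun j hj => ?_
  have hj' : (j.1 : ℤ) ≤ 35 := by exact_mod_cast jumps_le j hj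
  have h0 : (0 : ℤ) ≤ j.1 * n := by positivity
  have hn : (0 : ℤ) ≤ n := by positivity
  rw [← Finset.sum_filter, Finset.sum_const, nsmul_eq_mul, mul_comm]
  congr 1
  have e : (cls (hh n) p c).filter (fun k => (j.1 : ℤ) * n < k ∧ k ≤ (83 - (j.1 : ℤ)) * n) =
      (Finset.Ioc ((j.1 : ℤ) * n) ((83 - (j.1 : ℤ)) * n)).filter fun k => (p : ℤ) ∣ k - c := by
    ext k
    simp only [cls, pts, hh, Finset.mem_filter, Finset.mem_Ioc, Finset.mem_Icc]
    constructor
    · rintro ⟨⟨_, h2⟩, h3⟩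
      exact ⟨h3, h2⟩
    · rintro ⟨⟨h1, h2⟩, h3⟩
      exact ⟨⟨⟨by omega, by nlinarith⟩, h3⟩, h1, h2⟩
  rw [e, card_cls hp _ (by nlinarith)]
  unfold nbf
  rw [Nat.cast_sub (by have := jumps_le j hj; omega)]
  norm_num

theorem mult_symm (n : ℕ) (k : ℤ) : mult n (hh n - k) = mult n k := by
  unfold mult hh
  congr 1
  refine List.map_congr_left fun j _ => if_congr ?_ rfl rfl
  constructor <;> rintro ⟨h1, h2⟩ <;> constructor <;> linarith

theorem even_total (n : ℕ) : Even (∑ k ∈ pts (hh n), mult n k) := by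
  have h := sum_cls (p := 1) one_pos n 0
  have e : cls (hh n) 1 ((0 : ℕ) : ℤ) = pts (hh n) := by simp [cls]
  rw [e] at h
  rw [h]
  refine ⟨11 * n, ?_⟩
  simp [Mof, nbf, jumps]
  ring

theorem pole {n : ℕ} {k : ℤ} (h : 0 < mult n k) : 28 * (n : ℤ) < k ∧ k ≤ 55 * n := by
  have hn : (0 : ℤ) ≤ n := by positivity
  by_contra hc
  have key : ∀ k : ℤ, k ≤ 28 * (n : ℤ) → mult n k ≤ 0 := by
    intro k hk
    simp only [mult, jumps, List.map_cons, List.map_nil, List.sum_cons, List.sum_nil]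
    push_cast
    have z1 : ∀ (a b : ℤ), 28 ≤ a → (if a * n < k ∧ k ≤ b then (1 : ℤ) else 0) = 0 :=
      fun a b ha => if_neg fun g => by nlinarith [g.1]
    rw [z1 28 _ (by norm_num), z1 29 _ (by norm_num), z1 30 _ (by norm_num), z1 31 _ (by norm_num),
      z1 32 _ (by norm_num), z1 33 _ (by norm_num), z1 34 _ (by norm_num), z1 35 _ (by norm_num)]
    split_ifs <;> omega
  by_cases h1 : k ≤ 28 * (n : ℤ)
  · exact absurd h (not_lt.2 (key k h1))
  · have h2 : 55 * (n : ℤ) < k := by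
      by_contra g
      exact hc ⟨not_le.1 h1, not_lt.1 g⟩
    rw [← mult_symm] at h
    exact absurd h (not_lt.2 (key _ (by unfold hh; omega)))

theorem le_nb {p : ℕ} (hp : 0 < p) (n c β : ℕ) (j : ℤ) :
    (c : ℤ) + j * p ≤ (β : ℤ) * n ↔ j ≤ nbf n p c β := le_iff hp c j _

theorem uniq {p : ℕ} (hp : 0 < p) {n c : ℕ} (h : nbf n p c 58 - nbf n p c 25 ≤ 1) {k k' : ℤ}
    (h1 : (p : ℤ) ∣ k - c) (h2 : (p : ℤ) ∣ k' - c) (a1 : 25 * (n : ℤ) < k) (a2 : k ≤ 58 * n)
    (b1 : 25 * (n : ℤ) < k') (b2 : k' ≤ 58 * n) : k = k' := by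
  obtain ⟨j, rfl⟩ := exists_idx h1
  obtain ⟨j', rfl⟩ := exists_idx h2
  have c1 := (le_nb hp n c 58 j).1 a2
  have c2 := (le_nb hp n c 58 j').1 b2
  have c3 := mt (le_nb hp n c 25 j).2 (not_le.2 a1)
  have c4 := mt (le_nb hp n c 25 j').2 (not_le.2 b1)
  rw [show j = j' by omega]

theorem nopole {p : ℕ} (hp : 0 < p) {n c : ℕ} (h : nbf n p c 55 - nbf n p c 28 ≤ 0) {k : ℤ}
    (h1 : (p : ℤ) ∣ k - c) : mult n k ≤ 0 := by
  by_contra g
  obtain ⟨a1, a2⟩ := pole (not_le.1 g)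
  obtain ⟨j, rfl⟩ := exists_idx h1
  have c1 := (le_nb hp n c 55 j).1 a2
  have c3 := mt (le_nb hp n c 28 j).2 (not_le.2 a1)
  omega

theorem refl_cls {p : ℕ} (hp : 0 < p) {n c : ℕ} (h : symB (nbf n p c) = true) :
    ∃ κ : ℤ, (p : ℤ) ∣ κ - 2 * c ∧ ∀ k : ℤ, (p : ℤ) ∣ k - c →
      mult n (κ - k) = mult n k ∧ (κ - k ∈ pts (hh n) ↔ k ∈ pts (hh n)) ∧
        (25 * (n : ℤ) < k ↔ κ - k < hh n - 25 * n) := by
  refine ⟨2 * c + (nbf n p c 0 + nbf n p c 83 + 1) * p, ⟨nbf n p c 0 + nbf n p c 83 + 1, by ring⟩,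
    fun k hk => ?_⟩
  obtain ⟨j, rfl⟩ := exists_idx hk
  have e : 2 * (c : ℤ) + (nbf n p c 0 + nbf n p c 83 + 1) * p - (c + j * p) =
      c + (nbf n p c 0 + nbf n p c 83 + 1 - j) * p := by ring
  rw [e]
  have key : ∀ x ∈ jumps,
      ((x.1 : ℤ) * n < c + (nbf n p c 0 + nbf n p c 83 + 1 - j) * p ↔
        c + j * p ≤ (83 - (x.1 : ℤ)) * n) ∧
      (c + (nbf n p c 0 + nbf n p c 83 + 1 - j) * p ≤ (83 - (x.1 : ℤ)) * n ↔
        (x.1 : ℤ) * n < c + j * p) := by
    intro x hx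
    have h1 : nbf n p c x.1 + nbf n p c (83 - x.1) = nbf n p c 0 + nbf n p c 83 := by
      simpa using List.all_eq_true.1 h x hx
    have h2 : (83 - (x.1 : ℤ)) = ((83 - x.1 : ℕ) : ℤ) := by
      have := jumps_le x hx
      omega
    rw [h2, ← not_le, ← not_le, le_nb hp, le_nb hp, le_nb hp, le_nb hp]
    omega
  refine ⟨?_, ?_, ?_⟩
  · unfold mult
    congr 1
    refine List.map_congr_left fun x hx => if_congr ?_ rfl rfl
    rw [(key x hx).1, (key x hx).2, and_comm]
  · obtain ⟨k1, k2⟩ := key (0, -1) (by decide)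
    simp only [pts, hh, Finset.mem_Icc]
    push_cast at k1 k2
    omega
  · obtain ⟨_, k2⟩ := key (25, 1) (by decide)
    unfold hh
    push_cast at k2
    omega

theorem rule_le {p : ℕ} (n : ℕ) {c : ℕ} (hc : c < p) :
    rule0 (nbf n p c) ≤ ((22 * (n / p) + ex n p : ℕ) : ℤ) := by
  have h : (rule0 (nbf n p c) - 22 * ((n / p : ℕ) : ℤ)).toNat ≤ ex n p :=
    Finset.le_sup (f := fun c => (rule0 (nbf n p c) - 22 * ((n / p : ℕ) : ℤ)).toNat)
      (Finset.mem_range.2 hc)
  generalize n / p = q at h ⊢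
  push_cast
  omega

theorem pn_sum_le (p : ℕ) [Fact p.Prime] {α : Type} (s : Finset α) (f : α → ℚ) {B : ℝ}
    (hB : 0 ≤ B) (h : ∀ a ∈ s, pn p (f a) ≤ B) : pn p (∑ a ∈ s, f a) ≤ B := by
  unfold pn
  rw [Rat.cast_sum]
  exact IsUltrametricDist.norm_sum_le_of_forall_le_of_nonneg hB h

theorem two_a0 (hs : SymStmt) {p : ℕ} (hp : 0 < p) (n : ℕ) :
    2 * a0 n = -∑ c ∈ Finset.range p, Sc (mult n) (hh n) (25 * n) p c := by
  have e1 : a0 n = -∑ k ∈ pts (hh n), ∑ i ∈ ords (mult n) k,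
      cf (mult n) (hh n) k i * ((i + 1).choose 2 : ℚ) *
        ((-1) ^ (i + 1) * Hs (i + 2) (hh n - k - 25 * n - 1)) := by
    unfold a0
    congr 1
    symm
    refine Finset.sum_nbij' (fun k => hh n - k) (fun k => hh n - k) ?_ ?_ ?_ ?_ ?_
    · intro k hk
      simp only [pts, Finset.mem_Icc] at hk ⊢
      omega
    · intro k hk
      simp only [pts, Finset.mem_Icc] at hk ⊢
      omega
    · intro k _; simp
    · intro k _; simp
    · intro k hk
      have eo : ords (mult n) (hh n - k) = ords (mult n) k := by unfold ords; rw [mult_symm]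
      rw [eo]
      refine Finset.sum_congr rfl fun i hi => ?_
      rw [hs (mult n) (hh n) (mult_symm n) (even_total n) k hk i hi]
      ring
  have e2 : 2 * a0 n = -∑ k ∈ pts (hh n), ∑ i ∈ ords (mult n) k,
      cf (mult n) (hh n) k i * ((i + 1).choose 2 : ℚ) * Yw (hh n) (25 * n) k i := by
    rw [two_mul]
    nth_rewrite 2 [e1]
    unfold a0 Yw
    simp only [mul_add, Finset.sum_add_distrib]
    ring
  have hp' : (0 : ℤ) < p := by exact_mod_cast hp
  rw [e2, ← Finset.sum_fiberwise_of_maps_to (g := fun k : ℤ => (k % p).toNat)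
    (t := Finset.range p) (fun k _ => by
      have := Int.emod_lt_of_pos k hp'
      have := Int.emod_nonneg k hp'.ne'
      simp only [Finset.mem_range]
      omega)]
  congr 1
  refine Finset.sum_congr rfl fun c hc => ?_
  unfold Sc cls
  refine Finset.sum_congr (Finset.filter_congr fun k _ => ?_) fun _ _ => rfl
  have h1 := Int.emod_nonneg k hp'.ne'
  have h2 : (c : ℤ) % p = c :=
    Int.emod_eq_of_lt (by positivity) (by exact_mod_cast Finset.mem_range.1 hc)
  rw [Int.dvd_iff_emod_eq_zero, ← Int.emod_eq_emod_iff_emod_sub_eq_zero]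
  omega

theorem one_le_p (p : ℕ) [Fact p.Prime] : (1 : ℝ) ≤ p := by
  exact_mod_cast (Fact.out : p.Prime).one_le

theorem Sc_le (hc : ClassStmt) (p : ℕ) [Fact p.Prime] {n : ℕ} (hp2 : p ≠ 2)
    (h : 83 * n + 1 ≤ p ^ 2) (c : ℕ) :
    pn p (Sc (mult n) (hh n) (25 * n) p c) ≤ (p : ℝ) ^ rule0 (nbf n p c) := by
  have hp : 0 < p := (Fact.out : p.Prime).pos
  have hn : (0 : ℤ) ≤ n := by positivity
  obtain ⟨c1, c2, c3⟩ := hc p (mult n) (hh n) (25 * n) c hp2 (by unfold hh; exact_mod_cast h)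
    (by positivity) (fun k _ hk => by
      have := pole hk
      unfold hh
      omega)
  rw [sum_cls hp] at c1 c2
  unfold rule0
  split_ifs with g
  · rw [zpow_zero]
    rcases g with g | g
    · refine c3 fun k k' h1 h2 a1 a2 b1 b2 => uniq hp g h1 h2 a1 ?_ b1 ?_
      · unfold hh at a2; omega
      · unfold hh at b2; omega
    · have : Sc (mult n) (hh n) (25 * n) p c = 0 := by
        refine Finset.sum_eq_zero fun k hk => ?_
        have := nopole hp g (Finset.mem_filter.1 hk).2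
        have e : ords (mult n) k = ∅ := by
          unfold ords
          exact Finset.Icc_eq_empty (by omega)
        rw [e, Finset.sum_empty]
      rw [this]
      simp [pn]
  · unfold rule1
    split_ifs with g'
    · exact c2 (refl_cls hp g'.1) (Int.even_iff.2 g'.2)
    · exact c1

theorem cf_le (hc : CoefStmt) (p : ℕ) [Fact p.Prime] {n : ℕ} (h : 83 * n + 1 ≤ p ^ 2) {k : ℤ}
    (hk : k ∈ pts (hh n)) {i : ℕ} (hi : 1 ≤ i) (hik : (i : ℤ) ≤ mult n k) :
    pn p (cf (mult n) (hh n) k i) ≤ (p : ℝ) ^ (22 * (n / p) + ex n p) := by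
  have hp : 0 < p := (Fact.out : p.Prime).pos
  have hp' : (0 : ℤ) < p := by exact_mod_cast hp
  have hn : (0 : ℤ) ≤ n := by positivity
  obtain ⟨_, c2, c3, _⟩ := hc p (mult n) (hh n) k hk i (Finset.mem_Icc.2 ⟨hi, by omega⟩)
  obtain ⟨c, hc1⟩ := Int.eq_ofNat_of_zero_le (Int.emod_nonneg k hp'.ne')
  have hc2 : c < p := by
    have := Int.emod_lt_of_pos k hp'
    omega
  have hd : (p : ℤ) ∣ k - c := by
    rw [← hc1]
    exact ⟨k / p, by rw [Int.emod_def]; ring⟩
  have hcls : cls (hh n) p k = cls (hh n) p c := by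
    refine Finset.filter_congr fun k' _ => ?_
    constructor
    · intro g
      simpa using dvd_add g hd
    · intro g
      simpa using dvd_sub g hd
  refine le_trans ?_ ((zpow_le_zpow_right₀ (one_le_p p) (rule_le n hc2)).trans_eq
    (zpow_natCast _ _))
  have hpole := pole (n := n) (k := k) (by omega)
  unfold rule0
  split_ifs with g
  · rw [zpow_zero]
    rcases g with g | g
    · refine c3 fun k' hk' hne => ?_
      by_contra g'
      have := pole (not_le.1 g')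
      rw [hcls] at hk'
      exact hne (uniq hp g (Finset.mem_filter.1 hk').2 hd (by omega) (by omega) (by omega)
        (by omega))
    · have := nopole hp g hd
      omega
  · refine (c2 (by unfold hh; exact_mod_cast h)).trans (zpow_le_zpow_right₀ (one_le_p p) ?_)
    rw [hcls, sum_cls hp]
    unfold rule1
    split_ifs <;> omega

theorem ai_le (hc : CoefStmt) (p : ℕ) [Fact p.Prime] {n : ℕ} (h : 83 * n + 1 ≤ p ^ 2) {i : ℕ}
    (hi : 1 ≤ i) : pn p (ai n i) ≤ (p : ℝ) ^ (22 * (n / p) + ex n p) := by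
  refine pn_sum_le p _ _ (by positivity) fun k hk => ?_
  obtain ⟨h1, h2⟩ := Finset.mem_filter.1 hk
  have h3 := cf_le hc p h h1 hi h2
  unfold pn at h3 ⊢
  rw [Rat.cast_mul, norm_mul]
  refine (mul_le_of_le_one_right (norm_nonneg _) ?_).trans h3
  rw [Rat.cast_natCast]
  exact IsUltrametricDist.norm_natCast_le_one ℚ_[p] _

end Large

open Large

theorem large : SymStmt → CoefStmt → ClassStmt → LargeStmt := by
  intro hs hc hcl p _ n hn h x hx
  have hp : 0 < p := (Fact.out : p.Prime).pos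
  have hp2 : p ≠ 2 := by
    rintro rfl
    omega
  simp only [List.mem_cons, List.not_mem_nil, or_false] at hx
  rcases hx with rfl | rfl | rfl | rfl
  · have h2 : pn p (2 * a0 n) = pn p (a0 n) := by
      unfold pn
      have : ‖((2 : ℕ) : ℚ_[p])‖ = 1 :=
        Padic.norm_natCast_eq_one_iff.2 ((Nat.coprime_primes Fact.out Nat.prime_two).2 hp2)
      rw [Rat.cast_mul, norm_mul, Rat.cast_ofNat, show (2 : ℚ_[p]) = ((2 : ℕ) : ℚ_[p]) from rfl,
        this, one_mul]
    rw [← h2, two_a0 hs hp]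
    have h3 : ∀ y : ℚ, pn p (-y) = pn p y := fun y => by simp [pn]
    rw [h3]
    refine pn_sum_le p _ _ (by positivity) fun c hc' => (Sc_le hcl p hp2 h c).trans ?_
    exact (zpow_le_zpow_right₀ (one_le_p p) (rule_le n (Finset.mem_range.1 hc'))).trans_eq
      (zpow_natCast _ _)
  · exact ai_le hc p h (by norm_num)
  · exact ai_le hc p h (by norm_num)
  · exact ai_le hc p h (by norm_num)

theorem exZero : ExZeroStmt := by
  intro n p _ hp
  refine Nat.le_zero.1 (Finset.sup_le fun c hc => ?_)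
  have hc' : (c : ℤ) < p := by exact_mod_cast Finset.mem_range.1 hc
  have hp' : 83 * (n : ℤ) < p := by exact_mod_cast hp
  have hn : (0 : ℤ) ≤ n := by positivity
  have h0 : 0 < p := by omega
  have h1 : -1 ≤ nbf n p c 25 := (le_nb h0 n c 25 (-1)).1 (by push_cast; omega)
  have h2 : ¬ 1 ≤ nbf n p c 58 := mt (le_nb h0 n c 58 1).2 (by push_cast; omega)
  have h3 : rule0 (nbf n p c) = 0 := if_pos (Or.inl (by omega))
  rw [h3]
  generalize n / p = q
  omega

end Pool.Agent.MP_807c24_nt.H13
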