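import Pool.Agent.MP_807c24_nt.H13.Spec

/-!
Simple fractions and the well-poised symmetry.
-/

namespace Pool.Agent.MP_807c24_nt.H13

open Finset

noncomputable section

namespace Pf

/-- The linear power series `c + X`. -/
def lin (c : ℚ) : PowerSeries ℚ := PowerSeries.C c + PowerSeries.X

lemma lin_const (c : ℚ) : PowerSeries.constantCoeff (lin c) = c := by
  simp [lin]

lemma lin_inv_mul {c : ℚ} (hc : c ≠ 0) : (lin c)⁻¹ * lin c = 1 :=
  PowerSeries.inv_mul_cancel _ (by rw [lin_const]; exact hc)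

lemma fac_eq (c : ℚ) (e : ℤ) : fac c (-e) = lin c ^ (-e).toNat * (lin c)⁻¹ ^ e.toNat := by
  simp [fac, lin]

/-- The shift `p(X) ↦ p(X - k)` into power series. -/
def sh (k : ℤ) : Polynomial ℚ →+* PowerSeries ℚ :=
  Polynomial.coeToPowerSeries.ringHom.comp (Polynomial.taylorEquiv (-(k : ℚ))).toRingEquiv.toRingHom

lemma sh_apply (k : ℤ) (p : Polynomial ℚ) :
    sh k p = ((Polynomial.taylor (-(k : ℚ)) p : Polynomial ℚ) : PowerSeries ℚ) := rfl

lemma sh_C (k : ℤ) (a : ℚ) : sh k (Polynomial.C a) = PowerSeries.C a := by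
  rw [sh_apply, Polynomial.taylor_C, Polynomial.coe_C]

lemma sh_X (k : ℤ) : sh k Polynomial.X = lin (-(k : ℚ)) := by
  rw [sh_apply, Polynomial.taylor_X, Polynomial.coe_add, Polynomial.coe_C, Polynomial.coe_X, lin,
    add_comm]

/-- The linear polynomial `X + k`. -/
def L (k : ℤ) : Polynomial ℚ := Polynomial.X + Polynomial.C (k : ℚ)

lemma sh_L (k k' : ℤ) : sh k (L k') = lin ((k' - k : ℤ) : ℚ) := by
  rw [L, map_add, sh_X, sh_C, lin, lin]
  push_cast
  rw [map_sub, map_neg]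
  ring

lemma sh_L_self (k : ℤ) : sh k (L k) = PowerSeries.X := by
  rw [sh_L]; simp [lin]

lemma L_pow_dvd (k : ℤ) (n : ℕ) (p : Polynomial ℚ) (hp : PowerSeries.X ^ n ∣ sh k p) :
    L k ^ n ∣ p := by
  have h1 : Polynomial.X ^ n ∣ Polynomial.taylor (-(k : ℚ)) p := by
    rw [Polynomial.X_pow_dvd_iff]
    intro d hd
    have := PowerSeries.X_pow_dvd_iff.1 hp d hd
    rwa [sh_apply, Polynomial.coeff_coe] at this
  obtain ⟨q, hq⟩ := h1
  refine ⟨Polynomial.taylor (k : ℚ) q, ?_⟩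
  have h2 : Polynomial.taylor (k : ℚ) (Polynomial.taylor (-(k : ℚ)) p) = p := by
    rw [Polynomial.taylor_taylor]; simp
  rw [← h2, hq, Polynomial.taylor_mul, Polynomial.taylor_pow, Polynomial.taylor_X, L]

lemma L_monic (k : ℤ) : (L k).Monic := Polynomial.monic_X_add_C _

lemma L_natDegree (k : ℤ) : (L k).natDegree = 1 := Polynomial.natDegree_X_add_C _

lemma L_coprime {k k' : ℤ} (h : k ≠ k') : IsCoprime (L k) (L k') := by
  have h1 : L k = Polynomial.X - Polynomial.C (-(k : ℚ)) := by simp [L]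
  have h2 : L k' = Polynomial.X - Polynomial.C (-(k' : ℚ)) := by simp [L]
  rw [h1, h2]
  apply Polynomial.isCoprime_X_sub_C_of_isUnit_sub
  apply IsUnit.mk0
  intro h3
  apply h
  have : (k : ℚ) = k' := by linarith
  exact_mod_cast this

/-- Numerator. -/
def Pn (m : ℤ → ℤ) (h : ℤ) : Polynomial ℚ :=
  (Polynomial.C 2 * Polynomial.X + Polynomial.C (h : ℚ)) * ∏ k ∈ pts h, L k ^ (-(m k)).toNat

/-- Denominator without the factor at `k`. -/
def Qk (m : ℤ → ℤ) (h k : ℤ) : Polynomial ℚ := ∏ k' ∈ (pts h).erase k, L k' ^ (m k').toNat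

/-- The term of order `i` at `k`, without its coefficient. -/
def Tm (m : ℤ → ℤ) (h k : ℤ) (i : ℕ) : Polynomial ℚ := L k ^ ((m k).toNat - i) * Qk m h k

/-- The sum of simple fractions times the denominator. -/
def Tn (m : ℤ → ℤ) (h : ℤ) : Polynomial ℚ :=
  ∑ k ∈ pts h, ∑ i ∈ ords m k, Polynomial.C (cf m h k i) * Tm m h k i

lemma Qk_monic (m : ℤ → ℤ) (h k : ℤ) : (Qk m h k).Monic :=
  Polynomial.monic_prod_of_monic _ _ fun k' _ => (L_monic k').pow _

lemma Qk_natDegree (m : ℤ → ℤ) (h k : ℤ) :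
    (Qk m h k).natDegree = ∑ k' ∈ (pts h).erase k, (m k').toNat := by
  rw [Qk, Polynomial.natDegree_prod_of_monic _ _ fun k' _ => (L_monic k').pow _]
  refine Finset.sum_congr rfl fun k' _ => ?_
  rw [(L_monic k').natDegree_pow, L_natDegree, mul_one]

lemma Tm_monic (m : ℤ → ℤ) (h k : ℤ) (i : ℕ) : (Tm m h k i).Monic :=
  ((L_monic k).pow _).mul (Qk_monic m h k)

lemma Tm_natDegree (m : ℤ → ℤ) (h k : ℤ) (hk : k ∈ pts h) (i : ℕ) (hi : i ∈ ords m k) :
    (Tm m h k i).natDegree + i = ∑ k' ∈ pts h, (m k').toNat := by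
  rw [Tm, ((L_monic k).pow _).natDegree_mul (Qk_monic m h k), (L_monic k).natDegree_pow,
    L_natDegree, mul_one, Qk_natDegree, ← Finset.add_sum_erase _ _ hk]
  rw [ords, Finset.mem_Icc] at hi
  omega

lemma Pn_natDegree (m : ℤ → ℤ) (h : ℤ) (hs : 3 ≤ ∑ k ∈ pts h, m k) :
    (Pn m h).natDegree + 2 ≤ ∑ k' ∈ pts h, (m k').toNat := by
  have h1 : (Polynomial.C (2 : ℚ) * Polynomial.X + Polynomial.C (h : ℚ)).natDegree ≤ 1 :=
    Polynomial.natDegree_linear_le
  have h2 : (∏ k ∈ pts h, L k ^ (-(m k)).toNat).natDegree = ∑ k ∈ pts h, (-(m k)).toNat := by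
    rw [Polynomial.natDegree_prod_of_monic _ _ fun k' _ => (L_monic k').pow _]
    refine Finset.sum_congr rfl fun k' _ => ?_
    rw [(L_monic k').natDegree_pow, L_natDegree, mul_one]
  have h3 : (Pn m h).natDegree ≤ 1 + ∑ k ∈ pts h, (-(m k)).toNat := by
    rw [Pn]
    refine Polynomial.natDegree_mul_le.trans ?_
    rw [h2]; omega
  have h4 : ((∑ k ∈ pts h, (m k).toNat : ℕ) : ℤ) - ((∑ k ∈ pts h, (-(m k)).toNat : ℕ) : ℤ) =
      ∑ k ∈ pts h, m k := by
    push_cast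
    rw [← Finset.sum_sub_distrib]
    refine Finset.sum_congr rfl fun k _ => ?_
    omega
  omega

lemma sh_Qk (m : ℤ → ℤ) (h k k0 : ℤ) :
    sh k0 (Qk m h k) = ∏ k' ∈ (pts h).erase k, lin ((k' - k0 : ℤ) : ℚ) ^ (m k').toNat := by
  rw [Qk, map_prod]
  refine Finset.prod_congr rfl fun k' _ => ?_
  rw [map_pow, sh_L]

lemma sh_Pn (m : ℤ → ℤ) (h k : ℤ) :
    sh k (Pn m h) = (PowerSeries.C ((h - 2 * k : ℤ) : ℚ) + PowerSeries.C 2 * PowerSeries.X) *
      ∏ k' ∈ pts h, lin ((k' - k : ℤ) : ℚ) ^ (-(m k')).toNat := by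
  rw [Pn, map_mul, map_prod, map_add, map_mul, sh_C, sh_C, sh_X]
  congr 1
  · rw [lin]
    push_cast
    rw [map_sub, map_mul, map_neg]
    ring
  · refine Finset.prod_congr rfl fun k' _ => ?_
    rw [map_pow, sh_L]

lemma Gs_mul (m : ℤ → ℤ) (h k : ℤ) (hk : k ∈ pts h) (hm : 0 ≤ m k) :
    Gs m h k * sh k (Qk m h k) = sh k (Pn m h) := by
  rw [sh_Pn, sh_Qk, Gs, mul_assoc, ← Finset.prod_mul_distrib, ← Finset.mul_prod_erase _ _ hk]
  have h0 : (-(m k)).toNat = 0 := by omega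
  rw [h0, pow_zero, one_mul]
  congr 1
  refine Finset.prod_congr rfl fun k' hk' => ?_
  have hne : ((k' - k : ℤ) : ℚ) ≠ 0 := by
    have := (Finset.mem_erase.1 hk').1
    exact_mod_cast sub_ne_zero.2 this
  rw [fac_eq, mul_assoc, ← mul_pow, lin_inv_mul hne, one_pow, mul_one]

lemma trunc_dvd (G : PowerSeries ℚ) (n : ℕ) :
    PowerSeries.X ^ n ∣ G - ∑ i ∈ Finset.Icc 1 n,
      PowerSeries.C (PowerSeries.coeff (n - i) G) * PowerSeries.X ^ (n - i) := by
  rw [PowerSeries.X_pow_dvd_iff]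
  intro d hd
  rw [map_sub, map_sum, Finset.sum_eq_single (n - d)]
  · have : n - (n - d) = d := by omega
    rw [this, PowerSeries.coeff_C_mul, PowerSeries.coeff_X_pow]
    simp
  · intro i hi hne
    rw [Finset.mem_Icc] at hi
    rw [PowerSeries.coeff_C_mul, PowerSeries.coeff_X_pow, if_neg (by omega), mul_zero]
  · intro hn
    exfalso
    apply hn
    rw [Finset.mem_Icc]
    omega

lemma local_dvd (m : ℤ → ℤ) (h k : ℤ) (hk : k ∈ pts h) :
    L k ^ (m k).toNat ∣ Pn m h - Tn m h := by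
  rcases lt_or_ge (m k) 0 with hm | hm
  · have : (m k).toNat = 0 := by omega
    rw [this, pow_zero]
    exact one_dvd _
  rw [Tn, ← Finset.add_sum_erase _ _ hk, ← sub_sub]
  apply dvd_sub
  · apply L_pow_dvd
    have h1 : sh k (∑ i ∈ ords m k, Polynomial.C (cf m h k i) * Tm m h k i) =
        (∑ i ∈ Finset.Icc 1 (m k).toNat,
          PowerSeries.C (PowerSeries.coeff ((m k).toNat - i) (Gs m h k)) *
            PowerSeries.X ^ ((m k).toNat - i)) * sh k (Qk m h k) := by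
      rw [map_sum, Finset.sum_mul, ords]
      refine Finset.sum_congr rfl fun i _ => ?_
      rw [map_mul, sh_C, Tm, map_mul, map_pow, sh_L_self, cf, mul_assoc]
    rw [map_sub, h1, ← Gs_mul m h k hk hm, ← sub_mul]
    exact Dvd.dvd.mul_right (trunc_dvd _ _) _
  · refine Finset.dvd_sum fun k' hk' => Finset.dvd_sum fun i _ => ?_
    refine Dvd.dvd.mul_left (Dvd.dvd.mul_left ?_ _) _
    rw [Qk]
    refine Finset.dvd_prod_of_mem (fun k'' => L k'' ^ (m k'').toNat) ?_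
    rw [Finset.mem_erase]
    exact ⟨(Finset.mem_erase.1 hk').1.symm, hk⟩

lemma key (m : ℤ → ℤ) (h : ℤ) (hs : 3 ≤ ∑ k ∈ pts h, m k) : Pn m h = Tn m h := by
  have hdvd : ∏ k ∈ pts h, L k ^ (m k).toNat ∣ Pn m h - Tn m h := by
    refine Finset.prod_dvd_of_coprime ?_ fun k hk => local_dvd m h k hk
    intro k _ k' _ hne
    exact (L_coprime hne).pow
  have hQ : (∏ k ∈ pts h, L k ^ (m k).toNat).natDegree = ∑ k ∈ pts h, (m k).toNat := by
    rw [Polynomial.natDegree_prod_of_monic _ _ fun k' _ => (L_monic k').pow _]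
    refine Finset.sum_congr rfl fun k' _ => ?_
    rw [(L_monic k').natDegree_pow, L_natDegree, mul_one]
  have hP := Pn_natDegree m h hs
  have hT : (Tn m h).natDegree ≤ (∑ k ∈ pts h, (m k).toNat) - 1 := by
    rw [Tn]
    refine Polynomial.natDegree_sum_le_of_forall_le _ _ fun k hk => ?_
    refine Polynomial.natDegree_sum_le_of_forall_le _ _ fun i hi => ?_
    refine (Polynomial.natDegree_C_mul_le _ _).trans ?_
    have h1 := Tm_natDegree m h k hk i hi
    rw [ords, Finset.mem_Icc] at hi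
    omega
  have hD := Polynomial.natDegree_sub_le (Pn m h) (Tn m h)
  have : Pn m h - Tn m h = 0 := by
    refine Polynomial.eq_zero_of_dvd_of_natDegree_lt hdvd ?_
    rw [hQ]
    have := max_le (show (Pn m h).natDegree ≤ (∑ k ∈ pts h, (m k).toNat) - 1 by omega) hT
    omega
  exact sub_eq_zero.1 this

lemma aeval_L (t : ℂ) (k : ℤ) : Polynomial.aeval t (L k) = t + k := by
  simp [L]

lemma partA (m : ℤ → ℤ) (h : ℤ) (hs : 3 ≤ ∑ k ∈ pts h, m k) (t : ℂ)
    (ht : ∀ k ∈ pts h, t + k ≠ 0) :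
    (2 * t + h) * ∏ k ∈ pts h, (t + k) ^ (-(m k)) =
      ∑ k ∈ pts h, ∑ i ∈ ords m k, (cf m h k i : ℂ) / (t + k) ^ i := by
  have hQ : (∏ k ∈ pts h, (t + k) ^ (m k).toNat) ≠ 0 :=
    Finset.prod_ne_zero_iff.2 fun k hk => pow_ne_zero _ (ht k hk)
  apply mul_right_cancel₀ hQ
  have hL : (2 * t + h) * (∏ k ∈ pts h, (t + k) ^ (-(m k))) * ∏ k ∈ pts h, (t + k) ^ (m k).toNat =
      Polynomial.aeval t (Pn m h) := by
    rw [Pn, map_mul, map_prod, mul_assoc, ← Finset.prod_mul_distrib]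
    congr 1
    · simp
    · refine Finset.prod_congr rfl fun k hk => ?_
      rw [map_pow, aeval_L, ← zpow_natCast, ← zpow_natCast, ← zpow_add₀ (ht k hk)]
      congr 1
      omega
  rw [hL, key m h hs, Tn, map_sum, Finset.sum_mul]
  refine Finset.sum_congr rfl fun k hk => ?_
  rw [map_sum, Finset.sum_mul]
  refine Finset.sum_congr rfl fun i hi => ?_
  rw [ords, Finset.mem_Icc] at hi
  rw [map_mul, Polynomial.aeval_C, Tm, map_mul, map_pow, aeval_L, Qk, map_prod,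
    ← Finset.mul_prod_erase _ _ hk]
  have h1 : (t + k) ^ (m k).toNat = (t + k) ^ ((m k).toNat - i) * (t + k) ^ i := by
    rw [← pow_add]; congr 1; omega
  have h2 : ∏ x ∈ (pts h).erase k, Polynomial.aeval t (L x ^ (m x).toNat) =
      ∏ x ∈ (pts h).erase k, (t + x) ^ (m x).toNat :=
    Finset.prod_congr rfl fun x _ => by rw [map_pow, aeval_L]
  have h3 := pow_ne_zero i (ht k hk)
  rw [h2, h1, eq_ratCast]
  field_simp

lemma partB (m : ℤ → ℤ) (h : ℤ) (hs : 3 ≤ ∑ k ∈ pts h, m k) :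
    ∑ k ∈ (pts h).filter (fun k => 1 ≤ m k), cf m h k 1 = 0 := by
  have hP := Pn_natDegree m h hs
  have h0 : (Pn m h).coeff ((∑ k ∈ pts h, (m k).toNat) - 1) = 0 :=
    Polynomial.coeff_eq_zero_of_natDegree_lt (by omega)
  rw [key m h hs, Tn, Polynomial.finsetSum_coeff] at h0
  rw [← h0, Finset.sum_filter]
  refine Finset.sum_congr rfl fun k hk => ?_
  rw [Polynomial.finsetSum_coeff]
  have hz : ∀ i ∈ ords m k, i ≠ 1 →
      (Polynomial.C (cf m h k i) * Tm m h k i).coeff ((∑ k ∈ pts h, (m k).toNat) - 1) = 0 := by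
    intro i hi hne
    have h1 := Tm_natDegree m h k hk i hi
    rw [ords, Finset.mem_Icc] at hi
    rw [Polynomial.coeff_C_mul, Polynomial.coeff_eq_zero_of_natDegree_lt (by omega), mul_zero]
  split_ifs with hm
  · have h1 : 1 ∈ ords m k := by
      rw [ords, Finset.mem_Icc]; omega
    rw [Finset.sum_eq_single_of_mem 1 h1 hz, Polynomial.coeff_C_mul]
    have h2 := Tm_natDegree m h k hk 1 h1
    have h3 : (∑ k ∈ pts h, (m k).toNat) - 1 = (Tm m h k 1).natDegree := by omega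
    rw [h3, (Tm_monic m h k 1).coeff_natDegree, mul_one]
  · symm
    refine Finset.sum_eq_zero fun i hi => ?_
    rw [ords, Finset.mem_Icc] at hi
    omega

lemma inv_pow_coeff {c : ℚ} (hc : c ≠ 0) (i : ℕ) :
    PowerSeries.coeff 0 ((lin c)⁻¹ ^ i) = 1 / c ^ i ∧
    PowerSeries.coeff 1 ((lin c)⁻¹ ^ i) = -(i : ℚ) / c ^ (i + 1) ∧
    PowerSeries.coeff 2 ((lin c)⁻¹ ^ i) = ((i + 1).choose 2 : ℚ) / c ^ (i + 2) := by
  induction i with
  | zero => simp [PowerSeries.coeff_one]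
  | succ i ih =>
    obtain ⟨h0, h1, h2⟩ := ih
    have e : (lin c)⁻¹ ^ i = PowerSeries.C c * (lin c)⁻¹ ^ (i + 1) +
        (lin c)⁻¹ ^ (i + 1) * PowerSeries.X := by
      calc (lin c)⁻¹ ^ i = (lin c)⁻¹ ^ i * ((lin c)⁻¹ * lin c) := by rw [lin_inv_mul hc, mul_one]
        _ = (lin c)⁻¹ ^ (i + 1) * lin c := by ring
        _ = (lin c)⁻¹ ^ (i + 1) * (PowerSeries.C c + PowerSeries.X) := by rw [← lin]
        _ = _ := by ring
    have e0 := congrArg (PowerSeries.coeff 0) e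
    have e1 := congrArg (PowerSeries.coeff 1) e
    have e2 := congrArg (PowerSeries.coeff 2) e
    rw [map_add, PowerSeries.coeff_C_mul, PowerSeries.coeff_zero_mul_X, h0] at e0
    rw [map_add, PowerSeries.coeff_C_mul, PowerSeries.coeff_succ_mul_X, h1] at e1
    rw [map_add, PowerSeries.coeff_C_mul, PowerSeries.coeff_succ_mul_X, h2] at e2
    have f0 : PowerSeries.coeff 0 ((lin c)⁻¹ ^ (i + 1)) = 1 / c ^ (i + 1) := by
      apply mul_left_cancel₀ hc
      rw [add_zero] at e0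
      rw [← e0]
      field_simp
      ring
    have f1 : PowerSeries.coeff 1 ((lin c)⁻¹ ^ (i + 1)) = -((i + 1 : ℕ) : ℚ) / c ^ (i + 1 + 1) := by
      apply mul_left_cancel₀ hc
      rw [f0] at e1
      rw [← sub_eq_iff_eq_add.2 e1]
      push_cast
      field_simp
      ring
    refine ⟨f0, f1, ?_⟩
    apply mul_left_cancel₀ hc
    rw [f1] at e2
    rw [← sub_eq_iff_eq_add.2 e2, Nat.choose_succ_succ' (i + 1) 1, Nat.choose_one_right]
    push_cast
    field_simp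
    ring

lemma partC (m : ℤ → ℤ) (h : ℤ) (hs : 3 ≤ ∑ k ∈ pts h, m k) (k0 : ℤ) (hk0 : k0 ∈ pts h)
    (hm : m k0 ≤ -3) :
    ∑ k ∈ pts h, ∑ i ∈ ords m k,
      cf m h k i * ((i + 1).choose 2 : ℚ) / ((k - k0 : ℤ) : ℚ) ^ (i + 2) = 0 := by
  set I : PowerSeries ℚ := ∏ k ∈ pts h, (lin ((k - k0 : ℤ) : ℚ))⁻¹ ^ (m k).toNat with hI
  have h3 : PowerSeries.X ^ 3 ∣ sh k0 (Pn m h) * I := by
    refine Dvd.dvd.mul_right ?_ _
    rw [sh_Pn]
    refine Dvd.dvd.mul_left ?_ _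
    refine dvd_trans ?_ (Finset.dvd_prod_of_mem _ hk0)
    have : lin ((k0 - k0 : ℤ) : ℚ) = PowerSeries.X := by simp [lin]
    rw [this]
    exact pow_dvd_pow _ (by omega)
  have h0 := PowerSeries.X_pow_dvd_iff.1 h3 2 (by norm_num)
  rw [key m h hs, Tn, map_sum, Finset.sum_mul, map_sum] at h0
  rw [← h0]
  refine Finset.sum_congr rfl fun k hk => ?_
  rw [map_sum, Finset.sum_mul, map_sum]
  refine Finset.sum_congr rfl fun i hi => ?_
  rw [ords, Finset.mem_Icc] at hi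
  have hne : k ≠ k0 := by
    rintro rfl
    omega
  have hc : ((k - k0 : ℤ) : ℚ) ≠ 0 := by exact_mod_cast sub_ne_zero.2 hne
  have hT : sh k0 (Tm m h k i) * I = (lin ((k - k0 : ℤ) : ℚ))⁻¹ ^ i := by
    rw [Tm, map_mul, map_pow, sh_L, sh_Qk, hI, ← Finset.mul_prod_erase _ _ hk]
    have h1 : (∏ k' ∈ (pts h).erase k, lin ((k' - k0 : ℤ) : ℚ) ^ (m k').toNat) *
        ∏ k' ∈ (pts h).erase k, (lin ((k' - k0 : ℤ) : ℚ))⁻¹ ^ (m k').toNat = 1 := by
      rw [← Finset.prod_mul_distrib]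
      refine Finset.prod_eq_one fun k' _ => ?_
      by_cases hk' : k' = k0
      · have : (m k').toNat = 0 := by rw [hk']; omega
        rw [this, pow_zero, pow_zero, mul_one]
      · have hc' : ((k' - k0 : ℤ) : ℚ) ≠ 0 := by exact_mod_cast sub_ne_zero.2 hk'
        rw [← mul_pow, mul_comm, lin_inv_mul hc', one_pow]
    have h2 : (lin ((k - k0 : ℤ) : ℚ))⁻¹ ^ (m k).toNat =
        (lin ((k - k0 : ℤ) : ℚ))⁻¹ ^ ((m k).toNat - i) * (lin ((k - k0 : ℤ) : ℚ))⁻¹ ^ i := by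
      rw [← pow_add]; congr 1; omega
    have h4 : lin ((k - k0 : ℤ) : ℚ) ^ ((m k).toNat - i) *
        (lin ((k - k0 : ℤ) : ℚ))⁻¹ ^ ((m k).toNat - i) = 1 := by
      rw [← mul_pow, mul_comm, lin_inv_mul hc, one_pow]
    rw [h2, mul_mul_mul_comm, h1, mul_one, ← mul_assoc, h4, one_mul]
  rw [map_mul (sh k0), sh_C, mul_assoc, hT, PowerSeries.coeff_C_mul, (inv_pow_coeff hc i).2.2,
    mul_div_assoc]

lemma rescale_lin (c : ℚ) : PowerSeries.rescale (-1 : ℚ) (lin c) = -lin (-c) := by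
  rw [lin, lin, map_add, PowerSeries.rescale_neg_one_X]
  have : PowerSeries.rescale (-1 : ℚ) (PowerSeries.C c) = PowerSeries.C c := by
    ext n
    rw [PowerSeries.coeff_rescale, PowerSeries.coeff_C]
    split_ifs with hn
    · simp [hn]
    · simp
  rw [this, map_neg]
  ring

lemma rescale_lin_inv {c : ℚ} (hc : c ≠ 0) :
    PowerSeries.rescale (-1 : ℚ) (lin c)⁻¹ = -(lin (-c))⁻¹ := by
  have h1 : PowerSeries.rescale (-1 : ℚ) (lin c)⁻¹ * -lin (-c) = 1 := by
    rw [← rescale_lin, ← map_mul, lin_inv_mul hc, map_one]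
  have h2 := lin_inv_mul (neg_ne_zero.2 hc)
  calc PowerSeries.rescale (-1 : ℚ) (lin c)⁻¹
      = PowerSeries.rescale (-1 : ℚ) (lin c)⁻¹ * ((lin (-c))⁻¹ * lin (-c)) := by rw [h2, mul_one]
    _ = (PowerSeries.rescale (-1 : ℚ) (lin c)⁻¹ * -lin (-c)) * -(lin (-c))⁻¹ := by ring
    _ = _ := by rw [h1, one_mul]

lemma rescale_fac {c : ℚ} (hc : c ≠ 0) (e : ℤ) :
    PowerSeries.rescale (-1 : ℚ) (fac c (-e)) = (-1) ^ e.natAbs * fac (-c) (-e) := by
  rw [fac_eq, fac_eq, map_mul, map_pow, map_pow, rescale_lin, rescale_lin_inv hc,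
    neg_pow (lin (-c)), neg_pow (lin (-c))⁻¹]
  have : e.natAbs = (-e).toNat + e.toNat := by omega
  rw [this, pow_add]
  ring

lemma rescale_Gs (m : ℤ → ℤ) (h : ℤ) (hm : ∀ k, m (h - k) = m k) (k : ℤ) :
    PowerSeries.rescale (-1 : ℚ) (Gs m h k) =
      (-1) ^ (1 + ∑ k' ∈ (pts h).erase k, (m k').natAbs) * Gs m h (h - k) := by
  have hC : ∀ c : ℚ, PowerSeries.rescale (-1 : ℚ) (PowerSeries.C c) = PowerSeries.C c := by
    intro c
    ext n
    rw [PowerSeries.coeff_rescale, PowerSeries.coeff_C]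
    split_ifs with hn
    · simp [hn]
    · simp
  have h1 : ∏ k' ∈ (pts h).erase (h - k), fac ((k' - (h - k) : ℤ) : ℚ) (-(m k')) =
      ∏ k' ∈ (pts h).erase k, fac (-((k' - k : ℤ) : ℚ)) (-(m k')) := by
    refine Finset.prod_bij' (fun a _ => h - a) (fun a _ => h - a) ?_ ?_ ?_ ?_ ?_
    · intro a ha
      simp only [Finset.mem_erase, pts, Finset.mem_Icc] at ha ⊢
      omega
    · intro a ha
      simp only [Finset.mem_erase, pts, Finset.mem_Icc] at ha ⊢
      omega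
    · intro a _; ring
    · intro a _; ring
    · intro a _
      rw [hm]
      congr 1
      push_cast
      ring
  have h2 : PowerSeries.rescale (-1 : ℚ) (∏ k' ∈ (pts h).erase k, fac ((k' - k : ℤ) : ℚ) (-(m k'))) =
      (-1) ^ (∑ k' ∈ (pts h).erase k, (m k').natAbs) *
        ∏ k' ∈ (pts h).erase k, fac (-((k' - k : ℤ) : ℚ)) (-(m k')) := by
    rw [map_prod, ← Finset.prod_pow_eq_pow_sum, ← Finset.prod_mul_distrib]
    refine Finset.prod_congr rfl fun k' hk' => ?_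
    have hne : ((k' - k : ℤ) : ℚ) ≠ 0 := by
      have := (Finset.mem_erase.1 hk').1
      exact_mod_cast sub_ne_zero.2 this
    exact rescale_fac hne _
  rw [Gs, Gs, map_mul, h1, h2, map_add, map_mul, hC, hC, PowerSeries.rescale_neg_one_X, pow_add]
  have h3 : ((h - 2 * (h - k) : ℤ) : ℚ) = -((h - 2 * k : ℤ) : ℚ) := by push_cast; ring
  rw [h3, map_neg]
  ring

end Pf

theorem pf : PfStmt := fun m h hs =>
  ⟨Pf.partA m h hs, Pf.partB m h hs, Pf.partC m h hs⟩

theorem sym : SymStmt := by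
  intro m h hm hev k hk i hi
  rw [ords, Finset.mem_Icc] at hi
  have h1 := congrArg (PowerSeries.coeff ((m k).toNat - i)) (Pf.rescale_Gs m h hm k)
  have h2 : ((-1 : PowerSeries ℚ)) ^ (1 + ∑ k' ∈ (pts h).erase k, (m k').natAbs) =
      PowerSeries.C ((-1) ^ (1 + ∑ k' ∈ (pts h).erase k, (m k').natAbs)) := by
    rw [map_pow, map_neg, map_one]
  rw [PowerSeries.coeff_rescale, h2, PowerSeries.coeff_C_mul] at h1
  have hpar : Even (∑ k' ∈ pts h, (m k').natAbs) := by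
    have h3 : ((∑ k' ∈ pts h, (m k').natAbs : ℕ) : ℤ) =
        ∑ k' ∈ pts h, m k' + 2 * ∑ k' ∈ pts h, ((-(m k')).toNat : ℤ) := by
      push_cast
      rw [Finset.mul_sum, ← Finset.sum_add_distrib]
      refine Finset.sum_congr rfl fun k' _ => ?_
      rw [← Int.natCast_natAbs]
      omega
    rw [← Int.even_coe_nat, h3]
    exact hev.add (even_two_mul _)
  rw [← Finset.add_sum_erase _ _ hk] at hpar
  obtain ⟨r, hr⟩ := hpar
  rw [cf, cf, hm]
  set S := ∑ k' ∈ (pts h).erase k, (m k').natAbs with hS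
  have h4 : ((-1 : ℚ)) ^ (1 + S) * (-1) ^ (1 + S) = 1 := by
    rw [← mul_pow]; simp
  have h5 : ((-1 : ℚ)) ^ (1 + S) * (-1) ^ ((m k).toNat - i) = (-1) ^ (i + 1) := by
    rw [← pow_add]
    have : 1 + S + ((m k).toNat - i) + 2 * i = i + 1 + 2 * r := by omega
    have h6 : ((-1 : ℚ)) ^ (1 + S + ((m k).toNat - i) + 2 * i) = (-1) ^ (i + 1 + 2 * r) := by
      rw [this]
    rw [pow_add _ _ (2 * i), pow_add _ _ (2 * r), pow_mul, pow_mul] at h6
    simpa using h6
  calc PowerSeries.coeff ((m k).toNat - i) (Gs m h (h - k))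
      = (-1) ^ (1 + S) * ((-1) ^ (1 + S) * PowerSeries.coeff ((m k).toNat - i) (Gs m h (h - k))) := by
        rw [← mul_assoc, h4, one_mul]
    _ = _ := by rw [← h1, ← mul_assoc, h5]

end

end Pool.Agent.MP_807c24_nt.H13
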