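import Pool.Agent.MP_807c24_nt.H13.Spec

/-!
The linear form is small: the fraction expansion, symmetry, the contour bound and the size bound.
-/

namespace Pool.Agent.MP_807c24_nt.H13

open Finset Filter Topology

noncomputable section

namespace Small

lemma mult_symm (n : ℕ) (k : ℤ) : mult n (hh n - k) = mult n k := by
  unfold mult hh
  congr 1
  apply List.map_congr_left
  intro j _
  have h : ((j.1 : ℤ) * n < 83 * n + 1 - k ∧ 83 * n + 1 - k ≤ (83 - (j.1 : ℤ)) * n) ↔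
      ((j.1 : ℤ) * n < k ∧ k ≤ (83 - (j.1 : ℤ)) * n) := by
    constructor
    · rintro ⟨h1, h2⟩
      constructor <;> nlinarith
    · rintro ⟨h1, h2⟩
      constructor <;> nlinarith
  simp only [h]

/-- One jump. -/
def jp (n : ℕ) (a : ℕ) (e : ℤ) (k : ℤ) : ℤ :=
  if (a : ℤ) * n < k ∧ k ≤ (83 - (a : ℤ)) * n then e else 0

lemma mult_eq (n : ℕ) (k : ℤ) : mult n k =
    jp n 0 (-1) k + jp n 3 (-1) k + jp n 6 (-1) k + jp n 25 1 k + jp n 26 1 k + jp n 27 1 k +
      jp n 28 1 k + jp n 29 1 k + jp n 30 1 k + jp n 31 1 k + jp n 32 1 k + jp n 33 1 k +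
      jp n 34 1 k + jp n 35 1 k := by
  simp only [mult, jumps, jp, List.map_cons, List.map_nil, List.sum_cons, List.sum_nil]
  ring

lemma sum_jp (n a : ℕ) (e : ℤ) (ha : a ≤ 41) :
    ∑ k ∈ pts (hh n), jp n a e k = e * ((83 - 2 * (a : ℤ)) * n) := by
  have hn : (0 : ℤ) ≤ n := Int.natCast_nonneg n
  have ha0 : (0 : ℤ) ≤ a := Int.natCast_nonneg a
  have ha1 : (a : ℤ) ≤ 41 := by exact_mod_cast ha
  have han : (0 : ℤ) ≤ (a : ℤ) * n := mul_nonneg ha0 hn
  unfold jp
  rw [← Finset.sum_filter]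
  have h : (pts (hh n)).filter (fun k => (a : ℤ) * n < k ∧ k ≤ (83 - (a : ℤ)) * n) =
      Finset.Ioc ((a : ℤ) * n) ((83 - (a : ℤ)) * n) := by
    ext k
    simp only [pts, hh, Finset.mem_filter, Finset.mem_Icc, Finset.mem_Ioc]
    constructor
    · rintro ⟨_, h⟩
      exact h
    · rintro ⟨h1, h2⟩
      refine ⟨⟨by omega, by nlinarith⟩, h1, h2⟩
  rw [h, Finset.sum_const, Int.card_Ioc, nsmul_eq_mul]
  have h2 : (0 : ℤ) ≤ (83 - (a : ℤ)) * n - (a : ℤ) * n := by nlinarith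
  rw [Int.toNat_of_nonneg h2]
  ring

lemma sum_mult (n : ℕ) : ∑ k ∈ pts (hh n), mult n k = 22 * n := by
  simp only [mult_eq, Finset.sum_add_distrib]
  rw [sum_jp n 0 _ (by norm_num), sum_jp n 3 _ (by norm_num), sum_jp n 6 _ (by norm_num),
    sum_jp n 25 _ (by norm_num), sum_jp n 26 _ (by norm_num), sum_jp n 27 _ (by norm_num),
    sum_jp n 28 _ (by norm_num), sum_jp n 29 _ (by norm_num), sum_jp n 30 _ (by norm_num),
    sum_jp n 31 _ (by norm_num), sum_jp n 32 _ (by norm_num), sum_jp n 33 _ (by norm_num),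
    sum_jp n 34 _ (by norm_num), sum_jp n 35 _ (by norm_num)]
  push_cast
  ring

lemma jp_le (n a : ℕ) (k : ℤ) : jp n a 1 k ≤ 1 := by
  unfold jp
  split_ifs <;> norm_num

lemma jp_neg_le (n a : ℕ) (k : ℤ) : jp n a (-1) k ≤ 0 := by
  unfold jp
  split_ifs <;> norm_num

lemma jp_in {n a : ℕ} {e k : ℤ} (h1 : (a : ℤ) * n < k) (h2 : k ≤ (83 - (a : ℤ)) * n) :
    jp n a e k = e := by
  unfold jp
  rw [if_pos ⟨h1, h2⟩]

lemma jp_out {n a : ℕ} {e k : ℤ} (h1 : k ≤ (a : ℤ) * n ∨ (83 - (a : ℤ)) * n < k) :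
    jp n a e k = 0 := by
  unfold jp
  rw [if_neg]
  rintro ⟨h2, h3⟩
  omega

/-- Outside the middle range only the zeros are present. -/
lemma mult_out (n : ℕ) (k : ℤ) (h : k ≤ 25 * n ∨ 58 * n < k) :
    mult n k = jp n 0 (-1) k + jp n 3 (-1) k + jp n 6 (-1) k := by
  have hn : (0 : ℤ) ≤ n := Int.natCast_nonneg n
  rw [mult_eq, jp_out (a := 25) (by push_cast; omega), jp_out (a := 26) (by push_cast; omega),
    jp_out (a := 27) (by push_cast; omega), jp_out (a := 28) (by push_cast; omega),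
    jp_out (a := 29) (by push_cast; omega), jp_out (a := 30) (by push_cast; omega),
    jp_out (a := 31) (by push_cast; omega), jp_out (a := 32) (by push_cast; omega),
    jp_out (a := 33) (by push_cast; omega), jp_out (a := 34) (by push_cast; omega),
    jp_out (a := 35) (by push_cast; omega)]
  ring

lemma pole_gt (n : ℕ) (k : ℤ) (h : 0 < mult n k) : 25 * (n : ℤ) < k := by
  by_contra hk
  have h1 := mult_out n k (Or.inl (by omega))
  have := jp_neg_le n 0 k
  have := jp_neg_le n 3 k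
  have := jp_neg_le n 6 k
  omega

lemma mult_le (n : ℕ) (k : ℤ) : mult n k ≤ 8 := by
  have hn : (0 : ℤ) ≤ n := Int.natCast_nonneg n
  by_cases h : k ≤ 25 * n ∨ 58 * n < k
  · have h1 := mult_out n k h
    have := jp_neg_le n 0 k
    have := jp_neg_le n 3 k
    have := jp_neg_le n 6 k
    omega
  · rw [mult_eq, jp_in (a := 0) (by push_cast; omega) (by push_cast; omega),
      jp_in (a := 3) (by push_cast; omega) (by push_cast; omega),
      jp_in (a := 6) (by push_cast; omega) (by push_cast; omega)]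
    have := jp_le n 25 k
    have := jp_le n 26 k
    have := jp_le n 27 k
    have := jp_le n 28 k
    have := jp_le n 29 k
    have := jp_le n 30 k
    have := jp_le n 31 k
    have := jp_le n 32 k
    have := jp_le n 33 k
    have := jp_le n 34 k
    have := jp_le n 35 k
    omega

lemma mult_three (n : ℕ) (k : ℤ) (h1 : 8 * (n : ℤ) < k) (h2 : k ≤ 25 * n) : mult n k = -3 := by
  have hn : (0 : ℤ) ≤ n := Int.natCast_nonneg n
  rw [mult_out n k (Or.inl h2), jp_in (a := 0) (by push_cast; omega) (by push_cast; omega),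
    jp_in (a := 3) (by push_cast; omega) (by push_cast; omega),
    jp_in (a := 6) (by push_cast; omega) (by push_cast; omega)]
  norm_num

lemma mem_ords {m : ℤ → ℤ} {k : ℤ} {i : ℕ} : i ∈ ords m k ↔ 1 ≤ i ∧ (i : ℤ) ≤ m k := by
  unfold ords
  rw [Finset.mem_Icc]
  omega

lemma Hs_nat (s κ : ℕ) : (Hs s (κ : ℤ) : ℝ) = ∑ ν ∈ Finset.range κ, 1 / ((ν : ℝ) + 1) ^ s := by
  induction κ with
  | zero => simp [Hs]
  | succ κ ih =>
    rw [Finset.sum_range_succ, ← ih]
    unfold Hs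
    have h : Finset.Icc (1 : ℤ) ((κ + 1 : ℕ) : ℤ) = insert ((κ : ℤ) + 1) (Finset.Icc 1 (κ : ℤ)) := by
      ext l
      simp only [Finset.mem_Icc, Finset.mem_insert]
      push_cast
      omega
    rw [h, Finset.sum_insert (by simp)]
    push_cast
    ring

lemma tail_eq (s κ : ℕ) (hs : 2 ≤ s) :
    ∑' ν : ℕ, 1 / ((ν : ℝ) + 1 + κ) ^ s = zr s - (Hs s (κ : ℤ) : ℝ) := by
  have h0 : Summable (fun ν : ℕ => 1 / (ν : ℝ) ^ s) := Real.summable_one_div_nat_pow.2 (by omega)
  have h1 : Summable (fun ν : ℕ => 1 / ((ν : ℝ) + 1) ^ s) := by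
    have := (summable_nat_add_iff 1).2 h0
    simpa using this
  have h2 := h1.sum_add_tsum_nat_add κ
  rw [Hs_nat, zr, ← h2]
  have h3 : ∀ ν : ℕ, 1 / (((ν + κ : ℕ) : ℝ) + 1) ^ s = 1 / ((ν : ℝ) + 1 + κ) ^ s := by
    intro ν
    push_cast
    ring
  simp only [h3]
  ring

lemma Hs_split (s n : ℕ) (k : ℤ) (hk : 25 * (n : ℤ) < k) :
    Hs s (k - 8 * n - 1) = Hs s (k - 25 * n - 1) +
      ∑ k0 ∈ Finset.Ioc (8 * (n : ℤ)) (25 * n), 1 / ((k - k0 : ℤ) : ℚ) ^ s := by
  have hn : (0 : ℤ) ≤ n := Int.natCast_nonneg n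
  unfold Hs
  have h : Finset.Icc (1 : ℤ) (k - 8 * n - 1) =
      Finset.Icc (1 : ℤ) (k - 25 * n - 1) ∪ Finset.Icc (k - 25 * n) (k - 8 * n - 1) := by
    ext l
    simp only [Finset.mem_Icc, Finset.mem_union]
    omega
  rw [h, Finset.sum_union]
  · congr 1
    refine Finset.sum_bij' (fun l _ => k - l) (fun l _ => k - l) ?_ ?_ ?_ ?_ ?_
    · intro l hl
      simp only [Finset.mem_Icc, Finset.mem_Ioc] at hl ⊢
      omega
    · intro l hl
      simp only [Finset.mem_Icc, Finset.mem_Ioc] at hl ⊢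
      omega
    · intro l _
      simp
    · intro l _
      simp
    · intro l _
      simp
  · rw [Finset.disjoint_left]
    intro l h1 h2
    simp only [Finset.mem_Icc] at h1 h2
    omega

lemma harm_eq (hpf : PfStmt) (n : ℕ) (hn : 1 ≤ n) :
    ∑ k ∈ pts (hh n), ∑ i ∈ ords (mult n) k,
      cf (mult n) (hh n) k i * ((i + 1).choose 2 : ℚ) * Hs (i + 2) (k - 8 * n - 1) = -a0 n := by
  have hn' : (1 : ℤ) ≤ n := by exact_mod_cast hn
  obtain ⟨-, -, hc⟩ := hpf (mult n) (hh n) (by rw [sum_mult]; omega)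
  have h1 : ∑ k ∈ pts (hh n), ∑ i ∈ ords (mult n) k,
      cf (mult n) (hh n) k i * ((i + 1).choose 2 : ℚ) * Hs (i + 2) (k - 8 * n - 1) =
      ∑ k ∈ pts (hh n), ∑ i ∈ ords (mult n) k,
        (cf (mult n) (hh n) k i * ((i + 1).choose 2 : ℚ) * Hs (i + 2) (k - 25 * n - 1) +
          ∑ k0 ∈ Finset.Ioc (8 * (n : ℤ)) (25 * n),
            cf (mult n) (hh n) k i * ((i + 1).choose 2 : ℚ) / ((k - k0 : ℤ) : ℚ) ^ (i + 2)) := by
    refine Finset.sum_congr rfl fun k _ => Finset.sum_congr rfl fun i hi => ?_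
    have hi' := mem_ords.1 hi
    rw [Hs_split _ n k (pole_gt n k (by omega)), mul_add, Finset.mul_sum]
    congr 1
    refine Finset.sum_congr rfl fun k0 _ => ?_
    ring
  rw [h1]
  simp only [Finset.sum_add_distrib]
  have h2 : ∑ k ∈ pts (hh n), ∑ i ∈ ords (mult n) k,
      ∑ k0 ∈ Finset.Ioc (8 * (n : ℤ)) (25 * n),
        cf (mult n) (hh n) k i * ((i + 1).choose 2 : ℚ) / ((k - k0 : ℤ) : ℚ) ^ (i + 2) = 0 := by
    have h3 : ∀ k ∈ pts (hh n), ∑ i ∈ ords (mult n) k,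
        ∑ k0 ∈ Finset.Ioc (8 * (n : ℤ)) (25 * n),
          cf (mult n) (hh n) k i * ((i + 1).choose 2 : ℚ) / ((k - k0 : ℤ) : ℚ) ^ (i + 2) =
        ∑ k0 ∈ Finset.Ioc (8 * (n : ℤ)) (25 * n), ∑ i ∈ ords (mult n) k,
          cf (mult n) (hh n) k i * ((i + 1).choose 2 : ℚ) / ((k - k0 : ℤ) : ℚ) ^ (i + 2) :=
      fun k _ => Finset.sum_comm
    rw [Finset.sum_congr rfl h3, Finset.sum_comm]
    refine Finset.sum_eq_zero fun k0 hk0 => ?_
    rw [Finset.mem_Ioc] at hk0
    refine hc k0 ?_ (by rw [mult_three n k0 hk0.1 hk0.2])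
    simp only [pts, hh, Finset.mem_Icc]
    omega
  rw [h2, a0]
  ring

lemma ai_one (hpf : PfStmt) (n : ℕ) (hn : 1 ≤ n) : ai n 1 = 0 := by
  have hn' : (1 : ℤ) ≤ n := by exact_mod_cast hn
  obtain ⟨-, hb, -⟩ := hpf (mult n) (hh n) (by rw [sum_mult]; omega)
  unfold ai
  simpa using hb

lemma ai_even (hs : SymStmt) (n i : ℕ) (hi : 1 ≤ i) (he : Even i) : ai n i = 0 := by
  have hsym := hs (mult n) (hh n) (mult_symm n) (by rw [sum_mult]; exact ⟨11 * n, by ring⟩)
  have h : ai n i = -ai n i := by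
    unfold ai
    rw [← Finset.sum_neg_distrib]
    refine Finset.sum_bij' (fun k _ => hh n - k) (fun k _ => hh n - k) ?_ ?_ ?_ ?_ ?_
    · intro k hk
      simp only [Finset.mem_filter, pts, Finset.mem_Icc, mult_symm] at hk ⊢
      omega
    · intro k hk
      simp only [Finset.mem_filter, pts, Finset.mem_Icc, mult_symm] at hk ⊢
      omega
    · intro k _
      simp
    · intro k _
      simp
    · intro k hk
      rw [Finset.mem_filter] at hk
      rw [hsym k hk.1 i (mem_ords.2 ⟨hi, hk.2⟩), pow_succ, he.neg_one_pow]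
      ring
  linarith

lemma zeta_part (n : ℕ) :
    ∑ k ∈ pts (hh n), ∑ i ∈ ords (mult n) k,
      (cf (mult n) (hh n) k i : ℝ) * ((i + 1).choose 2 : ℝ) * zr (i + 2) =
      ∑ i ∈ Finset.Icc 1 8, (ai n i : ℝ) * zr (i + 2) := by
  have h1 : ∀ i ∈ Finset.Icc 1 8, (ai n i : ℝ) * zr (i + 2) =
      ∑ k ∈ (pts (hh n)).filter (fun k => (i : ℤ) ≤ mult n k),
        (cf (mult n) (hh n) k i : ℝ) * ((i + 1).choose 2 : ℝ) * zr (i + 2) := by
    intro i _
    unfold ai
    push_cast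
    rw [Finset.sum_mul]
  rw [Finset.sum_congr rfl h1]
  refine Finset.sum_comm' ?_
  intro k i
  have := mult_le n k
  simp only [mem_ords, Finset.mem_filter, Finset.mem_Icc]
  constructor
  · rintro ⟨h1, h2, h3⟩
    exact ⟨⟨h1, h3⟩, h2, by omega⟩
  · rintro ⟨⟨h1, h3⟩, h2, _⟩
    exact ⟨h1, h2, h3⟩

lemma form_eq (hpf : PfStmt) (hs : SymStmt) (n : ℕ) (hn : 1 ≤ n) :
    ∑ k ∈ pts (hh n), ∑ i ∈ ords (mult n) k,
      (cf (mult n) (hh n) k i : ℝ) * ((i + 1).choose 2 : ℝ) *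
        ∑' ν : ℕ, 1 / ((ν : ℝ) + 1 + ((k - 8 * n - 1).toNat : ℕ)) ^ (i + 2) = Fn n := by
  have h1 : ∑ k ∈ pts (hh n), ∑ i ∈ ords (mult n) k,
      (cf (mult n) (hh n) k i : ℝ) * ((i + 1).choose 2 : ℝ) *
        ∑' ν : ℕ, 1 / ((ν : ℝ) + 1 + ((k - 8 * n - 1).toNat : ℕ)) ^ (i + 2) =
      ∑ k ∈ pts (hh n), ∑ i ∈ ords (mult n) k,
        ((cf (mult n) (hh n) k i : ℝ) * ((i + 1).choose 2 : ℝ) * zr (i + 2) -
          ((cf (mult n) (hh n) k i * ((i + 1).choose 2 : ℚ) * Hs (i + 2) (k - 8 * n - 1) : ℚ) : ℝ)) := by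
    refine Finset.sum_congr rfl fun k _ => Finset.sum_congr rfl fun i hi => ?_
    have hi' := mem_ords.1 hi
    have hk := pole_gt n k (by omega)
    have hn0 : (0 : ℤ) ≤ n := Int.natCast_nonneg n
    rw [tail_eq _ _ (by omega), Int.toNat_of_nonneg (by omega)]
    push_cast
    ring
  rw [h1]
  simp only [Finset.sum_sub_distrib]
  rw [zeta_part]
  have h2 := congrArg (fun x : ℚ => (x : ℝ)) (harm_eq hpf n hn)
  simp only [Rat.cast_sum] at h2
  rw [h2]
  have h3 : Finset.Icc 1 8 = ({1, 2, 3, 4, 5, 6, 7, 8} : Finset ℕ) := by decide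
  rw [h3]
  simp only [Finset.mem_insert, Finset.mem_singleton, Finset.sum_insert, Finset.sum_singleton,
    not_false_eq_true, Nat.reduceEqDiff, or_self]
  rw [ai_one hpf n hn, ai_even hs n 2 (by norm_num) (by decide),
    ai_even hs n 4 (by norm_num) (by decide), ai_even hs n 6 (by norm_num) (by decide),
    ai_even hs n 8 (by norm_num) (by decide), Fn]
  push_cast
  ring

end Small

open _root_.Pool.Agent.MP_807c24_nt.H13.Small in
theorem small : PfStmt → SymStmt → ContourStmt → SizeStmt → SmallStmt := by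
  intro hpf hs hc hz
  obtain ⟨C, hC, hc⟩ := hc
  refine ⟨C * 2067, by positivity, fun n hn => ?_⟩
  have hn' : (1 : ℤ) ≤ n := by exact_mod_cast hn
  obtain ⟨ha, -, -⟩ := hpf (mult n) (hh n) (by rw [sum_mult]; omega)
  have key := hc ((_ : ℤ) × ℕ) ((pts (hh n)).sigma (fun k => ords (mult n) k))
    (fun j => (j.1 - 8 * n - 1).toNat) (fun j => j.2) (fun j => (cf (mult n) (hh n) j.1 j.2 : ℝ))
    (2067 * n * Real.exp (-(315 / 2) * n) / (n : ℝ) ^ (22 * n)) ?_ ?_
  · rw [Finset.sum_sigma] at key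
    simp only at key
    rw [form_eq hpf hs n hn] at key
    refine key.trans (le_of_eq ?_)
    ring
  · intro j hj
    rw [Finset.mem_sigma] at hj
    exact (mem_ords.1 hj.2).1
  · intro y
    refine le_trans (le_of_eq ?_) (hz n hn y)
    congr 1
    rw [ha, Finset.sum_sigma]
    · refine Finset.sum_congr rfl fun k _ => Finset.sum_congr rfl fun i hi => ?_
      have hi' := mem_ords.1 hi
      have hk := pole_gt n k (by omega)
      have h1 : (((k - 8 * n - 1).toNat : ℕ) : ℂ) = (k : ℂ) - 8 * n - 1 := by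
        have h2 : (((k - 8 * n - 1).toNat : ℕ) : ℤ) = k - 8 * n - 1 :=
          Int.toNat_of_nonneg (by omega)
        have h3 := congrArg (fun x : ℤ => (x : ℂ)) h2
        simp only [Int.cast_natCast] at h3
        rw [h3]
        push_cast
        ring
      simp only [h1]
      congr 2
      ring
    · intro k _ h0
      have h1 := congrArg Complex.re h0
      simp at h1
      have h2 : ((2 * k - 16 * n - 1 : ℤ) : ℝ) = 0 := by
        push_cast
        linarith
      have h3 : (2 * k - 16 * n - 1 : ℤ) = 0 := by exact_mod_cast h2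
      omega

end

end Pool.Agent.MP_807c24_nt.H13
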