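import Pool.Agent.MP_807c24_nt.H13.Spec

/-! The contour integral bound. -/

namespace Pool.Agent.MP_807c24_nt.H13

open Finset Filter Topology MeasureTheory Complex

noncomputable section

namespace Contour

/-- `1 / (A + i y)`. -/
def u (A y : ℝ) : ℂ := ((A : ℂ) + y * I)⁻¹

lemma ne0 {A : ℝ} (hA : A ≠ 0) (y : ℝ) : ((A : ℂ) + y * I) ≠ 0 := by
  intro h
  have := congrArg Complex.re h
  simp at this
  exact hA this

lemma norm_sq_u (A y : ℝ) : ‖u A y‖ ^ 2 = (A ^ 2 + y ^ 2)⁻¹ := by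
  unfold u
  rw [norm_inv, inv_pow, Complex.sq_norm, Complex.normSq_add_mul_I]

lemma norm_u_le {A : ℝ} (hA : A ≠ 0) (y : ℝ) : ‖u A y‖ ≤ |A|⁻¹ := by
  have h1 : 0 < |A| := abs_pos.mpr hA
  refine (pow_le_pow_iff_left₀ (norm_nonneg _) (by positivity) two_ne_zero).mp ?_
  rw [norm_sq_u, inv_pow, sq_abs]
  apply inv_anti₀ (by positivity)
  nlinarith [sq_nonneg y]

lemma cont_u {A : ℝ} (hA : A ≠ 0) : Continuous (u A) := by
  unfold u
  exact Continuous.inv₀ (by fun_prop) (ne0 hA)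

lemma int_lor {A : ℝ} (hA : A ≠ 0) : Integrable fun y : ℝ => (A ^ 2 + y ^ 2)⁻¹ := by
  have h := (integrable_inv_one_add_sq.comp_div hA).const_mul ((A ^ 2)⁻¹)
  refine h.congr (Eventually.of_forall fun y => ?_)
  have : 0 < A ^ 2 := by positivity
  simp only
  field_simp

lemma val_lor {A : ℝ} (hA : A ≠ 0) : ∫ y : ℝ, (A ^ 2 + y ^ 2)⁻¹ = Real.pi / |A| := by
  have h1 : ∀ y : ℝ, (A ^ 2 + y ^ 2)⁻¹ = (A ^ 2)⁻¹ * (1 + (y / A) ^ 2)⁻¹ := by
    intro y
    have : 0 < A ^ 2 := by positivity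
    field_simp
  simp_rw [h1]
  rw [integral_const_mul, Measure.integral_comp_div (fun x : ℝ => (1 + x ^ 2)⁻¹) A,
    integral_univ_inv_one_add_sq, smul_eq_mul, ← sq_abs A]
  have : 0 < |A| := abs_pos.mpr hA
  field_simp

lemma int_uu {A B : ℝ} (hA : A ≠ 0) (hB : B ≠ 0) : Integrable fun y => u A y * u B y := by
  refine Integrable.mono' (((int_lor hA).add (int_lor hB)).div_const 2)
    ((cont_u hA).mul (cont_u hB)).aestronglyMeasurable (Eventually.of_forall fun y => ?_)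
  simp only [Pi.add_apply, norm_mul]
  rw [← norm_sq_u, ← norm_sq_u]
  nlinarith [sq_nonneg (‖u A y‖ - ‖u B y‖)]

lemma int_mul {A : ℝ} (hA : A ≠ 0) {f : ℝ → ℂ} (hf : Integrable f) (k : ℕ) :
    Integrable fun y => u A y ^ k * f y :=
  hf.bdd_mul (c := |A|⁻¹ ^ k) ((cont_u hA).pow k).aestronglyMeasurable
    (Eventually.of_forall fun y => by
      rw [norm_pow]; exact pow_le_pow_left₀ (norm_nonneg _) (norm_u_le hA y) k)

lemma int_pow {A B : ℝ} (hA : A ≠ 0) (hB : B ≠ 0) (i j : ℕ) (h : 2 ≤ i + j) :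
    Integrable fun y => u A y ^ i * u B y ^ j := by
  match i, j, h with
  | 0, j + 2, _ =>
    refine (int_mul hB (int_uu hB hB) j).congr (Eventually.of_forall fun y => ?_)
    simp only; ring
  | i + 2, 0, _ =>
    refine (int_mul hA (int_uu hA hA) i).congr (Eventually.of_forall fun y => ?_)
    simp only; ring
  | i + 1, j + 1, _ =>
    refine (int_mul hA (int_mul hB (int_uu hA hB) j) i).congr (Eventually.of_forall fun y => ?_)
    simp only; ring

lemma tend_u (A : ℝ) {l : Filter ℝ} (hl : Tendsto (fun y : ℝ => |y|) l atTop) :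
    Tendsto (u A) l (𝓝 0) := by
  rw [tendsto_zero_iff_norm_tendsto_zero]
  have h1 : Tendsto (fun y : ℝ => |y|⁻¹) l (𝓝 0) := hl.inv_tendsto_atTop
  refine squeeze_zero' (Eventually.of_forall fun y => norm_nonneg _) ?_ h1
  filter_upwards [hl.eventually_gt_atTop 0] with y hy
  refine (pow_le_pow_iff_left₀ (norm_nonneg _) (by positivity) two_ne_zero).mp ?_
  rw [norm_sq_u, inv_pow, sq_abs]
  have : y ≠ 0 := abs_pos.mp hy
  apply inv_anti₀ (by positivity)
  nlinarith [sq_nonneg A]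

lemma val_pow {A : ℝ} (hA : A ≠ 0) (k : ℕ) : ∫ y, u A y ^ (k + 2) = 0 := by
  have hd : ∀ y : ℝ, HasDerivAt (fun y : ℝ => I / (k + 1) * u A y ^ (k + 1))
      (u A y ^ (k + 2)) y := by
    intro y
    have h0 : HasDerivAt (fun z : ℂ => (A : ℂ) + z * I) I (y : ℂ) := by
      simpa using ((hasDerivAt_id (y : ℂ)).mul_const I).const_add (A : ℂ)
    have h1 := ((h0.inv (ne0 hA y)).pow (k + 1)).const_mul (I / (k + 1))
    have h2 := h1.comp_ofReal
    refine h2.congr_deriv ?_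
    have hk : ((k : ℂ) + 1) ≠ 0 := by exact_mod_cast Nat.succ_ne_zero k
    have hn := ne0 hA y
    unfold u
    simp only [Pi.inv_apply, Nat.add_sub_cancel, Nat.cast_add, Nat.cast_one, inv_pow]
    field_simp
    rw [I_sq]; ring
  have hi : Integrable fun y => u A y ^ (k + 2) := by
    simpa using int_pow hA hA (k + 2) 0 (by omega)
  have ht : ∀ {l : Filter ℝ}, Tendsto (fun y : ℝ => |y|) l atTop →
      Tendsto (fun y : ℝ => I / (k + 1) * u A y ^ (k + 1)) l (𝓝 0) := by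
    intro l hl
    simpa using ((tend_u A hl).pow (k + 1)).const_mul (I / (k + 1))
  rw [integral_of_hasDerivAt_of_tendsto hd hi (ht tendsto_abs_atBot_atTop)
    (ht tendsto_abs_atTop_atTop)]
  simp

lemma split {A B : ℝ} (hA : A ≠ 0) (hB : B ≠ 0) (hAB : A ≠ B) (y : ℝ) :
    u A y * u B y = (u A y - u B y) / ((B : ℂ) - A) := by
  have h1 := ne0 hA y
  have h2 := ne0 hB y
  have h3 : (B : ℂ) - A ≠ 0 := by
    rw [sub_ne_zero]; exact_mod_cast hAB.symm
  unfold u
  field_simp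
  ring

lemma even_part {A : ℝ} (hA : A ≠ 0) (y : ℝ) :
    u A y + u A (-y) = ((2 * A * (A ^ 2 + y ^ 2)⁻¹ : ℝ) : ℂ) := by
  have h1 := ne0 hA y
  have h2 := ne0 hA (-y)
  have h3 : ((A : ℂ) ^ 2 + (y : ℂ) ^ 2) = ((A : ℂ) + y * I) * ((A : ℂ) + (-y : ℝ) * I) := by
    push_cast
    linear_combination (y : ℂ) ^ 2 * I_sq
  unfold u
  push_cast at *
  rw [h3]
  generalize hP : (A : ℂ) + y * I = P at *
  generalize hQ : (A : ℂ) + -y * I = Q at *
  have h4 : 2 * (A : ℂ) = P + Q := by rw [← hP, ← hQ]; ring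
  rw [h4]
  field_simp
  ring

/-- The jump constant. -/
def cc (A B : ℝ) : ℝ := Real.pi * (A / |A| - B / |B|)

lemma val_uu {A B : ℝ} (hA : A ≠ 0) (hB : B ≠ 0) (hAB : A ≠ B) :
    ∫ y, u A y * u B y = (cc A B : ℂ) / ((B : ℂ) - A) := by
  have hi := int_uu hA hB
  have h1 : ∫ y, u A (-y) * u B (-y) = ∫ y, u A y * u B y :=
    integral_neg_eq_self (fun y => u A y * u B y) volume
  have h2 : ∫ y, (u A y * u B y + u A (-y) * u B (-y)) = 2 * ∫ y, u A y * u B y := by
    rw [integral_add hi hi.comp_neg, h1]; ring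
  have h3 : ∀ y, u A y * u B y + u A (-y) * u B (-y) =
      ((2 * A * (A ^ 2 + y ^ 2)⁻¹ - 2 * B * (B ^ 2 + y ^ 2)⁻¹ : ℝ) : ℂ) / ((B : ℂ) - A) := by
    intro y
    rw [split hA hB hAB, split hA hB hAB, Complex.ofReal_sub, ← even_part hA, ← even_part hB]
    ring
  simp_rw [h3] at h2
  rw [integral_div, integral_complex_ofReal, integral_sub ((int_lor hA).const_mul _)
    ((int_lor hB).const_mul _), integral_const_mul, integral_const_mul, val_lor hA,
    val_lor hB] at h2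
  have h4 : (2 * A * (Real.pi / |A|) - 2 * B * (Real.pi / |B|) : ℝ) = 2 * cc A B := by
    unfold cc; ring
  rw [h4] at h2
  have h5 : (2 : ℂ) * ∫ y, u A y * u B y = 2 * ((cc A B : ℂ) / ((B : ℂ) - A)) := by
    rw [← h2]; simp; ring
  exact mul_left_cancel₀ two_ne_zero h5

lemma step {A B : ℝ} (hA : A ≠ 0) (hB : B ≠ 0) (hAB : A ≠ B) (i j : ℕ) (h : 1 ≤ i + j) :
    ∫ y, u A y ^ (i + 1) * u B y ^ (j + 1) =
      ((∫ y, u A y ^ (i + 1) * u B y ^ j) - ∫ y, u A y ^ i * u B y ^ (j + 1)) /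
        ((B : ℂ) - A) := by
  rw [← integral_sub (int_pow hA hB _ _ (by omega)) (int_pow hA hB _ _ (by omega)), ← integral_div]
  congr 1
  ext y
  have := split hA hB hAB y
  calc u A y ^ (i + 1) * u B y ^ (j + 1) = u A y ^ i * u B y ^ j * (u A y * u B y) := by ring
    _ = _ := by rw [this]; ring

lemma val_gen {A B : ℝ} (hA : A ≠ 0) (hB : B ≠ 0) (hAB : A ≠ B) (i j : ℕ) :
    ∫ y, u A y ^ (i + 1) * u B y ^ (j + 1) =
      (cc A B : ℂ) * (-1) ^ i * ((i + j).choose i : ℂ) / ((B : ℂ) - A) ^ (i + j + 1) := by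
  have h3 : (B : ℂ) - A ≠ 0 := by
    rw [sub_ne_zero]; exact_mod_cast hAB.symm
  induction i generalizing j with
  | zero =>
    induction j with
    | zero => simpa using val_uu hA hB hAB
    | succ j ih =>
      rw [step hA hB hAB 0 (j + 1) (by omega), ih]
      have := val_pow hB j
      simp only [pow_zero, one_mul, this, Nat.choose_zero_right, zero_add]
      field_simp
      ring
  | succ i ihi =>
    induction j with
    | zero =>
      rw [step hA hB hAB (i + 1) 0 (by omega), ihi 0]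
      have := val_pow hA i
      simp only [pow_zero, mul_one, this, add_zero, Nat.choose_self]
      field_simp
      ring
    | succ j ih =>
      rw [step hA hB hAB (i + 1) (j + 1) (by omega), ih, ihi (j + 1)]
      have e1 : i + 1 + (j + 1) = (i + 1 + j) + 1 := by ring
      have e2 : i + (j + 1) = i + 1 + j := by ring
      rw [e1, e2, Nat.choose_succ_succ' (i + 1 + j) i]
      push_cast
      field_simp
      ring

lemma val_pos {A B : ℝ} (hA : 0 < A) (hB : 0 < B) (i : ℕ) :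
    ∫ y, u A y ^ (i + 1) * u B y ^ 3 = 0 := by
  by_cases hAB : A = B
  · subst hAB
    have := val_pow hA.ne' (i + 2)
    rw [← this]
    congr 1; ext y; ring
  · rw [val_gen hA.ne' hB.ne' hAB i 2]
    have : cc A B = 0 := by
      unfold cc
      rw [abs_of_pos hA, abs_of_pos hB, div_self hA.ne', div_self hB.ne']; ring
    simp [this]

lemma val_neg {A B : ℝ} (hA : 0 < A) (hB : B < 0) (i : ℕ) :
    ∫ y, u A y ^ (i + 1) * u B y ^ 3 =
      ((-(2 * Real.pi) * ((i + 2).choose 2 : ℝ) * (1 / (A - B) ^ (i + 3)) : ℝ) : ℂ) := by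
  rw [val_gen hA.ne' hB.ne (by linarith) i 2]
  have h1 : cc A B = 2 * Real.pi := by
    unfold cc
    rw [abs_of_pos hA, abs_of_neg hB, div_self hA.ne', div_neg, div_self hB.ne]; ring
  have h2 : (i + 2).choose i = (i + 2).choose 2 := Nat.choose_symm_add
  have h3 : (A : ℂ) - B ≠ 0 := by
    rw [sub_ne_zero]; exact_mod_cast (by linarith : A ≠ B)
  have h4 : ((B : ℂ) - A) ^ (i + 2 + 1) = -((-1) ^ i * ((A : ℂ) - B) ^ (i + 3)) := by
    rw [show (B : ℂ) - A = (-1) * ((A : ℂ) - B) by ring, mul_pow]; ring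
  have h5 : ((-1 : ℂ)) ^ i ≠ 0 := pow_ne_zero _ (by norm_num)
  rw [h1, h2, h4]
  push_cast
  field_simp

/-- The kernel on the line of real part one half. -/
def K (y : ℝ) : ℂ := ∑' v : ℤ, u (v + 1 / 2) y ^ 3

lemma half_ne (v : ℤ) : ((v : ℝ) + 1 / 2) ≠ 0 := by
  intro h
  have h2 : ((2 * v + 1 : ℤ) : ℝ) = 0 := by push_cast; linarith
  have h3 : (2 * v + 1 : ℤ) = 0 := by exact_mod_cast h2
  omega

lemma summ (s : ℕ) (hs : 1 < s) : Summable fun v : ℤ => |(v : ℝ) + 1 / 2|⁻¹ ^ s := by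
  have h := (Real.summable_one_div_int_add_rpow (1 / 2) (s : ℝ)).mpr (by exact_mod_cast hs)
  refine h.congr fun v => ?_
  rw [Real.rpow_natCast, one_div, inv_pow]

lemma int_K {A : ℝ} (hA : 0 < A) (i : ℕ) :
    HasSum (fun v : ℤ => ∫ y, u A y ^ (i + 1) * u (v + 1 / 2) y ^ 3)
      (∫ y, u A y ^ (i + 1) * K y) := by
  have h := hasSum_integral_of_summable_integral_norm (μ := volume)
    (F := fun (v : ℤ) (y : ℝ) => u A y ^ (i + 1) * u (v + 1 / 2) y ^ 3)
    (fun v => int_pow hA.ne' (half_ne v) _ _ (by omega)) ?_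
  · simpa only [K, tsum_mul_left] using h
  refine Summable.of_nonneg_of_le (fun v => integral_nonneg fun y => norm_nonneg _) (fun v => ?_)
    ((summ 2 (by norm_num)).mul_left (|A|⁻¹ ^ (i + 1) * Real.pi))
  have hv := half_ne v
  calc ∫ y, ‖u A y ^ (i + 1) * u (v + 1 / 2) y ^ 3‖
      ≤ ∫ y : ℝ, |A|⁻¹ ^ (i + 1) * |(v : ℝ) + 1 / 2|⁻¹ * (((v : ℝ) + 1 / 2) ^ 2 + y ^ 2)⁻¹ := by
        refine integral_mono (int_pow hA.ne' hv _ _ (by omega)).norm
          ((int_lor hv).const_mul _) fun y => ?_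
        simp only [norm_mul, norm_pow]
        rw [← norm_sq_u, mul_assoc, pow_succ' _ 2]
        have h1 := norm_u_le hA.ne' y
        have h2 := norm_u_le hv y
        gcongr
    _ = _ := by
        rw [integral_const_mul, val_lor hv]
        ring

lemma val_K (κ i : ℕ) :
    ∫ y, u (1 / 2 + κ) y ^ (i + 1) * K y =
      ((-(2 * Real.pi) * (((i + 2).choose 2 : ℝ) *
        ∑' ν : ℕ, 1 / ((ν : ℝ) + 1 + κ) ^ (i + 3)) : ℝ) : ℂ) := by
  have hA : (0 : ℝ) < 1 / 2 + κ := by positivity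
  have h := (int_K hA i).nat_add_neg_add_one
  rw [← h.tsum_eq, ← mul_assoc, ← tsum_mul_left, Complex.ofReal_tsum]
  refine tsum_congr fun ν => ?_
  have hν : (0 : ℝ) ≤ ν := Nat.cast_nonneg ν
  rw [val_pos hA (by push_cast; positivity), val_neg hA (by push_cast; linarith), zero_add]
  congr 4
  push_cast
  ring

lemma K_near (y : ℝ) : ‖K y‖ ≤ ∑' v : ℤ, |(v : ℝ) + 1 / 2|⁻¹ ^ 3 := by
  refine tsum_of_norm_bounded (summ 3 (by norm_num)).hasSum fun v => ?_
  rw [norm_pow]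
  exact pow_le_pow_left₀ (norm_nonneg _) (norm_u_le (half_ne v) y) 3

lemma K_far : ∃ C : ℝ, 0 ≤ C ∧ ∀ y : ℝ, 1 ≤ y → ‖K y‖ ≤ C * Real.exp (-(2 * Real.pi * y)) := by
  set r : ℝ := Real.exp (-(2 * Real.pi)) with hr
  have hr0 : 0 < r := Real.exp_pos _
  have hr1 : r < 1 := Real.exp_lt_one_iff.mpr (by have := Real.pi_pos; linarith)
  have hs : Summable fun n : ℕ => (n : ℝ) ^ 2 * r ^ n :=
    summable_pow_mul_geometric_of_norm_lt_one 2 (by rw [Real.norm_of_nonneg hr0.le]; exact hr1)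
  refine ⟨‖((-2 * Real.pi * I) ^ (2 + 1) / (Nat.factorial 2 : ℕ) : ℂ)‖ *
    ((∑' n : ℕ, (n : ℝ) ^ 2 * r ^ n) / r), ?_, fun y hy => ?_⟩
  · have : 0 ≤ ∑' n : ℕ, (n : ℝ) ^ 2 * r ^ n := tsum_nonneg fun n => by positivity
    positivity
  have hz : 0 < ((1 / 2 : ℂ) + y * I).im := by simp; linarith
  have h := EisensteinSeries.qExpansion_identity (k := 2) (by norm_num) ⟨_, hz⟩
  have hK : K y = ∑' n : ℤ, 1 / (((1 / 2 : ℂ) + y * I) + n) ^ (2 + 1) := by
    unfold K u
    refine tsum_congr fun v => ?_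
    rw [one_div, inv_pow]
    congr 2
    push_cast
    ring
  simp only at h
  rw [hK, h, norm_mul, mul_assoc _ (_ / r)]
  refine mul_le_mul_of_nonneg_left ?_ (norm_nonneg _)
  set q : ℝ := Real.exp (-(2 * Real.pi * y)) with hq
  have hq0 : 0 < q := Real.exp_pos _
  have hqr : q ≤ r := Real.exp_le_exp.mpr (by have := Real.pi_pos; nlinarith)
  have hn : ‖cexp (2 * Real.pi * I * ((1 / 2 : ℂ) + y * I))‖ = q := by
    rw [Complex.norm_exp]
    congr 1
    simp
  have hsum := (hs.hasSum.div_const r).mul_right q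
  refine tsum_of_norm_bounded hsum fun n => ?_
  rw [norm_mul, norm_pow, norm_pow, hn, Complex.norm_natCast]
  cases n with
  | zero => simp
  | succ n =>
    have h1 : q ^ n ≤ r ^ n := pow_le_pow_left₀ hq0.le hqr n
    calc ((n + 1 : ℕ) : ℝ) ^ 2 * q ^ (n + 1) = ((n + 1 : ℕ) : ℝ) ^ 2 * q ^ n * q := by ring
      _ ≤ ((n + 1 : ℕ) : ℝ) ^ 2 * r ^ n * q := by gcongr
      _ = _ := by field_simp; ring

lemma K_conj (y : ℝ) : ‖K (-y)‖ = ‖K y‖ := by
  rw [← Complex.norm_conj (K y)]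
  congr 1
  unfold K
  rw [Complex.conj_tsum]
  refine tsum_congr fun v => ?_
  unfold u
  simp only [map_pow, map_inv₀, map_add, map_mul, Complex.conj_ofReal, Complex.conj_I]
  push_cast
  ring

lemma K_le : ∃ C : ℝ, 0 ≤ C ∧ ∀ y : ℝ, ‖K y‖ ≤ C * Real.exp (-(2 * Real.pi * |y|)) := by
  obtain ⟨C, hC, h⟩ := K_far
  set D : ℝ := ∑' v : ℤ, |(v : ℝ) + 1 / 2|⁻¹ ^ 3 with hD
  have hD0 : 0 ≤ D := tsum_nonneg fun v => by positivity
  refine ⟨C + D * Real.exp (2 * Real.pi), by positivity, fun y => ?_⟩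
  have he := Real.exp_pos (-(2 * Real.pi * |y|))
  have he2 := Real.exp_pos (2 * Real.pi)
  by_cases hy : 1 ≤ |y|
  · have h1 : ‖K y‖ = ‖K |y|‖ := by
      rcases abs_choice y with h2 | h2 <;> rw [h2]
      exact (K_conj y).symm
    rw [h1]
    refine (h _ hy).trans ?_
    gcongr
    exact le_add_of_nonneg_right (by positivity)
  · push Not at hy
    refine (K_near y).trans ?_
    have h3 : 1 ≤ Real.exp (2 * Real.pi) * Real.exp (-(2 * Real.pi * |y|)) := by
      rw [← Real.exp_add]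
      apply Real.one_le_exp
      have := Real.pi_pos
      nlinarith
    nlinarith [mul_nonneg hC he.le]

lemma int_exp {δ : ℝ} (hδ : 0 < δ) : Integrable fun y : ℝ => Real.exp (-(δ * |y|)) := by
  rw [← integrableOn_univ, ← Set.Iic_union_Ioi (a := (0 : ℝ))]
  refine IntegrableOn.union ?_ ?_
  · refine (integrableOn_exp_mul_Iic hδ 0).congr_fun (fun y hy => ?_) measurableSet_Iic
    simp only
    rw [abs_of_nonpos hy]; congr 1; ring
  · refine (exp_neg_integrableOn_Ioi 0 hδ).congr_fun (fun y hy => ?_) measurableSet_Ioi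
    simp only
    rw [abs_of_pos hy]; congr 1; ring

lemma cont_K : Continuous K := by
  unfold K
  refine continuous_tsum (fun v => (cont_u (half_ne v)).pow 3) (summ 3 (by norm_num))
    fun v y => ?_
  rw [norm_pow]
  exact pow_le_pow_left₀ (norm_nonneg _) (norm_u_le (half_ne v) y) 3

lemma intg_K : Integrable K := by
  obtain ⟨C, _, h⟩ := K_le
  exact Integrable.mono' ((int_exp (δ := 2 * Real.pi) (by positivity)).const_mul C)
    cont_K.aestronglyMeasurable (Eventually.of_forall h)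

end Contour

open Contour in
theorem contour : ContourStmt := by
  obtain ⟨C, hC, hK⟩ := K_le
  have hδ : 0 < 2 * Real.pi - 6281 / 1000 := by
    have := Real.pi_gt_d4; linarith
  set J : ℝ := ∫ y : ℝ, Real.exp (-((2 * Real.pi - 6281 / 1000) * |y|)) with hJ
  have hJ0 : 0 ≤ J := integral_nonneg fun y => (Real.exp_pos _).le
  refine ⟨C * J + 1, by positivity, fun ι s κ i a B hi hB => ?_⟩
  have hB0 : 0 ≤ B := by simpa using (norm_nonneg _).trans (hB 0)
  have hA : ∀ j, (1 / 2 + (κ j : ℝ)) ≠ 0 := fun j => by positivity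
  have h1 : ∀ y : ℝ, ∑ j ∈ s, (a j : ℂ) / (1 / 2 + κ j + y * Complex.I) ^ (i j) =
      ∑ j ∈ s, (a j : ℂ) * u (1 / 2 + κ j) y ^ (i j) := by
    intro y
    refine Finset.sum_congr rfl fun j _ => ?_
    unfold u
    rw [div_eq_mul_inv, inv_pow]
    push_cast
    rfl
  set S : ℝ := ∑ j ∈ s, a j * ((i j + 1).choose 2 : ℝ) *
      ∑' ν : ℕ, 1 / ((ν : ℝ) + 1 + κ j) ^ (i j + 2) with hS
  have h2 : ∫ y, (∑ j ∈ s, (a j : ℂ) * u (1 / 2 + κ j) y ^ (i j)) * K y =
      ((-(2 * Real.pi) * S : ℝ) : ℂ) := by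
    simp_rw [Finset.sum_mul, mul_assoc]
    rw [integral_finsetSum _ fun j _ => (int_mul (hA j) intg_K (i j)).const_mul _]
    rw [hS, Finset.mul_sum, Complex.ofReal_sum]
    refine Finset.sum_congr rfl fun j hj => ?_
    obtain ⟨k, hk⟩ : ∃ k, i j = k + 1 := ⟨i j - 1, by have := hi j hj; omega⟩
    rw [integral_const_mul, hk, val_K]
    push_cast
    ring
  have h3 : ‖∫ y, (∑ j ∈ s, (a j : ℂ) * u (1 / 2 + κ j) y ^ (i j)) * K y‖ ≤
      ∫ y : ℝ, B * C * Real.exp (-((2 * Real.pi - 6281 / 1000) * |y|)) := by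
    refine norm_integral_le_of_norm_le ((int_exp hδ).const_mul _)
      (Eventually.of_forall fun y => ?_)
    rw [norm_mul, ← h1]
    calc _ ≤ (B * Real.exp (6281 / 1000 * |y|)) * (C * Real.exp (-(2 * Real.pi * |y|))) :=
          mul_le_mul (hB y) (hK y) (norm_nonneg _) (by positivity)
      _ = B * C * (Real.exp (6281 / 1000 * |y|) * Real.exp (-(2 * Real.pi * |y|))) := by ring
      _ = _ := by rw [← Real.exp_add]; congr 2; ring
  rw [h2, integral_const_mul, Complex.norm_real, Real.norm_eq_abs, abs_mul, abs_neg,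
    abs_of_pos (by positivity : 0 < 2 * Real.pi)] at h3
  have h4 := Real.pi_gt_three
  have h5 := abs_nonneg S
  nlinarith [mul_nonneg (mul_nonneg hB0 hC) hJ0]

end

end Pool.Agent.MP_807c24_nt.H13
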