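import Pool.Agent.MP_807c24_nt.H13.Spec

/-! Size of the rational function on the vertical line. -/

namespace Pool.Agent.MP_807c24_nt.H13

open Finset

namespace Size

lemma prod_Icc_eq {M : Type} [CommMonoid M] (f : ℤ → M) (N : ℕ) :
    ∏ k ∈ Icc (1 : ℤ) N, f k = ∏ k ∈ range N, f ((k : ℤ) + 1) := by
  induction N with
  | zero => simp
  | succ N ih =>
    rw [prod_range_succ, ← ih, Nat.cast_succ, ← Finset.insert_Icc_right_eq_Icc_add_one (by omega),
      prod_insert (by simp), mul_comm]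

lemma prod_cells {M : Type} [CommMonoid M] (f : ℕ → M) (n c : ℕ) :
    ∏ k ∈ range (c * n), f k = ∏ i ∈ range c, ∏ j ∈ range n, f (i * n + j) := by
  induction c with
  | zero => simp
  | succ c ih => rw [Nat.succ_mul, prod_range_add, ih, prod_range_succ]

lemma mult_cell (n i j : ℕ) (hj : j < n) :
    mult n (((i * n + j : ℕ) : ℤ) + 1) = mult 1 (i + 1) := by
  unfold mult
  congr 1
  refine List.map_congr_left fun a _ => ?_
  have hj' : (j : ℤ) < n := by exact_mod_cast hj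
  have h0 : (0 : ℤ) ≤ j := by positivity
  refine if_congr (and_congr ?_ ?_) rfl rfl
  · push_cast
    constructor
    · intro h
      by_contra hc
      have : (i : ℤ) + 1 ≤ a.1 := by omega
      nlinarith
    · intro h
      have : (a.1 : ℤ) ≤ i := by omega
      nlinarith
  · push_cast
    constructor
    · intro h
      by_contra hc
      have : 83 - (a.1 : ℤ) ≤ i := by omega
      nlinarith
    · intro h
      have : (i : ℤ) + 1 ≤ 83 - a.1 := by omega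
      nlinarith

lemma sum_mult : ∑ i ∈ range 83, mult 1 ((i : ℤ) + 1) = 22 := by decide +kernel

lemma mult_pos : ∀ i ∈ range 83, 0 < mult 1 ((i : ℤ) + 1) → 9 ≤ i := by decide +kernel

/-- The square of the product over one cell. -/
lemma cell_sq (w : ℂ) (n : ℕ) :
    (∏ j ∈ range n, ‖w + ((j : ℂ) + 1 / 2 - n / 2)‖) ^ 2 =
      ∏ j ∈ range n, ‖w ^ 2 - (((j : ℝ) + 1 / 2 - n / 2) ^ 2 : ℝ)‖ := by
  rw [sq]
  conv_lhs => rw [← prod_range_reflect _ n]
  conv_lhs => enter [2]; rw [prod_range_reflect (fun j => ‖w + ((j : ℂ) + 1 / 2 - n / 2)‖) n]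
  rw [← prod_mul_distrib]
  refine prod_congr rfl fun j hj => ?_
  rw [← norm_mul]
  congr 1
  have : j + 1 ≤ n := mem_range.1 hj
  rw [Nat.sub_sub, Nat.cast_sub (by omega)]
  push_cast
  ring

lemma delta_sq {n j : ℕ} (hj : j < n) : ((j : ℝ) + 1 / 2 - n / 2) ^ 2 ≤ (n : ℝ) ^ 2 / 4 := by
  have h1 : (j : ℝ) + 1 ≤ n := by exact_mod_cast hj
  have h0 : (0 : ℝ) ≤ j := by positivity
  nlinarith

lemma cell_le (w : ℂ) (n : ℕ) :
    (∏ j ∈ range n, ‖w + ((j : ℂ) + 1 / 2 - n / 2)‖) ^ 2 ≤ (‖w‖ ^ 2 + (n : ℝ) ^ 2 / 4) ^ n := by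
  rw [cell_sq]
  refine (prod_le_prod (fun _ _ => norm_nonneg _) fun j hj => ?_).trans_eq
    (by rw [prod_const, card_range])
  refine (norm_sub_le _ _).trans ?_
  rw [norm_pow, Complex.norm_real, Real.norm_of_nonneg (sq_nonneg _)]
  linarith [delta_sq (mem_range.1 hj)]

lemma le_cell (w : ℂ) (n : ℕ) (h : 0 ≤ ‖w‖ ^ 2 - (n : ℝ) ^ 2 / 4) :
    (‖w‖ ^ 2 - (n : ℝ) ^ 2 / 4) ^ n ≤ (∏ j ∈ range n, ‖w + ((j : ℂ) + 1 / 2 - n / 2)‖) ^ 2 := by
  rw [cell_sq]
  refine le_of_eq_of_le (by rw [prod_const, card_range]) (prod_le_prod (fun _ _ => h) fun j hj => ?_)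
  refine le_trans ?_ (norm_sub_norm_le _ _)
  rw [norm_pow, Complex.norm_real, Real.norm_of_nonneg (sq_nonneg _)]
  linarith [delta_sq (mem_range.1 hj)]

/-- The factor of the numerical inequality. -/
noncomputable def A (i : ℕ) (η : ℝ) : ℝ :=
  ((i : ℝ) - 15 / 2) ^ 2 + η ^ 2 + (if mult 1 (i + 1) < 0 then 1 / 4 else -1 / 4)

lemma cell_bound {n : ℕ} (hn : 1 ≤ n) (y : ℝ) {i : ℕ} (hi : i ∈ range 83) :
    ((∏ j ∈ range n, ‖(-(8 * n : ℂ) - 1 / 2 + y * Complex.I) + (((i * n + j : ℕ) : ℤ) + 1 : ℤ)‖) ^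
      (-(mult 1 (i + 1)))) ^ 2 ≤
      (((n : ℝ) ^ 2) ^ n) ^ (-(mult 1 (i + 1))) * (A i (|y| / n) ^ (-(mult 1 (i + 1)))) ^ n := by
  have hn' : (0 : ℝ) < n := by exact_mod_cast hn
  set w : ℂ := ((((i : ℝ) - 15 / 2) * n : ℝ) : ℂ) + y * Complex.I with hw
  have e1 : ∀ j : ℕ, (-(8 * n : ℂ) - 1 / 2 + y * Complex.I) + (((i * n + j : ℕ) : ℤ) + 1 : ℤ) =
      w + ((j : ℂ) + 1 / 2 - n / 2) := by
    intro j
    rw [hw]
    push_cast
    ring
  have e2 : ‖w‖ ^ 2 = (n : ℝ) ^ 2 * (((i : ℝ) - 15 / 2) ^ 2 + (|y| / n) ^ 2) := by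
    rw [hw, Complex.sq_norm, Complex.normSq_add_mul_I, div_pow, sq_abs]
    field_simp
  simp only [e1]
  set P := ∏ j ∈ range n, ‖w + ((j : ℂ) + 1 / 2 - n / 2)‖ with hP
  have e3 : ∀ (a : ℝ) (m : ℤ), (((n : ℝ) ^ 2) ^ n) ^ m * (a ^ m) ^ n = (((n : ℝ) ^ 2 * a) ^ n) ^ m := by
    intro a m
    rw [mul_pow, mul_zpow, ← zpow_natCast (a ^ m), ← zpow_mul, mul_comm m, zpow_mul, zpow_natCast]
  rw [e3, ← zpow_natCast, ← zpow_mul, mul_comm (-_), zpow_mul, zpow_natCast]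
  rcases lt_trichotomy (mult 1 (i + 1)) 0 with h | h | h
  · obtain ⟨m, hm⟩ := Int.eq_ofNat_of_zero_le (a := -(mult 1 (i + 1))) (by omega)
    rw [hm, zpow_natCast, zpow_natCast]
    refine pow_le_pow_left₀ (sq_nonneg _) ((cell_le w n).trans_eq ?_) m
    rw [e2, A, if_pos h]
    ring
  · simp [h]
  · obtain ⟨m, hm⟩ := Int.eq_ofNat_of_zero_le h.le
    have h9 : (9 : ℝ) ≤ i := by exact_mod_cast mult_pos i hi h
    have hA : 0 < A i (|y| / n) := by
      rw [A, if_neg (by omega)]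
      nlinarith [sq_nonneg (|y| / n)]
    have e4 : ‖w‖ ^ 2 - (n : ℝ) ^ 2 / 4 = (n : ℝ) ^ 2 * A i (|y| / n) := by
      rw [e2, A, if_neg (by omega)]
      ring
    rw [hm, zpow_neg, zpow_neg, zpow_natCast, zpow_natCast]
    refine inv_anti₀ (by positivity) (pow_le_pow_left₀ (by positivity) ?_ m)
    rw [← e4]
    exact le_cell w n (by rw [e4]; positivity)

lemma prod_zpow_const {a : ℝ} (ha : a ≠ 0) (s : Finset ℕ) (m : ℕ → ℤ) :
    ∏ i ∈ s, a ^ m i = a ^ ∑ i ∈ s, m i := by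
  classical
  induction s using Finset.induction_on with
  | empty => simp
  | insert i s hi ih => rw [prod_insert hi, sum_insert hi, ih, zpow_add₀ ha]

lemma prod_bound (hΦ : PhiStmt) {n : ℕ} (hn : 1 ≤ n) (y : ℝ) :
    ‖∏ k ∈ pts (hh n), ((-(8 * n : ℂ) - 1 / 2 + y * Complex.I) + k) ^ (-(mult n k))‖ ≤
      Real.exp (-(315 / 2) * n) / (n : ℝ) ^ (22 * n) * Real.exp (157 / 25 * |y|) := by
  have hn' : (0 : ℝ) < n := by exact_mod_cast hn
  have e0 : pts (hh n) = Icc (1 : ℤ) ((83 * n : ℕ) : ℤ) := by simp [pts, hh]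
  rw [e0, prod_Icc_eq, prod_cells, norm_prod]
  have e1 : ∀ i ∈ range 83, ‖∏ j ∈ range n, ((-(8 * n : ℂ) - 1 / 2 + y * Complex.I) +
      (((i * n + j : ℕ) : ℤ) + 1 : ℤ)) ^ (-(mult n (((i * n + j : ℕ) : ℤ) + 1)))‖ =
      (∏ j ∈ range n, ‖(-(8 * n : ℂ) - 1 / 2 + y * Complex.I) +
        (((i * n + j : ℕ) : ℤ) + 1 : ℤ)‖) ^ (-(mult 1 (i + 1))) := by
    intro i _
    rw [norm_prod, ← prod_zpow]
    exact prod_congr rfl fun j hj => by rw [norm_zpow, mult_cell n i j (mem_range.1 hj)]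
  rw [prod_congr rfl e1]
  refine (pow_le_pow_iff_left₀ (prod_nonneg fun _ _ => by positivity) (by positivity)
    two_ne_zero).1 ?_
  rw [← prod_pow]
  refine (prod_le_prod (fun _ _ => sq_nonneg _) fun i hi => cell_bound hn y hi).trans ?_
  rw [prod_mul_distrib, prod_pow, prod_zpow_const (by positivity), sum_neg_distrib, sum_mult]
  have h1 := hΦ (|y| / n) (by positivity)
  have h2 : 0 ≤ ∏ i ∈ range 83, A i (|y| / n) ^ (-(mult 1 (i + 1))) := by
    refine prod_nonneg fun i _ => zpow_nonneg ?_ _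
    have : (1 / 4 : ℝ) ≤ ((i : ℝ) - 15 / 2) ^ 2 := by
      rcases le_or_gt i 7 with h | h
      · have : (i : ℝ) ≤ 7 := by exact_mod_cast h
        nlinarith
      · have : (8 : ℝ) ≤ i := by exact_mod_cast h
        nlinarith
    unfold A
    split_ifs <;> nlinarith [sq_nonneg (|y| / n)]
  refine (mul_le_mul_of_nonneg_left (pow_le_pow_left₀ h2 h1 n) (by positivity)).trans_eq ?_
  have e5 : Real.exp (-315 + 314 / 25 * (|y| / n)) ^ n =
      Real.exp (-(315 / 2) * n) ^ 2 * Real.exp (157 / 25 * |y|) ^ 2 := by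
    rw [← Real.exp_nat_mul, ← Real.exp_nat_mul, ← Real.exp_nat_mul, ← Real.exp_add]
    congr 1
    field_simp
    push_cast
    ring
  have e6 : (((n : ℝ) ^ 2) ^ n) ^ (-22 : ℤ) = (((n : ℝ) ^ (22 * n)) ^ 2)⁻¹ := by
    rw [zpow_neg, show (22 : ℤ) = ((22 : ℕ) : ℤ) from rfl, zpow_natCast, ← pow_mul, ← pow_mul,
      ← pow_mul]
    congr 2
    ring
  rw [e5, e6]
  ring

lemma lin_bound {n : ℕ} (hn : 1 ≤ n) (y : ℝ) :
    ‖2 * (-(8 * n : ℂ) - 1 / 2 + y * Complex.I) + (hh n : ℤ)‖ ≤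
      2067 * n * Real.exp (1 / 1000 * |y|) := by
  have hn' : (1 : ℝ) ≤ n := by exact_mod_cast hn
  have e : 2 * (-(8 * n : ℂ) - 1 / 2 + y * Complex.I) + (hh n : ℤ) =
      ((67 * n : ℝ) : ℂ) + ((2 * y : ℝ) : ℂ) * Complex.I := by
    unfold hh
    push_cast
    ring
  rw [e]
  refine (norm_add_le _ _).trans ?_
  rw [norm_mul, Complex.norm_I, mul_one, Complex.norm_real, Complex.norm_real,
    Real.norm_of_nonneg (by positivity), Real.norm_eq_abs, abs_mul, abs_two]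
  have h1 := Real.add_one_le_exp (1 / 1000 * |y|)
  have h0 := abs_nonneg y
  nlinarith

end Size

theorem size (hΦ : PhiStmt) : SizeStmt := by
  intro n hn y
  rw [norm_mul]
  refine (mul_le_mul (Size.lin_bound hn y) (Size.prod_bound hΦ hn y) (norm_nonneg _)
    (by positivity)).trans_eq ?_
  rw [show 6281 / 1000 * |y| = 1 / 1000 * |y| + 157 / 25 * |y| by ring, Real.exp_add]
  ring

end Pool.Agent.MP_807c24_nt.H13
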