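import Pool.Agent.MP_807c24_nt.H13.Spec

/-!
Crude p-adic bound for every prime, and the prime `30 n - 1` that shows the form is not zero.
-/

namespace Pool.Agent.MP_807c24_nt.H13

open Finset

namespace Crude

section Basic

variable (p : ℕ) [hp : Fact p.Prime]

lemma pn_nonneg (x : ℚ) : 0 ≤ pn p x := norm_nonneg _

lemma pn_mul (x y : ℚ) : pn p (x * y) = pn p x * pn p y := by
  unfold pn; rw [Rat.cast_mul, norm_mul]

lemma pn_neg (x : ℚ) : pn p (-x) = pn p x := by
  unfold pn; rw [Rat.cast_neg, norm_neg]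

lemma pn_int_le (z : ℤ) : pn p (z : ℚ) ≤ 1 := by
  unfold pn; rw [Rat.cast_intCast]; exact Padic.norm_int_le_one z

lemma pn_nat_le (z : ℕ) : pn p (z : ℚ) ≤ 1 := by
  have := pn_int_le p (z : ℤ)
  rwa [Int.cast_natCast] at this

lemma pn_sum_le {ι : Type} (s : Finset ι) (f : ι → ℚ) (B : ℝ) (hB : 0 ≤ B)
    (h : ∀ i ∈ s, pn p (f i) ≤ B) : pn p (∑ i ∈ s, f i) ≤ B := by
  unfold pn at *
  rw [Rat.cast_sum]
  exact IsUltrametricDist.norm_sum_le_of_forall_le_of_nonneg hB h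

lemma pn_add_eq (x y : ℚ) (h : pn p y < pn p x) : pn p (x + y) = pn p x := by
  unfold pn at *
  rw [Rat.cast_add, IsUltrametricDist.norm_add_eq_max_of_norm_ne_norm (ne_of_gt h),
    max_eq_left h.le]

lemma pn_int (c : ℤ) (hc : c ≠ 0) : pn p (c : ℚ) = (p : ℝ) ^ (-(padicValInt p c : ℤ)) := by
  unfold pn
  rw [Rat.cast_intCast, Padic.norm_eq_zpow_neg_valuation (by exact_mod_cast hc),
    Padic.valuation_intCast]

lemma pn_unit (c : ℤ) (hc : ¬ (p : ℤ) ∣ c) : pn p (c : ℚ) = 1 := by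
  apply le_antisymm (pn_int_le p c)
  by_contra hlt
  push Not at hlt
  unfold pn at hlt
  rw [Rat.cast_intCast, Padic.norm_intCast_lt_one_iff] at hlt
  exact hc hlt

lemma pn_inv_pow (l : ℤ) (s : ℕ) : pn p (1 / (l : ℚ) ^ s) = (pn p (l : ℚ))⁻¹ ^ s := by
  unfold pn
  rw [Rat.cast_div, Rat.cast_pow, norm_div, norm_pow, Rat.cast_one, norm_one, one_div, inv_pow]

lemma pn_inv_le (l : ℤ) (hl : 1 ≤ l) : (pn p (l : ℚ))⁻¹ ≤ l := by
  rw [pn_int p l (by omega), zpow_neg, inv_inv, zpow_natCast]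
  have h1 : (p : ℤ) ^ padicValInt p l ∣ l := padicValInt_dvd l
  have h2 := Int.le_of_dvd (by omega) h1
  exact_mod_cast h2

lemma pn_Hs_le (s : ℕ) (N h : ℤ) (hN : N ≤ h) (h0 : 0 ≤ h) : pn p (Hs s N) ≤ (h : ℝ) ^ s := by
  unfold Hs
  have h0' : (0 : ℝ) ≤ h := by exact_mod_cast h0
  refine pn_sum_le p _ _ _ (by positivity) ?_
  intro l hl
  rw [Finset.mem_Icc] at hl
  rw [pn_inv_pow]
  apply pow_le_pow_left₀ (inv_nonneg.mpr (pn_nonneg p _))
  refine (pn_inv_le p l hl.1).trans ?_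
  exact_mod_cast hl.2.trans hN

lemma pn_Hs_small (s : ℕ) (N : ℤ) (hN : N < p) : pn p (Hs s N) ≤ 1 := by
  unfold Hs
  refine pn_sum_le p _ _ _ zero_le_one ?_
  intro l hl
  rw [Finset.mem_Icc] at hl
  rw [pn_inv_pow, pn_unit p l]
  · simp
  · intro hd
    have := Int.le_of_dvd (by omega) hd
    omega

lemma pn_p : pn p ((p : ℤ) : ℚ) = (p : ℝ)⁻¹ := by
  unfold pn
  rw [Rat.cast_intCast, Int.cast_natCast, Padic.norm_p]

lemma pn_Hs_p : pn p (Hs 3 p) = (p : ℝ) ^ 3 := by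
  have hp1 : 1 < p := hp.out.one_lt
  have hp1' : (1 : ℝ) < p := by exact_mod_cast hp1
  have e : Hs 3 p = 1 / (((p : ℤ) : ℚ)) ^ 3 + Hs 3 ((p : ℤ) - 1) := by
    unfold Hs
    have : Finset.Icc (1 : ℤ) p = insert (p : ℤ) (Finset.Icc (1 : ℤ) ((p : ℤ) - 1)) := by
      ext x
      simp only [Finset.mem_Icc, Finset.mem_insert]
      omega
    rw [this, Finset.sum_insert (by simp only [Finset.mem_Icc]; omega)]
  have e1 : pn p (1 / (((p : ℤ) : ℚ)) ^ 3) = (p : ℝ) ^ 3 := by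
    rw [pn_inv_pow, pn_p, inv_inv]
  rw [e, pn_add_eq, e1]
  rw [e1]
  refine lt_of_le_of_lt (pn_Hs_small p 3 _ (by omega)) ?_
  exact one_lt_pow₀ hp1' (by norm_num)

lemma val_eq (c : ℤ) (hc : c ≠ 0) (J : ℕ) (hJ : c.natAbs < p ^ (J + 1)) :
    (padicValInt p c : ℤ) = ∑ j ∈ Finset.Ico 1 (J + 1), if (p : ℤ) ^ j ∣ c then 1 else 0 := by
  have h1 := Nat.factorization_eq_card_pow_dvd_of_lt hp.out (Int.natAbs_pos.mpr hc) hJ
  rw [Nat.factorization_def _ hp.out] at h1
  unfold padicValInt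
  rw [h1, Finset.card_filter]
  push_cast
  refine Finset.sum_congr rfl fun j _ => ?_
  have : p ^ j ∣ c.natAbs ↔ (p : ℤ) ^ j ∣ c := by
    rw [← Int.natCast_dvd, Nat.cast_pow]
  simp only [this]

end Basic

/-- Number of points of a residue class in an interval. -/
noncomputable def cnt (q k a b : ℤ) : ℤ := (((Finset.Ioc a b).filter (fun x => q ∣ x - k)).card : ℤ)

lemma cnt_bounds (q k a b : ℤ) (hq : 0 < q) (hab : a ≤ b) :
    (cnt q k a b : ℚ) ≤ (b - a) / q + 1 ∧ (b - a : ℚ) / q - 1 ≤ cnt q k a b := by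
  have h1 := Int.Ioc_filter_modEq_card a b hq k
  have h2 : (Finset.Ioc a b).filter (fun x => q ∣ x - k) =
      (Finset.Ioc a b).filter (fun x => x ≡ k [ZMOD q]) := by
    refine Finset.filter_congr fun x _ => ?_
    rw [Int.modEq_iff_dvd, dvd_sub_comm]
  unfold cnt
  rw [h2, h1]
  have hq' : (0 : ℚ) < q := by exact_mod_cast hq
  have hab' : (a : ℚ) ≤ b := by exact_mod_cast hab
  have e : ((b : ℚ) - a) / q = (b - k) / q - (a - k) / q := by ring
  have hm : ⌊((a : ℚ) - k) / q⌋ ≤ ⌊((b : ℚ) - k) / q⌋ := by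
    apply Int.floor_le_floor
    gcongr
  rw [max_eq_left (by omega), e]
  push_cast
  have b1 := Int.floor_le (((b : ℚ) - k) / q)
  have b2 := Int.lt_floor_add_one (((b : ℚ) - k) / q)
  have a1 := Int.floor_le (((a : ℚ) - k) / q)
  have a2 := Int.lt_floor_add_one (((a : ℚ) - k) / q)
  constructor <;> linarith

lemma sum_ite_cnt (n : ℕ) (q k : ℤ) (α : ℕ) (e : ℤ) :
    ∑ k' ∈ (pts (hh n)).filter (fun x => q ∣ x - k),
      (if (α : ℤ) * n < k' ∧ k' ≤ (83 - (α : ℤ)) * n then e else 0) =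
      e * cnt q k (α * n) ((83 - (α : ℤ)) * n) := by
  rw [← Finset.sum_filter, Finset.sum_const, nsmul_eq_mul, mul_comm]
  unfold cnt
  congr 3
  ext x
  simp only [pts, hh, Finset.mem_filter, Finset.mem_Icc, Finset.mem_Ioc]
  have h0 : (0 : ℤ) ≤ (α : ℤ) * n := by positivity
  have h1 : (83 - (α : ℤ)) * n = 83 * n - α * n := by ring
  constructor
  · rintro ⟨⟨_, h⟩, h2⟩
    exact ⟨h2, h⟩
  · rintro ⟨h2, h⟩
    refine ⟨⟨⟨by omega, by omega⟩, h⟩, h2⟩

lemma class_sum_le (n : ℕ) (q : ℕ) (hq : 0 < q) (k : ℤ) :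
    ∑ k' ∈ (pts (hh n)).filter (fun x => (q : ℤ) ∣ x - k), mult n k' ≤
      22 * ((n / q : ℕ) : ℤ) + 36 := by
  have hq1 : (0 : ℤ) < q := by exact_mod_cast hq
  have hq' : (0 : ℚ) < q := by exact_mod_cast hq
  have key : ∀ α : ℕ, α ≤ 41 →
      (cnt q k (α * n) ((83 - (α : ℤ)) * n) : ℚ) ≤ (83 - 2 * α) * ((n : ℚ) / q) + 1 ∧
      (83 - 2 * α) * ((n : ℚ) / q) - 1 ≤ cnt q k (α * n) ((83 - (α : ℤ)) * n) := by
    intro α hα
    have hab : (α : ℤ) * n ≤ (83 - (α : ℤ)) * n := by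
      apply mul_le_mul_of_nonneg_right _ (by positivity)
      omega
    have h := cnt_bounds q k _ _ hq1 hab
    have e : ((((83 - (α : ℤ)) * n : ℤ) : ℚ) - (((α : ℤ) * n : ℤ) : ℚ)) / ((q : ℤ) : ℚ) =
        (83 - 2 * α) * ((n : ℚ) / q) := by
      push_cast; ring
    rw [e] at h
    exact h
  have hn : (n : ℚ) / q < ((n / q : ℕ) : ℚ) + 1 := by
    rw [div_lt_iff₀ hq']
    have := Nat.lt_div_mul_add (a := n) hq
    have h2 : (n : ℚ) < ((n / q * q + q : ℕ) : ℚ) := by exact_mod_cast this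
    push_cast at h2 ⊢
    linarith
  simp only [mult, jumps, List.map_cons, List.map_nil, List.sum_cons, List.sum_nil,
    Finset.sum_add_distrib, sum_ite_cnt, Finset.sum_const_zero]
  have k0 := (key 0 (by norm_num)).2
  have k3 := (key 3 (by norm_num)).2
  have k6 := (key 6 (by norm_num)).2
  have k25 := (key 25 (by norm_num)).1
  have k26 := (key 26 (by norm_num)).1
  have k27 := (key 27 (by norm_num)).1
  have k28 := (key 28 (by norm_num)).1
  have k29 := (key 29 (by norm_num)).1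
  have k30 := (key 30 (by norm_num)).1
  have k31 := (key 31 (by norm_num)).1
  have k32 := (key 32 (by norm_num)).1
  have k33 := (key 33 (by norm_num)).1
  have k34 := (key 34 (by norm_num)).1
  have k35 := (key 35 (by norm_num)).1
  generalize cnt q k (((0 : ℕ) : ℤ) * n) ((83 - ((0 : ℕ) : ℤ)) * n) = c0 at *
  generalize cnt q k (((3 : ℕ) : ℤ) * n) ((83 - ((3 : ℕ) : ℤ)) * n) = c3 at *
  generalize cnt q k (((6 : ℕ) : ℤ) * n) ((83 - ((6 : ℕ) : ℤ)) * n) = c6 at *
  generalize cnt q k (((25 : ℕ) : ℤ) * n) ((83 - ((25 : ℕ) : ℤ)) * n) = c25 at *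
  generalize cnt q k (((26 : ℕ) : ℤ) * n) ((83 - ((26 : ℕ) : ℤ)) * n) = c26 at *
  generalize cnt q k (((27 : ℕ) : ℤ) * n) ((83 - ((27 : ℕ) : ℤ)) * n) = c27 at *
  generalize cnt q k (((28 : ℕ) : ℤ) * n) ((83 - ((28 : ℕ) : ℤ)) * n) = c28 at *
  generalize cnt q k (((29 : ℕ) : ℤ) * n) ((83 - ((29 : ℕ) : ℤ)) * n) = c29 at *
  generalize cnt q k (((30 : ℕ) : ℤ) * n) ((83 - ((30 : ℕ) : ℤ)) * n) = c30 at *
  generalize cnt q k (((31 : ℕ) : ℤ) * n) ((83 - ((31 : ℕ) : ℤ)) * n) = c31 at *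
  generalize cnt q k (((32 : ℕ) : ℤ) * n) ((83 - ((32 : ℕ) : ℤ)) * n) = c32 at *
  generalize cnt q k (((33 : ℕ) : ℤ) * n) ((83 - ((33 : ℕ) : ℤ)) * n) = c33 at *
  generalize cnt q k (((34 : ℕ) : ℤ) * n) ((83 - ((34 : ℕ) : ℤ)) * n) = c34 at *
  generalize cnt q k (((35 : ℕ) : ℤ) * n) ((83 - ((35 : ℕ) : ℤ)) * n) = c35 at *
  generalize n / q = N at *
  generalize (n : ℚ) / q = x at *
  have : ((-1 * c0 + (-1 * c3 + (-1 * c6 + (1 * c25 + (1 * c26 + (1 * c27 + (1 * c28 + (1 * c29 +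
      (1 * c30 + (1 * c31 + (1 * c32 + (1 * c33 + (1 * c34 + (1 * c35 + 0))))))))))))) : ℤ) : ℚ) ≤
      ((22 * (N : ℤ) + 36 : ℤ) : ℚ) := by
    push_cast at *
    linarith
  exact_mod_cast this

/-- Indicator of one interval. -/
def ind (n : ℕ) (k : ℤ) (α : ℤ) : ℤ := if α * n < k ∧ k ≤ (83 - α) * n then 1 else 0

lemma mult_eq (n : ℕ) (k : ℤ) : mult n k = -ind n k 0 - ind n k 3 - ind n k 6 + ind n k 25 +
    ind n k 26 + ind n k 27 + ind n k 28 + ind n k 29 + ind n k 30 + ind n k 31 + ind n k 32 +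
    ind n k 33 + ind n k 34 + ind n k 35 := by
  have e : ∀ (P : Prop) [Decidable P], (if P then (-1 : ℤ) else 0) = -(if P then 1 else 0) := by
    intro P _
    split_ifs <;> simp
  simp only [mult, jumps, List.map_cons, List.map_nil, List.sum_cons, List.sum_nil, ind, e]
  push_cast
  ring

lemma ind_le_one (n : ℕ) (k α : ℤ) : ind n k α ≤ 1 := by
  unfold ind; split_ifs <;> norm_num

lemma ind_mono (n : ℕ) (k α β : ℤ) (h : α ≤ β) : ind n k β ≤ ind n k α := by
  unfold ind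
  have h1 : α * n ≤ β * n := mul_le_mul_of_nonneg_right h (by positivity)
  have h2 : (83 - β) * n ≤ (83 - α) * n :=
    mul_le_mul_of_nonneg_right (by omega) (by positivity)
  by_cases hb : β * n < k ∧ k ≤ (83 - β) * n
  · rw [if_pos hb, if_pos ⟨lt_of_le_of_lt h1 hb.1, hb.2.trans h2⟩]
  · rw [if_neg hb]
    split_ifs <;> norm_num

lemma mult_le (n : ℕ) (k : ℤ) : mult n k ≤ 8 := by
  rw [mult_eq]
  have := ind_mono n k 0 25 (by norm_num)
  have := ind_mono n k 3 26 (by norm_num)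
  have := ind_mono n k 6 27 (by norm_num)
  have := ind_le_one n k 28
  have := ind_le_one n k 29
  have := ind_le_one n k 30
  have := ind_le_one n k 31
  have := ind_le_one n k 32
  have := ind_le_one n k 33
  have := ind_le_one n k 34
  have := ind_le_one n k 35
  omega

lemma mult_pos (n : ℕ) (k : ℤ) (h : 0 < mult n k) : 28 * (n : ℤ) < k ∧ k ≤ 55 * n := by
  by_contra hc
  have h28 : ind n k 28 = 0 := by
    unfold ind
    rw [if_neg]
    norm_num
    intro h1
    by_contra h2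
    exact hc ⟨h1, by omega⟩
  rw [mult_eq] at h
  have := ind_mono n k 0 25 (by norm_num)
  have := ind_mono n k 3 26 (by norm_num)
  have := ind_mono n k 6 27 (by norm_num)
  have := ind_mono n k 28 29 (by norm_num)
  have := ind_mono n k 28 30 (by norm_num)
  have := ind_mono n k 28 31 (by norm_num)
  have := ind_mono n k 28 32 (by norm_num)
  have := ind_mono n k 28 33 (by norm_num)
  have := ind_mono n k 28 34 (by norm_num)
  have := ind_mono n k 28 35 (by norm_num)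
  omega

lemma ind_one (n : ℕ) (k α : ℤ) (h1 : α * n < k) (h2 : k ≤ (83 - α) * n) : ind n k α = 1 :=
  if_pos ⟨h1, h2⟩

lemma ind_zero_lo (n : ℕ) (k α : ℤ) (h1 : k ≤ α * n) : ind n k α = 0 :=
  if_neg fun h => absurd h.1 (not_lt.mpr h1)

lemma ind_zero_hi (n : ℕ) (k α : ℤ) (h1 : (83 - α) * n < k) : ind n k α = 0 :=
  if_neg fun h => absurd h.2 (not_le.mpr h1)

lemma mult_55 (n : ℕ) (hn : 1 ≤ n) : mult n (55 * n) = 1 := by
  rw [mult_eq, ind_one n _ 0 (by omega) (by omega), ind_one n _ 3 (by omega) (by omega),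
    ind_one n _ 6 (by omega) (by omega), ind_one n _ 25 (by omega) (by omega),
    ind_one n _ 26 (by omega) (by omega), ind_one n _ 27 (by omega) (by omega),
    ind_one n _ 28 (by omega) (by omega), ind_zero_hi n _ 29 (by omega),
    ind_zero_hi n _ 30 (by omega), ind_zero_hi n _ 31 (by omega), ind_zero_hi n _ 32 (by omega),
    ind_zero_hi n _ 33 (by omega), ind_zero_hi n _ 34 (by omega), ind_zero_hi n _ 35 (by omega)]
  norm_num

lemma mult_25 (n : ℕ) (hn : 1 ≤ n) : mult n (25 * n + 1) = -2 := by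
  rw [mult_eq, ind_one n _ 0 (by omega) (by omega), ind_one n _ 3 (by omega) (by omega),
    ind_one n _ 6 (by omega) (by omega), ind_one n _ 25 (by omega) (by omega),
    ind_zero_lo n _ 26 (by omega), ind_zero_lo n _ 27 (by omega),
    ind_zero_lo n _ 28 (by omega), ind_zero_lo n _ 29 (by omega),
    ind_zero_lo n _ 30 (by omega), ind_zero_lo n _ 31 (by omega), ind_zero_lo n _ 32 (by omega),
    ind_zero_lo n _ 33 (by omega), ind_zero_lo n _ 34 (by omega), ind_zero_lo n _ 35 (by omega)]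
  norm_num

lemma prod_zpow {a : ℝ} (ha : a ≠ 0) (s : Finset ℤ) (f : ℤ → ℤ) :
    ∏ i ∈ s, a ^ f i = a ^ ∑ i ∈ s, f i := by
  induction s using Finset.induction_on with
  | empty => simp
  | insert x s hx ih => rw [Finset.prod_insert hx, Finset.sum_insert hx, ih, zpow_add₀ ha]

section Main

variable (p : ℕ) [hp : Fact p.Prime]

lemma prod_le (n : ℕ) (hn : 1 ≤ n) (k : ℤ) (hk : k ∈ pts (hh n)) (hm : 0 ≤ mult n k) :
    ∏ k' ∈ (pts (hh n)).erase k, pn p ((k' - k : ℤ) : ℚ) ^ (-(mult n k')) ≤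
      (p : ℝ) ^ (22 * padicValNat p n.factorial) * (83 * n + 1 : ℝ) ^ 36 := by
  have hp1 : 1 < p := hp.out.one_lt
  have hp1' : (1 : ℝ) < p := by exact_mod_cast hp1
  have hp0 : (p : ℝ) ≠ 0 := by positivity
  set J := Nat.log p (83 * n + 1) with hJ
  have hJ1 : 83 * n + 1 < p ^ (J + 1) := Nat.lt_pow_succ_log_self hp1 _
  have hJ2 : p ^ J ≤ 83 * n + 1 := Nat.pow_log_le_self p (by omega)
  have hk' := hk
  simp only [pts, hh, Finset.mem_Icc] at hk'
  have e1 : ∏ k' ∈ (pts (hh n)).erase k, pn p ((k' - k : ℤ) : ℚ) ^ (-(mult n k')) =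
      (p : ℝ) ^ (∑ k' ∈ (pts (hh n)).erase k, mult n k' * (padicValInt p (k' - k) : ℤ)) := by
    rw [← prod_zpow hp0]
    refine Finset.prod_congr rfl fun k' hk2 => ?_
    rw [pn_int p _ (sub_ne_zero.mpr (Finset.ne_of_mem_erase hk2)), ← zpow_mul]
    congr 1
    ring
  have e2 : ∑ k' ∈ (pts (hh n)).erase k, mult n k' * (padicValInt p (k' - k) : ℤ) =
      ∑ j ∈ Finset.Ico 1 (J + 1), ∑ k' ∈ (pts (hh n)).erase k,
        if (p : ℤ) ^ j ∣ k' - k then mult n k' else 0 := by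
    rw [Finset.sum_comm]
    refine Finset.sum_congr rfl fun k' hk2 => ?_
    have h1 := Finset.ne_of_mem_erase hk2
    have h2 := Finset.mem_of_mem_erase hk2
    simp only [pts, hh, Finset.mem_Icc] at h2
    rw [val_eq p _ (sub_ne_zero.mpr h1) J (by omega), Finset.mul_sum]
    refine Finset.sum_congr rfl fun j _ => ?_
    split_ifs <;> simp
  have e3 : ∀ j : ℕ, (∑ k' ∈ (pts (hh n)).erase k,
      if (p : ℤ) ^ j ∣ k' - k then mult n k' else 0) ≤ 22 * ((n / p ^ j : ℕ) : ℤ) + 36 := by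
    intro j
    have h1 := class_sum_le n (p ^ j) (by positivity) k
    rw [Finset.sum_filter, ← Finset.add_sum_erase _ _ hk] at h1
    push_cast at h1 ⊢
    simp only [sub_self, dvd_zero, if_true] at h1
    linarith
  have e4 : padicValNat p n.factorial = ∑ j ∈ Finset.Ico 1 (J + 1), n / p ^ j := by
    apply padicValNat_factorial
    have : Nat.log p n ≤ J := Nat.log_mono_right (by omega)
    omega
  have e5 : ∑ k' ∈ (pts (hh n)).erase k, mult n k' * (padicValInt p (k' - k) : ℤ) ≤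
      ((22 * padicValNat p n.factorial + J * 36 : ℕ) : ℤ) := by
    rw [e2]
    refine (Finset.sum_le_sum fun j _ => e3 j).trans (le_of_eq ?_)
    rw [e4, Finset.sum_add_distrib, ← Finset.mul_sum, Finset.sum_const, Nat.card_Ico]
    simp only [Nat.cast_add, Nat.cast_mul, Nat.cast_sum, Nat.add_sub_cancel, nsmul_eq_mul,
      Nat.cast_ofNat]
  rw [e1]
  refine (zpow_le_zpow_right₀ hp1'.le e5).trans ?_
  rw [zpow_natCast, pow_add, pow_mul (p : ℝ) J]
  gcongr
  exact_mod_cast hJ2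

lemma cf_le (hC : CoefStmt) (n : ℕ) (hn : 1 ≤ n) (k : ℤ) (hk : k ∈ pts (hh n)) (i : ℕ)
    (hi : i ∈ ords (mult n) k) :
    pn p (cf (mult n) (hh n) k i) ≤
      (p : ℝ) ^ (22 * padicValNat p n.factorial) * (83 * n + 1 : ℝ) ^ (44 - i) := by
  have h1 := (hC p (mult n) (hh n) k hk i hi).1
  simp only [ords, Finset.mem_Icc] at hi
  have h8 := mult_le n k
  have h2 := prod_le p n hn k hk (by omega)
  have eh : ((hh n : ℤ) : ℝ) = 83 * n + 1 := by unfold hh; push_cast; ring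
  have h0 : (1 : ℝ) ≤ 83 * n + 1 := by
    have : (0 : ℝ) ≤ n := by positivity
    linarith
  rw [eh] at h1
  refine h1.trans ?_
  calc _ ≤ ((p : ℝ) ^ (22 * padicValNat p n.factorial) * (83 * n + 1 : ℝ) ^ 36) *
        (83 * n + 1 : ℝ) ^ (8 - i) := by
        apply mul_le_mul h2 (pow_le_pow_right₀ h0 (by omega)) (by positivity) (by positivity)
    _ = _ := by
        rw [mul_assoc, ← pow_add]
        congr 2
        omega

lemma ai_le (n i : ℕ) (hi : 1 ≤ i) (B : ℝ) (hB : 0 ≤ B)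
    (h : ∀ k ∈ pts (hh n), i ∈ ords (mult n) k → pn p (cf (mult n) (hh n) k i) ≤ B) :
    pn p (ai n i) ≤ B := by
  unfold ai
  refine pn_sum_le p _ _ _ hB fun k hk => ?_
  rw [Finset.mem_filter] at hk
  rw [pn_mul]
  have h1 := h k hk.1 (by simp only [ords, Finset.mem_Icc]; omega)
  calc _ ≤ B * 1 := mul_le_mul h1 (pn_nat_le p _) (pn_nonneg p _) hB
    _ = B := mul_one _

lemma cf_le_one (hC : CoefStmt) (n : ℕ) (hpn : p + 1 = 30 * n) (k : ℤ) (hk : k ∈ pts (hh n))
    (i : ℕ) (hi : i ∈ ords (mult n) k) : pn p (cf (mult n) (hh n) k i) ≤ 1 := by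
  apply (hC p (mult n) (hh n) k hk i hi).2.2.1
  intro k' hk' hne
  by_contra hpos
  simp only [ords, Finset.mem_Icc] at hi
  have h1 := mult_pos n k (by omega)
  have h2 := mult_pos n k' (by omega)
  simp only [cls, Finset.mem_filter] at hk'
  have h3 := Int.le_of_dvd (abs_pos.mpr (sub_ne_zero.mpr hne)) ((dvd_abs _ _).mpr hk'.2)
  have h4 : |k' - k| < 27 * n := abs_lt.mpr ⟨by omega, by omega⟩
  omega

lemma cf_top (hC : CoefStmt) (n : ℕ) (hpn : p + 1 = 30 * n) :
    pn p (cf (mult n) (hh n) (55 * n) 1) = ((p : ℝ) ^ 2)⁻¹ := by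
  have hn : 1 ≤ n := by omega
  have hk : (55 * n : ℤ) ∈ pts (hh n) := by
    simp only [pts, hh, Finset.mem_Icc]; omega
  have hi : 1 ∈ ords (mult n) (55 * n) := by
    simp only [ords, mult_55 n hn, Finset.mem_Icc]; simp
  rw [(hC p (mult n) (hh n) _ hk 1 hi).2.2.2 (by rw [mult_55 n hn]; rfl)]
  have u : pn p ((hh n - 2 * (55 * n) : ℤ) : ℚ) = 1 := by
    apply pn_unit
    intro hd
    have e : (hh n - 2 * (55 * n) : ℤ) = -(27 * n - 1) := by unfold hh; ring
    rw [e, dvd_neg] at hd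
    have := Int.le_of_dvd (by omega) hd
    omega
  rw [u, one_mul, Finset.prod_eq_single (25 * n + 1 : ℤ)]
  · have e : ((25 * n + 1 - 55 * n : ℤ) : ℚ) = -((p : ℤ) : ℚ) := by
      have : (25 * n + 1 - 55 * n : ℤ) = -(p : ℤ) := by omega
      rw [this, Int.cast_neg]
    rw [e, pn_neg, pn_p, mult_25 n hn, neg_neg, zpow_ofNat, inv_pow]
  · intro k' hk' hne
    rw [pn_unit, one_zpow]
    rintro ⟨c, hc⟩
    have h1 := Finset.ne_of_mem_erase hk'
    have h2 := Finset.mem_of_mem_erase hk'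
    simp only [pts, hh, Finset.mem_Icc] at h2
    have hp' : (p : ℤ) = 30 * n - 1 := by omega
    have hp0 : (0 : ℤ) < p := by omega
    rcases lt_trichotomy c 0 with h | h | h
    · rcases eq_or_lt_of_le (show c ≤ -1 by omega) with h' | h'
      · subst h'
        omega
      · have : (p : ℤ) * c ≤ p * (-2) := mul_le_mul_of_nonneg_left (by omega) hp0.le
        omega
    · subst h
      omega
    · have : (p : ℤ) * 1 ≤ p * c := mul_le_mul_of_nonneg_left (by omega) hp0.le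
      omega
  · intro h
    exfalso
    apply h
    simp only [pts, hh, Finset.mem_erase, Finset.mem_Icc]
    omega

end Main

end Crude

open Crude

theorem crude : CoefStmt → CrudeStmt := by
  intro hC p hp n hn x hx
  have h0 : (1 : ℝ) ≤ 83 * n + 1 := by
    have : (0 : ℝ) ≤ n := by positivity
    linarith
  have hai : ∀ i : ℕ, 1 ≤ i → pn p (ai n i) ≤
      (p : ℝ) ^ (22 * padicValNat p n.factorial) * (83 * n + 1 : ℝ) ^ 46 := by
    intro i hi
    refine ai_le p n i hi _ (by positivity) fun k hk hik => ?_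
    refine (cf_le p hC n hn k hk i hik).trans ?_
    exact mul_le_mul_of_nonneg_left (pow_le_pow_right₀ h0 (by omega)) (by positivity)
  simp only [List.mem_cons, List.not_mem_nil, or_false] at hx
  rcases hx with rfl | rfl | rfl | rfl
  · unfold a0
    rw [pn_neg]
    refine pn_sum_le p _ _ _ (by positivity) fun k hk => ?_
    refine pn_sum_le p _ _ _ (by positivity) fun i hi => ?_
    have h1 := cf_le p hC n hn k hk i hi
    have hk' := hk
    simp only [pts, hh, Finset.mem_Icc] at hk'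
    have h2 := pn_Hs_le p (i + 2) (k - 25 * n - 1) (83 * n + 1) (by omega) (by omega)
    push_cast at h2
    simp only [ords, Finset.mem_Icc] at hi
    have h8 := mult_le n k
    rw [pn_mul, pn_mul]
    calc _ ≤ ((p : ℝ) ^ (22 * padicValNat p n.factorial) * (83 * n + 1 : ℝ) ^ (44 - i) * 1) *
          (83 * n + 1 : ℝ) ^ (i + 2) := by
          apply mul_le_mul _ h2 (pn_nonneg p _) (by positivity)
          exact mul_le_mul h1 (pn_nat_le p _) (pn_nonneg p _) (by positivity)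
      _ = _ := by
          rw [mul_one, mul_assoc, ← pow_add]
          congr 2
          omega
  · exact hai 3 (by norm_num)
  · exact hai 5 (by norm_num)
  · exact hai 7 (by norm_num)

theorem nonzero : CoefStmt → NonzeroStmt := by
  intro hC p hp n hpn
  have hn : 1 ≤ n := by omega
  have hp1 : (1 : ℝ) < p := by exact_mod_cast hp.out.one_lt
  refine ⟨?_, ?_⟩
  · have hk : (55 * n : ℤ) ∈ pts (hh n) := by
      simp only [pts, hh, Finset.mem_Icc]; omega
    have ho : ords (mult n) (55 * n) = {1} := by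
      unfold ords
      rw [mult_55 n hn]
      rfl
    unfold a0
    rw [pn_neg, ← Finset.add_sum_erase _ _ hk, ho, Finset.sum_singleton]
    have e : (55 * n - 25 * n - 1 : ℤ) = p := by omega
    have top : pn p (cf (mult n) (hh n) (55 * n) 1 * ((Nat.choose (1 + 1) 2 : ℕ) : ℚ) *
        Hs (1 + 2) (55 * n - 25 * n - 1)) = p := by
      have e2 : ((Nat.choose (1 + 1) 2 : ℕ) : ℚ) = 1 := by norm_num
      rw [e, pn_mul, e2, mul_one, cf_top p hC n hpn, pn_Hs_p]
      field_simp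
    rw [pn_add_eq, top]
    rw [top]
    refine lt_of_le_of_lt ?_ hp1
    refine pn_sum_le p _ _ _ zero_le_one fun k hk2 => ?_
    refine pn_sum_le p _ _ _ zero_le_one fun i hi => ?_
    have h1 := Finset.ne_of_mem_erase hk2
    have h2 := Finset.mem_of_mem_erase hk2
    have h3 := cf_le_one p hC n hpn k h2 i hi
    simp only [ords, Finset.mem_Icc] at hi
    have h4 := mult_pos n k (by omega)
    have h5 := pn_Hs_small p (i + 2) (k - 25 * n - 1) (by omega)
    rw [pn_mul, pn_mul]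
    exact mul_le_one₀ (mul_le_one₀ h3 (pn_nonneg p _) (pn_nat_le p _)) (pn_nonneg p _) h5
  · intro x hx
    have hai : ∀ i : ℕ, 1 ≤ i → pn p (ai n i) ≤ 1 := fun i hi =>
      ai_le p n i hi 1 zero_le_one fun k hk hik => cf_le_one p hC n hpn k hk i hik
    simp only [List.mem_cons, List.not_mem_nil, or_false] at hx
    rcases hx with rfl | rfl | rfl
    · exact hai 3 (by norm_num)
    · exact hai 5 (by norm_num)
    · exact hai 7 (by norm_num)

end Pool.Agent.MP_807c24_nt.H13
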