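import Mathlib.Data.Nat.Basic

namespace Pool.Agent.MP_807c24_nt.H13.Far

def Mp (f : ℕ → ℕ) : ℕ :=
  f 0 + f 3 + f 6 + f 58 + f 57 + f 56 + f 55 + f 54 + f 53 + f 52 + f 51 + f 50 + f 49 + f 48

def Mm (f : ℕ → ℕ) : ℕ :=
  f 83 + f 80 + f 77 + f 25 + f 26 + f 27 + f 28 + f 29 + f 30 + f 31 + f 32 + f 33 + f 34 + f 35

def sy (f : ℕ → ℕ) : Bool :=
  Nat.beq (f 3 + f 80) (f 0 + f 83) && Nat.beq (f 6 + f 77) (f 0 + f 83) &&
  Nat.beq (f 25 + f 58) (f 0 + f 83) && Nat.beq (f 26 + f 57) (f 0 + f 83) &&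
  Nat.beq (f 27 + f 56) (f 0 + f 83) && Nat.beq (f 28 + f 55) (f 0 + f 83) &&
  Nat.beq (f 29 + f 54) (f 0 + f 83) && Nat.beq (f 30 + f 53) (f 0 + f 83) &&
  Nat.beq (f 31 + f 52) (f 0 + f 83) && Nat.beq (f 32 + f 51) (f 0 + f 83) &&
  Nat.beq (f 33 + f 50) (f 0 + f 83) && Nat.beq (f 34 + f 49) (f 0 + f 83) &&
  Nat.beq (f 35 + f 48) (f 0 + f 83)

def r1 (f : ℕ → ℕ) : ℕ :=
  cond (Nat.beq ((Mp f + Mm f) % 2) 0 && sy f) (Mp f + 1 - Mm f) (Mp f + 2 - Mm f)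

def r0 (f : ℕ → ℕ) : ℕ :=
  cond (Nat.ble (f 58) (f 25 + 1) || Nat.ble (f 55) (f 28)) 0 (r1 f)

def nbN (r p c : ℕ) (β : ℕ) : ℕ := (β * r + p - c) / p

def thr : List ℕ :=
  [0, 3, 6, 25, 26, 27, 28, 29, 30, 31, 32, 33, 34, 35, 48, 49, 50, 51, 52, 53, 54, 55, 56, 57, 58,
    77, 80, 83]

def mx (a b : ℕ) : ℕ := cond (Nat.ble a b) b a

def emax (g : (ℕ → ℕ) → ℕ) (r p : ℕ) : ℕ :=
  thr.foldr (fun γ acc => mx (g (nbN r p (γ * r % p + 1))) acc) (g (nbN r p 0))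

def SS : ℕ := 1000000000

def wt (u v u' v' : ℕ) : ℕ :=
  emax r0 (u + u') (v + v') * (SS / (u * u') + 1) +
  emax r1 (u + u') (v + v') * (SS / ((v + u) * (v' + u')) + SS / ((2 * v + u) * (2 * v' + u')) +
    SS / ((3 * v + u) * (3 * v' + u')) + 2 * SS / (v' * (7 * v + 2 * u)) + 4)

def ok (u v u' v' : ℕ) : Bool :=
  Nat.beq (u' * v) (u * v' + 1) && Nat.ble 84 (v + v') && Nat.ble u' v' &&
    (Nat.ble 1 u || Nat.beq (emax r0 (u + u') (v + v')) 0)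

/-- `run fuel u v u' v' eu ev budget`: walk through the Farey intervals from `u/v` to `eu/ev`. -/
def run : ℕ → ℕ → ℕ → ℕ → ℕ → ℕ → ℕ → ℕ → Bool
  | 0, _, _, _, _, _, _, _ => false
  | f + 1, u, v, u', v', eu, ev, b =>
    ok u v u' v' && Nat.ble (wt u v u' v') b &&
      cond (Nat.beq u' eu && Nat.beq v' ev) true
        (run f u' v' ((83 + v) / v' * u' - u) ((83 + v) / v' * v' - v) eu ev (b - wt u v u' v'))

end Pool.Agent.MP_807c24_nt.H13.Far
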