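import Pool.Agent.MP_807c24_nt.H13.Spec
import Pool.Agent.MP_807c24_nt.H13.Chk

namespace Pool.Agent.MP_807c24_nt.H13.Far

open Finset Filter Topology

theorem nofrac {u v u' v' r p d Q : ℤ} (hdet : u' * v = u * v' + 1) (hs : 84 ≤ v + v')
    (hv : 0 < v) (hv' : 0 < v') (h1 : u * p ≤ r * v) (h2 : r * v' < u' * p)
    (hd1 : -83 ≤ d) (hd2 : d ≤ 83) (h : d * (u + u') ≤ Q * (v + v')) :
    0 ≤ Q * v - d * u ∧ 0 ≤ Q * v' - d * u' ∧ d * r ≤ Q * p := by
  have hd : d = (Q * v - d * u) * v' - (Q * v' - d * u') * v := by linear_combination (-d) * hdet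
  have hA : 0 ≤ Q * v - d * u := by
    by_contra hA
    have hA' : Q * v - d * u ≤ -1 := by omega
    have hB : 1 ≤ Q * v' - d * u' := by nlinarith
    nlinarith
  have hB : 0 ≤ Q * v' - d * u' := by
    by_contra hB
    have hB' : Q * v' - d * u' ≤ -1 := by omega
    have hA : 1 ≤ Q * v - d * u := by nlinarith
    nlinarith
  refine ⟨hA, hB, ?_⟩
  have key : Q * p - d * r =
      (u' * p - r * v') * (Q * v - d * u) + (r * v - u * p) * (Q * v' - d * u') := by
    linear_combination (-(Q * p - d * r)) * hdet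
  have := mul_nonneg (by omega : 0 ≤ u' * p - r * v') hA
  have := mul_nonneg (by omega : 0 ≤ r * v - u * p) hB
  omega

theorem nofrac_lt {u v u' v' r p d Q : ℤ} (hdet : u' * v = u * v' + 1) (hs : 84 ≤ v + v')
    (hv : 0 < v) (hv' : 0 < v') (h1 : u * p ≤ r * v) (h2 : r * v' < u' * p)
    (hd1 : 0 ≤ d) (hd2 : d ≤ 83) (h : d * (u + u') < Q * (v + v')) : d * r < Q * p := by
  obtain ⟨hA, hB, -⟩ := nofrac hdet hs hv hv' h1 h2 (by omega) hd2 h.le
  have hd : d = (Q * v - d * u) * v' - (Q * v' - d * u') * v := by linear_combination (-d) * hdet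
  have hA' : 0 < Q * v - d * u := by
    rcases hA.lt_or_eq with h0 | h0
    · exact h0
    · exfalso
      have hB' : 0 < Q * v' - d * u' := by nlinarith
      rw [← h0] at hd
      nlinarith
  have key : Q * p - d * r =
      (u' * p - r * v') * (Q * v - d * u) + (r * v - u * p) * (Q * v' - d * u') := by
    linear_combination (-(Q * p - d * r)) * hdet
  have := mul_pos (by omega : 0 < u' * p - r * v') hA'
  have := mul_nonneg (by omega : 0 ≤ r * v - u * p) hB
  omega

theorem sub_div (a p c : ℤ) (hp : 0 < p) (hc0 : 0 ≤ c) (hc : c ≤ p) :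
    (a - c) / p = a / p - if a % p < c then 1 else 0 := by
  have h1 := Int.emod_add_mul_ediv a p
  have h2 := Int.emod_nonneg a hp.ne'
  have h3 := Int.emod_lt_of_pos a hp
  split_ifs with h
  · rw [Int.ediv_eq_iff_of_pos hp]
    constructor <;> nlinarith
  · rw [Int.ediv_eq_iff_of_pos hp]
    constructor <;> nlinarith

theorem thr_le : ∀ β ∈ thr, β ≤ 83 := by decide

theorem nbN_cast (r p c β : ℕ) (hp : 0 < p) (hc : c ≤ p) :
    (nbN r p c β : ℤ) = ((β : ℤ) * r - c) / p + 1 := by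
  unfold nbN
  have : c ≤ β * r + p := by omega
  push_cast [Nat.cast_sub this]
  rw [show (β : ℤ) * r + p - c = ((β : ℤ) * r - c) + 1 * p by ring,
    Int.add_mul_ediv_right _ _ (by exact_mod_cast hp.ne')]

theorem transfer {u v u' v' r p c : ℕ} (hdet : u' * v = u * v' + 1) (hs : 84 ≤ v + v')
    (hv' : 0 < v') (hp : 0 < p) (h1 : u * p ≤ r * v) (h2 : r * v' < u' * p) (hc : c ≤ p) :
    ∃ c' : ℕ, (c' = 0 ∨ ∃ γ ∈ thr, c' = γ * (u + u') % (v + v') + 1) ∧
      ∀ β ∈ thr, ((β : ℤ) * r - c) / p + 1 = nbN (u + u') (v + v') c' β := by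
  have hv : 0 < v := by
    rcases Nat.eq_zero_or_pos v with h | h
    · subst h; simp at hdet
    · exact h
  have zdet : (u' : ℤ) * v = u * v' + 1 := by exact_mod_cast hdet
  have zs : (84 : ℤ) ≤ v + v' := by exact_mod_cast hs
  have zv : (0 : ℤ) < v := by exact_mod_cast hv
  have zv' : (0 : ℤ) < v' := by exact_mod_cast hv'
  have zp : (0 : ℤ) < p := by exact_mod_cast hp
  have z1 : (u : ℤ) * p ≤ r * v := by exact_mod_cast h1
  have z2 : (r : ℤ) * v' < u' * p := by exact_mod_cast h2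
  set R : ℤ := (u : ℤ) + u' with hR
  set P : ℤ := (v : ℤ) + v' with hP
  have zP : 0 < P := by omega
  have hq : ∀ β ∈ thr, (β : ℤ) * r / p = (β : ℤ) * R / P := by
    intro β hβ
    have hβ' : (β : ℤ) ≤ 83 := by exact_mod_cast thr_le β hβ
    have hβ0 : (0 : ℤ) ≤ β := by positivity
    have e1 := Int.emod_add_mul_ediv ((β : ℤ) * R) P
    have e2 := Int.emod_nonneg ((β : ℤ) * R) zP.ne'
    have e3 := Int.emod_lt_of_pos ((β : ℤ) * R) zP
    rw [Int.ediv_eq_iff_of_pos zp]
    constructor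
    · have := (nofrac (d := -(β : ℤ)) (Q := -((β : ℤ) * R / P)) zdet zs zv zv' z1 z2 (by omega)
        (by omega) (by nlinarith)).2.2
      nlinarith
    · have := nofrac_lt (d := (β : ℤ)) (Q := (β : ℤ) * R / P + 1) zdet zs zv zv' z1 z2 hβ0 hβ'
        (by nlinarith)
      nlinarith
  have hord : ∀ β ∈ thr, ∀ γ ∈ thr, (β : ℤ) * R % P ≤ (γ : ℤ) * R % P →
      (β : ℤ) * r % p ≤ (γ : ℤ) * r % p := by
    intro β hβ γ hγ h
    have hβ' : (β : ℤ) ≤ 83 := by exact_mod_cast thr_le β hβ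
    have hγ' : (γ : ℤ) ≤ 83 := by exact_mod_cast thr_le γ hγ
    have hβ0 : (0 : ℤ) ≤ β := by positivity
    have hγ0 : (0 : ℤ) ≤ γ := by positivity
    have e1 := Int.emod_add_mul_ediv ((β : ℤ) * R) P
    have e2 := Int.emod_add_mul_ediv ((γ : ℤ) * R) P
    have e3 := Int.emod_add_mul_ediv ((β : ℤ) * r) p
    have e4 := Int.emod_add_mul_ediv ((γ : ℤ) * r) p
    rw [hq β hβ] at e3
    rw [hq γ hγ] at e4
    have := (nofrac (d := (β : ℤ) - γ) (Q := (β : ℤ) * R / P - (γ : ℤ) * R / P) zdet zs zv zv' z1 z2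
      (by omega) (by omega) (by nlinarith)).2.2
    nlinarith
  have hPn : 0 < v + v' := by omega
  have fin : ∀ c' : ℕ, c' ≤ v + v' →
      (∀ β ∈ thr, (β : ℤ) * r % p < c ↔ (β : ℤ) * R % P < c') →
      ∀ β ∈ thr, ((β : ℤ) * r - c) / p + 1 = nbN (u + u') (v + v') c' β := by
    intro c' hc' hiff β hβ
    rw [nbN_cast _ _ _ _ hPn hc']
    push_cast
    rw [← hR, ← hP, sub_div _ _ _ zp (by positivity) (by exact_mod_cast hc),
      sub_div _ _ _ zP (by positivity) (by rw [hP]; exact_mod_cast hc'), hq β hβ]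
    simp only [hiff β hβ]
  by_cases hS : ∃ γ ∈ thr, (γ : ℤ) * r % p < c
  · obtain ⟨γ, hγ, hmax⟩ := Finset.exists_max_image
      (thr.toFinset.filter fun γ : ℕ => (γ : ℤ) * r % p < c) (fun γ : ℕ => (γ : ℤ) * R % P)
      (by obtain ⟨γ, h1, h2⟩ := hS; exact ⟨γ, by simp [h1, h2]⟩)
    simp only [Finset.mem_filter, List.mem_toFinset] at hγ hmax
    refine ⟨γ * (u + u') % (v + v') + 1, Or.inr ⟨γ, hγ.1, rfl⟩, fin _ (Nat.mod_lt _ hPn) ?_⟩
    intro β hβ
    push_cast
    rw [← hR, ← hP]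
    constructor
    · intro h
      have := hmax β ⟨hβ, h⟩
      omega
    · intro h
      have := hord β hβ γ hγ.1 (by omega)
      omega
  · refine ⟨0, Or.inl rfl, fin 0 (Nat.zero_le _) ?_⟩
    intro β hβ
    have := Int.emod_nonneg ((β : ℤ) * R) zP.ne'
    constructor
    · intro h; exact absurd ⟨β, hβ, h⟩ hS
    · intro h; simp at h; omega

theorem le_mx_left (a b : ℕ) : a ≤ mx a b := by
  unfold mx; cases h : Nat.ble a b
  · simp
  · simpa using Nat.le_of_ble_eq_true h

theorem le_mx_right (a b : ℕ) : b ≤ mx a b := by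
  unfold mx; cases h : Nat.ble a b
  · have : ¬ a ≤ b := fun hh => by simp [Nat.ble_eq_true_of_le hh] at h
    simp; omega
  · simp

theorem le_foldr (G : ℕ → ℕ) (g0 : ℕ) (l : List ℕ) :
    g0 ≤ l.foldr (fun γ acc => mx (G γ) acc) g0 ∧
      ∀ γ ∈ l, G γ ≤ l.foldr (fun γ acc => mx (G γ) acc) g0 := by
  induction l with
  | nil => simp
  | cons a l ih =>
    simp only [List.foldr_cons, List.mem_cons]
    refine ⟨ih.1.trans (le_mx_right _ _), ?_⟩
    rintro γ (rfl | h)
    · exact le_mx_left _ _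
    · exact (ih.2 γ h).trans (le_mx_right _ _)

theorem le_emax (g : (ℕ → ℕ) → ℕ) (r p c' : ℕ)
    (h : c' = 0 ∨ ∃ γ ∈ thr, c' = γ * r % p + 1) : g (nbN r p c') ≤ emax g r p := by
  have := le_foldr (fun γ => g (nbN r p (γ * r % p + 1))) (g (nbN r p 0)) thr
  rcases h with rfl | ⟨γ, hγ, rfl⟩
  · exact this.1
  · exact this.2 γ hγ

theorem rule_le (nb : ℕ → ℤ) (f : ℕ → ℕ) (N : ℕ) (h : ∀ β ∈ thr, nb β = β * N + f β - 1) :
    (rule0 nb - 22 * (N : ℤ)).toNat ≤ if N = 0 then r0 f else r1 f := by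
  simp only [thr, List.mem_cons, List.not_mem_nil, or_false, forall_eq_or_imp, forall_eq] at h
  obtain ⟨a0, a3, a6, a25, a26, a27, a28, a29, a30, a31, a32, a33, a34, a35, a48, a49, a50, a51,
    a52, a53, a54, a55, a56, a57, a58, a77, a80, a83⟩ := h
  have hM : Mof nb = 22 * N + Mp f - Mm f := by
    simp only [Mof, jumps, List.map_cons, List.map_nil, List.sum_cons, List.sum_nil, Mp, Mm]
    norm_num
    push_cast at *
    omega
  have hS : symB nb = sy f := by
    rw [Bool.eq_iff_iff]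
    simp only [symB, jumps, List.all_cons, List.all_nil, sy, Bool.and_eq_true, beq_iff_eq,
      Nat.beq_eq, Bool.and_true]
    norm_num
    push_cast at *
    omega
  have h1 : (rule1 nb - 22 * (N : ℤ)).toNat ≤ r1 f := by
    unfold rule1 r1
    rw [hS, hM]
    by_cases hs : sy f = true
    · by_cases he : (Mp f + Mm f) % 2 = 0
      · rw [if_pos ⟨hs, by omega⟩]
        simp [hs, he]; omega
      · rw [if_neg (by omega)]
        have : Nat.beq ((Mp f + Mm f) % 2) 0 = false := by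
          rw [Bool.eq_false_iff]; simpa using he
        simp [this]; omega
    · rw [if_neg (fun h => hs h.1)]
      simp [hs]; omega
  unfold rule0
  by_cases hN : N = 0
  · subst hN
    simp only [if_true, r0]
    push_cast at *
    by_cases hc : nb 58 - nb 25 ≤ 1 ∨ nb 55 - nb 28 ≤ 0
    · rw [if_pos hc]; simp
    · rw [if_neg hc]
      have e1 : Nat.ble (f 58) (f 25 + 1) = false := by
        rw [Bool.eq_false_iff]; simp; omega
      have e2 : Nat.ble (f 55) (f 28) = false := by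
        rw [Bool.eq_false_iff]; simp; omega
      simpa [e1, e2] using h1
  · rw [if_neg hN]
    split_ifs
    · omega
    · exact h1

theorem ex_le {u v u' v' n p : ℕ} (hdet : u' * v = u * v' + 1) (hs : 84 ≤ v + v')
    (hv' : 0 < v') (hp : 0 < p) (h1 : (u : ℝ) / v ≤ Int.fract ((n : ℝ) / p))
    (h2 : Int.fract ((n : ℝ) / p) < (u' : ℝ) / v') :
    ex n p ≤ if n < p then emax r0 (u + u') (v + v') else emax r1 (u + u') (v + v') := by
  have hv : 0 < v := by
    rcases Nat.eq_zero_or_pos v with h | h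
    · subst h; simp at hdet
    · exact h
  rw [Int.fract_div_natCast_eq_div_natCast_mod] at h1 h2
  rw [div_le_div_iff₀ (by exact_mod_cast hv) (by exact_mod_cast hp)] at h1
  rw [div_lt_div_iff₀ (by exact_mod_cast hp) (by exact_mod_cast hv')] at h2
  have g1 : u * p ≤ n % p * v := by exact_mod_cast h1
  have g2 : n % p * v' < u' * p := by exact_mod_cast h2
  unfold ex
  refine Finset.sup_le fun c hc => ?_
  obtain ⟨c', hc', hall⟩ := transfer hdet hs hv' hp g1 g2 (Finset.mem_range.1 hc).le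
  have := rule_le (nbf n p c) (nbN (u + u') (v + v') c') (n / p) (by
    intro β hβ
    rw [← hall β hβ]
    unfold nbf
    have e : (n : ℤ) = (n % p : ℕ) + (n / p : ℕ) * p := by
      exact_mod_cast (by rw [mul_comm]; exact (Nat.mod_add_div n p).symm : n = n % p + n / p * p)
    have e2 : (β : ℤ) * n - c = ((β : ℤ) * (n % p : ℕ) - c) + ((β : ℤ) * (n / p : ℕ)) * p := by
      conv_lhs => rw [e]
      ring
    rw [e2, Int.add_mul_ediv_right _ _ (by exact_mod_cast hp.ne')]
    ring)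
  refine this.trans ?_
  by_cases hn : n < p
  · rw [if_pos hn, if_pos (Nat.div_eq_of_lt hn)]
    exact le_emax _ _ _ _ hc'
  · rw [if_neg hn, if_neg (Nat.div_pos (by omega) hp).ne']
    exact le_emax _ _ _ _ hc'

end Pool.Agent.MP_807c24_nt.H13.Far
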