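import Pool.Agent.MP_807c24_nt.H13.Far

namespace Pool.Agent.MP_807c24_nt.H13.Far

open Finset Filter Topology

theorem tailW {a b : ℝ} (ha : 0 ≤ a) (hab : a < b) (N0 : ℕ) :
    ∑ N ∈ Finset.Icc 1 N0, (1 / ((N : ℝ) + a) - 1 / ((N : ℝ) + b)) ≤
      (1 / (1 + a) - 1 / (1 + b)) + (1 / (2 + a) - 1 / (2 + b)) + (1 / (3 + a) - 1 / (3 + b)) +
        (b - a) / (7 / 2 + a) := by
  have hnn : ∀ N : ℕ, 1 ≤ N → 0 ≤ 1 / ((N : ℝ) + a) - 1 / ((N : ℝ) + b) := by
    intro N hN
    have : (1 : ℝ) ≤ N := by exact_mod_cast hN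
    have := one_div_le_one_div_of_le (by linarith : 0 < (N : ℝ) + a)
      (by linarith : (N : ℝ) + a ≤ N + b)
    linarith
  have main : ∀ M : ℕ, ∑ N ∈ Finset.Icc 1 (M + 3), (1 / ((N : ℝ) + a) - 1 / ((N : ℝ) + b)) ≤
      (1 / (1 + a) - 1 / (1 + b)) + (1 / (2 + a) - 1 / (2 + b)) + (1 / (3 + a) - 1 / (3 + b)) +
        (b - a) / (7 / 2 + a) - (b - a) / (M + 7 / 2 + a) := by
    intro M
    induction M with
    | zero =>
      simp [Finset.sum_Icc_succ_top]
      linarith
    | succ M ih =>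
      rw [show M + 1 + 3 = (M + 3) + 1 by ring, Finset.sum_Icc_succ_top (by omega)]
      have hM : (0 : ℝ) ≤ M := by positivity
      have : 1 / (((M + 3 + 1 : ℕ) : ℝ) + a) - 1 / (((M + 3 + 1 : ℕ) : ℝ) + b) ≤
          (b - a) / (M + 7 / 2 + a) - (b - a) / (((M + 1 : ℕ) : ℝ) + 7 / 2 + a) := by
        push_cast
        set x : ℝ := (M : ℝ) + 4 + a with hx
        have hx4 : 4 ≤ x := by linarith
        have e1 : 1 / ((M : ℝ) + 3 + 1 + a) - 1 / ((M : ℝ) + 3 + 1 + b) =
            (b - a) / (x * (x + (b - a))) := by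
          have : (M : ℝ) + 3 + 1 + a = x := by linarith
          rw [this, show (M : ℝ) + 3 + 1 + b = x + (b - a) by linarith]
          have : 0 < x + (b - a) := by linarith
          field_simp
          ring
        have e2 : (b - a) / ((M : ℝ) + 7 / 2 + a) - (b - a) / ((M : ℝ) + 1 + 7 / 2 + a) =
            (b - a) / ((x - 1 / 2) * (x + 1 / 2)) := by
          rw [show (M : ℝ) + 7 / 2 + a = x - 1 / 2 by linarith,
            show (M : ℝ) + 1 + 7 / 2 + a = x + 1 / 2 by linarith]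
          have h1 : 0 < x - 1 / 2 := by linarith
          have h2 : 0 < x + 1 / 2 := by linarith
          rw [div_sub_div _ _ h1.ne' h2.ne']
          congr 1
          ring
        rw [e1, e2]
        apply div_le_div_of_nonneg_left (by linarith) (by nlinarith)
        nlinarith
      linarith
  have h1 : ∑ N ∈ Finset.Icc 1 N0, (1 / ((N : ℝ) + a) - 1 / ((N : ℝ) + b)) ≤
      ∑ N ∈ Finset.Icc 1 (N0 + 3), (1 / ((N : ℝ) + a) - 1 / ((N : ℝ) + b)) :=
    Finset.sum_le_sum_of_subset_of_nonneg (Finset.Icc_subset_Icc_right (by omega))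
      (fun N hN _ => hnn N (Finset.mem_Icc.1 hN).1)
  have h2 := main N0
  have h3 : 0 ≤ (b - a) / (N0 + 7 / 2 + a) := div_nonneg (by linarith) (by positivity)
  linarith

theorem div_le_nat (A B : ℕ) (hB : 0 < B) : (A : ℝ) / B ≤ ((A / B : ℕ) : ℝ) + 1 := by
  have hB' : (0 : ℝ) < B := by exact_mod_cast hB
  rw [div_le_iff₀ hB']
  have := Nat.lt_div_mul_add (a := A) hB
  have h2 : (A : ℝ) < ((A / B : ℕ) : ℝ) * B + B := by exact_mod_cast this
  linarith

/-- The partial sum over primes with fractional part in `[a, b)`. -/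
noncomputable def ps (n : ℕ) (a b : ℝ) : ℝ :=
  ∑ p ∈ (Finset.range (83 * n + 1)).filter
      (fun p : ℕ => p.Prime ∧ a ≤ Int.fract ((n : ℝ) / p) ∧ Int.fract ((n : ℝ) / p) < b),
    (ex n p : ℝ) * Real.log p

theorem ps_split (n : ℕ) (a b c : ℝ) : ps n a c ≤ ps n a b + ps n b c := by
  unfold ps
  simp only [Finset.sum_filter]
  rw [← Finset.sum_add_distrib]
  refine Finset.sum_le_sum fun p _ => ?_
  have h0 : 0 ≤ (ex n p : ℝ) * Real.log p := mul_nonneg (by positivity) (Real.log_natCast_nonneg p)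
  by_cases h : p.Prime ∧ a ≤ Int.fract ((n : ℝ) / p) ∧ Int.fract ((n : ℝ) / p) < c
  · rw [if_pos h]
    by_cases h2 : Int.fract ((n : ℝ) / p) < b
    · rw [if_pos ⟨h.1, h.2.1, h2⟩]
      split_ifs <;> linarith
    · rw [if_pos (⟨h.1, not_lt.1 h2, h.2.2⟩ :
        p.Prime ∧ b ≤ Int.fract ((n : ℝ) / p) ∧ Int.fract ((n : ℝ) / p) < c)]
      split_ifs <;> linarith
  · rw [if_neg h]
    split_ifs <;> linarith

theorem one_sound (hI : IntervalStmt) {u v u' v' : ℕ} (h : ok u v u' v' = true) {ε : ℝ}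
    (hε : 0 < ε) :
    ∀ᶠ n : ℕ in atTop, ps n ((u : ℝ) / v) ((u' : ℝ) / v') ≤ n * ((wt u v u' v' : ℝ) / SS + ε) := by
  simp only [ok, Bool.and_eq_true, Bool.or_eq_true, Nat.beq_eq, Nat.ble_eq] at h
  obtain ⟨⟨⟨hdet, hs⟩, hle⟩, h0⟩ := h
  have hv : 0 < v := by
    rcases Nat.eq_zero_or_pos v with h | h
    · subst h; simp at hdet
    · exact h
  have hu' : 0 < u' := by
    rcases Nat.eq_zero_or_pos u' with h | h
    · subst h; simp at hdet
    · exact h
  have hv' : 0 < v' := by omega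
  have rv : (0 : ℝ) < v := by exact_mod_cast hv
  have rv' : (0 : ℝ) < v' := by exact_mod_cast hv'
  have ru' : (0 : ℝ) < u' := by exact_mod_cast hu'
  have ru : (0 : ℝ) ≤ u := by positivity
  have rdet : (u' : ℝ) * v = u * v' + 1 := by exact_mod_cast hdet
  have hab : (u : ℝ) / v < (u' : ℝ) / v' := by
    rw [div_lt_div_iff₀ rv rv']; linarith
  set e0 := emax r0 (u + u') (v + v') with he0
  set e1 := emax r1 (u + u') (v + v') with he1
  have := hI ((u : ℝ) / v) ((u' : ℝ) / v') e0 e1 _ ε (fun n p => (ex n p : ℝ)) (by positivity) hab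
    (by rw [div_le_one rv']; exact_mod_cast hle) (by positivity) (by positivity) hε
    (by
      intro hz
      have : u = 0 := by
        rcases div_eq_zero_iff.1 hz with h | h
        · exact_mod_cast h
        · exact absurd h rv.ne'
      rcases h0 with h | h
      · omega
      · exact_mod_cast h)
    (tailW (by positivity) hab)
    (by
      intro n p hp h1 h2
      have := ex_le hdet hs hv' hp.pos h1 h2
      split_ifs at this ⊢ <;> exact_mod_cast this)
  filter_upwards [this] with n hn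
  refine hn.trans (mul_le_mul_of_nonneg_left ?_ (by positivity))
  have hSS : (0 : ℝ) < SS := by norm_num [SS]
  have t0 : (e0 : ℝ) * (1 / ((u : ℝ) / v) - 1 / ((u' : ℝ) / v')) ≤
      e0 * ((((SS / (u * u') : ℕ) : ℝ) + 1) / SS) := by
    rcases h0 with h | h
    · refine mul_le_mul_of_nonneg_left ?_ (by positivity)
      have ru1 : (0 : ℝ) < u := by exact_mod_cast h
      have e : 1 / ((u : ℝ) / v) - 1 / ((u' : ℝ) / v') = (SS : ℝ) / ((u * u' : ℕ) : ℝ) / SS := by
        push_cast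
        field_simp
        linarith
      rw [e]
      exact div_le_div_of_nonneg_right (div_le_nat _ _ (by positivity)) hSS.le
    · rw [h]; simp
  have tN : ∀ N : ℕ, 1 ≤ N → 1 / ((N : ℝ) + (u : ℝ) / v) - 1 / ((N : ℝ) + (u' : ℝ) / v') ≤
      (((SS / ((N * v + u) * (N * v' + u')) : ℕ) : ℝ) + 1) / SS := by
    intro N hN
    have rN : (0 : ℝ) < N := by exact_mod_cast hN
    have e : 1 / ((N : ℝ) + (u : ℝ) / v) - 1 / ((N : ℝ) + (u' : ℝ) / v') =
        (SS : ℝ) / (((N * v + u) * (N * v' + u') : ℕ) : ℝ) / SS := by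
      push_cast
      field_simp
      linarith
    rw [e]
    exact div_le_div_of_nonneg_right (div_le_nat _ _ (by positivity)) hSS.le
  have t4 : ((u' : ℝ) / v' - (u : ℝ) / v) / (7 / 2 + (u : ℝ) / v) ≤
      (((2 * SS / (v' * (7 * v + 2 * u)) : ℕ) : ℝ) + 1) / SS := by
    have e : ((u' : ℝ) / v' - (u : ℝ) / v) / (7 / 2 + (u : ℝ) / v) =
        ((2 * SS : ℕ) : ℝ) / ((v' * (7 * v + 2 * u) : ℕ) : ℝ) / SS := by
      push_cast
      field_simp
      linarith
    rw [e]
    exact div_le_div_of_nonneg_right (div_le_nat _ _ (by positivity)) hSS.le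
  have t1 := tN 1 le_rfl
  have t2 := tN 2 (by norm_num)
  have t3 := tN 3 (by norm_num)
  simp only [Nat.cast_one, Nat.cast_ofNat, one_mul] at t1 t2 t3
  have tw := mul_le_mul_of_nonneg_left (add_le_add (add_le_add (add_le_add t1 t2) t3) t4)
    (by positivity : (0 : ℝ) ≤ e1)
  have e : (wt u v u' v' : ℝ) / SS = e0 * ((((SS / (u * u') : ℕ) : ℝ) + 1) / SS) +
      e1 * ((((SS / ((v + u) * (v' + u')) : ℕ) : ℝ) + 1) / SS +
        (((SS / ((2 * v + u) * (2 * v' + u')) : ℕ) : ℝ) + 1) / SS +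
        (((SS / ((3 * v + u) * (3 * v' + u')) : ℕ) : ℝ) + 1) / SS +
        (((2 * SS / (v' * (7 * v + 2 * u)) : ℕ) : ℝ) + 1) / SS) := by
    unfold wt
    rw [← he0, ← he1]
    simp only [Nat.cast_add, Nat.cast_mul, Nat.cast_one, Nat.cast_ofNat]
    field_simp
    ring
  rw [e]
  linarith

theorem run_sound (hI : IntervalStmt) : ∀ (f u v u' v' eu ev b : ℕ),
    run f u v u' v' eu ev b = true → ∀ ε : ℝ, 0 < ε →
    ∀ᶠ n : ℕ in atTop, ps n ((u : ℝ) / v) ((eu : ℝ) / ev) ≤ n * ((b : ℝ) / SS + ε) := by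
  intro f
  induction f with
  | zero => intro u v u' v' eu ev b h; simp [run] at h
  | succ f ih =>
    intro u v u' v' eu ev b h ε hε
    simp only [run, Bool.and_eq_true, Nat.ble_eq] at h
    obtain ⟨⟨hok, hb⟩, hr⟩ := h
    have hSS : (0 : ℝ) < SS := by norm_num [SS]
    have hb' : (wt u v u' v' : ℝ) ≤ b := by exact_mod_cast hb
    cases hc : (Nat.beq u' eu && Nat.beq v' ev)
    · rw [hc] at hr
      simp only [cond_false] at hr
      filter_upwards [one_sound hI hok (half_pos hε), ih _ _ _ _ _ _ _ hr _ (half_pos hε)]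
        with n h1 h2
      refine (ps_split n _ ((u' : ℝ) / v') _).trans ((add_le_add h1 h2).trans (le_of_eq ?_))
      rw [Nat.cast_sub hb]
      field_simp
      ring
    · simp only [Bool.and_eq_true, Nat.beq_eq] at hc
      obtain ⟨rfl, rfl⟩ := hc
      filter_upwards [one_sound hI hok hε] with n h1
      refine h1.trans (mul_le_mul_of_nonneg_left ?_ (by positivity))
      have := div_le_div_of_nonneg_right hb' hSS.le
      linarith

end Pool.Agent.MP_807c24_nt.H13.Far
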