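import Pool.Agent.MP_807c24_nt.H13.Spec

namespace Pool.Agent.MP_807c24_nt.H13

open Finset Filter Topology

namespace Fin0

theorem pn_mul (p : ℕ) [Fact p.Prime] (x y : ℚ) : pn p (x * y) = pn p x * pn p y := by
  simp [pn]

theorem pn_nonneg (p : ℕ) [Fact p.Prime] (x : ℚ) : 0 ≤ pn p x := norm_nonneg _

theorem pn_add (p : ℕ) [Fact p.Prime] (x y : ℚ) : pn p (x + y) ≤ max (pn p x) (pn p y) := by
  unfold pn
  push_cast
  exact IsUltrametricDist.norm_add_le_max _ _

theorem pn_int (p : ℕ) [Fact p.Prime] (z : ℤ) : pn p z ≤ 1 := by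
  unfold pn
  push_cast
  exact Padic.norm_int_le_one z

theorem pn_nat (p : ℕ) [Fact p.Prime] (z : ℕ) : pn p z ≤ 1 := by
  simpa using pn_int p z

theorem pn_of_dvd (p : ℕ) [Fact p.Prime] (z e : ℕ) (h : p ^ e ∣ z) :
    pn p z ≤ (p : ℝ) ^ (-(e : ℤ)) := by
  unfold pn
  have := (Padic.norm_int_le_pow_iff_dvd (p := p) (z : ℤ) e).2 (by exact_mod_cast h)
  simpa using this

theorem int_of_pn (x : ℚ) (h : ∀ (p : ℕ) [Fact p.Prime], pn p x ≤ 1) : ∃ z : ℤ, x = z := by
  by_contra hx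
  have hd : x.den ≠ 1 := fun h1 => hx ⟨x.num, (Rat.coe_int_num_of_den_eq_one h1).symm⟩
  obtain ⟨p, hp, hpd⟩ := Nat.exists_prime_and_dvd hd
  have : Fact p.Prime := ⟨hp⟩
  have h1 : pn p (x.num : ℚ) = pn p x * pn p (x.den : ℚ) := by
    rw [← pn_mul, Rat.mul_den_eq_num]
  have h2 : pn p (x.den : ℚ) < 1 := by
    unfold pn
    push_cast
    exact Padic.norm_natCast_lt_one_iff.2 hpd
  have h3 : pn p (x.num : ℚ) < 1 := by
    rw [h1]
    have := h p
    have := pn_nonneg p x
    have := pn_nonneg p (x.den : ℚ)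
    nlinarith
  have h4 : (p : ℤ) ∣ x.num := by
    unfold pn at h3
    push_cast at h3
    exact Padic.norm_intCast_lt_one_iff.1 h3
  have h5 : p ∣ x.num.natAbs := Int.natCast_dvd.1 h4
  have := Nat.dvd_gcd h5 hpd
  rw [x.reduced] at this
  exact hp.one_lt.ne' (Nat.dvd_one.1 this)

theorem pn_disc (p : ℕ) [hp : Fact p.Prime] (x : ℚ) (e Y : ℕ) (h : pn p x ≤ (p : ℝ) ^ e * Y) :
    pn p x ≤ (p : ℝ) ^ (e + Nat.log p Y) := by
  have hp1 : (1 : ℝ) < p := by exact_mod_cast hp.out.one_lt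
  have hlt : (Y : ℝ) < (p : ℝ) ^ (Nat.log p Y + 1) := by
    exact_mod_cast Nat.lt_pow_succ_log_self hp.out.one_lt Y
  have h2 : pn p x < (p : ℝ) ^ (((e + Nat.log p Y : ℕ) : ℤ) + 1) := by
    refine h.trans_lt ?_
    have : (p : ℝ) ^ (((e + Nat.log p Y : ℕ) : ℤ) + 1) = (p : ℝ) ^ e * (p : ℝ) ^ (Nat.log p Y + 1) := by
      rw [← pow_add]
      norm_cast
    rw [this]
    exact mul_lt_mul_of_pos_left hlt (by positivity)
  have := (Padic.norm_le_pow_iff_norm_lt_pow_add_one (x : ℚ_[p]) _).2 h2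
  unfold pn
  exact_mod_cast this

/-- Exponent of `p` in the extra factor of the common denominator. -/
def gx (n p : ℕ) : ℕ := if p ^ 2 < 83 * n + 1 then Nat.log p ((83 * n + 1) ^ 46) else ex n p

/-- The extra factor. -/
def DD (n : ℕ) : ℕ := ∏ p ∈ (Finset.range (83 * n + 1)).filter Nat.Prime, p ^ gx n p

theorem DD_pos (n : ℕ) : 0 < DD n :=
  Finset.prod_pos fun p hp => pow_pos (Finset.mem_filter.1 hp).2.pos _

theorem integral (hC : CrudeStmt) (hL : LargeStmt) (hZ : ExZeroStmt) (n : ℕ) (hn : 1 ≤ n) :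
    ∀ x ∈ [a0 n, ai n 3, ai n 5, ai n 7],
      ∃ z : ℤ, ((n.factorial ^ 22 * DD n : ℕ) : ℚ) * x = z := by
  intro x hx
  apply int_of_pn
  intro p hp
  have hp1 : (1 : ℝ) < p := by exact_mod_cast hp.out.one_lt
  have key : ∀ e : ℕ, p ^ e ∣ n.factorial ^ 22 * DD n → pn p x ≤ (p : ℝ) ^ e →
      pn p (((n.factorial ^ 22 * DD n : ℕ) : ℚ) * x) ≤ 1 := by
    intro e h1 h2
    rw [pn_mul]
    calc _ ≤ (p : ℝ) ^ (-(e : ℤ)) * (p : ℝ) ^ e :=
          mul_le_mul (pn_of_dvd p _ e h1) h2 (pn_nonneg _ _) (by positivity)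
      _ = 1 := by
          rw [zpow_neg, zpow_natCast]
          exact inv_mul_cancel₀ (by positivity)
  have hf : p ^ (22 * padicValNat p n.factorial) ∣ n.factorial ^ 22 := by
    rw [mul_comm, pow_mul]
    exact pow_dvd_pow_of_dvd pow_padicValNat_dvd _
  have hD : p < 83 * n + 1 → p ^ gx n p ∣ DD n := fun h =>
    Finset.dvd_prod_of_mem (fun p => p ^ gx n p)
      (Finset.mem_filter.2 ⟨Finset.mem_range.2 h, hp.out⟩)
  by_cases h1 : p ^ 2 < 83 * n + 1
  · have hpl : p < 83 * n + 1 := by nlinarith [hp.out.one_lt]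
    refine key (22 * padicValNat p n.factorial + gx n p) ?_ ?_
    · rw [pow_add]; exact mul_dvd_mul hf (hD hpl)
    · rw [gx, if_pos h1]
      apply pn_disc
      have := hC p n hn x hx
      push_cast
      exact this
  · have hv : n / p ≤ padicValNat p n.factorial := by
      rw [padicValNat_factorial (b := Nat.log p n + 2) (by omega)]
      have := Finset.single_le_sum (f := fun i => n / p ^ i) (s := Finset.Ico 1 (Nat.log p n + 2))
        (fun _ _ => Nat.zero_le _) (a := 1) (by simp)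
      simpa using this
    have hf' : p ^ (22 * (n / p)) ∣ n.factorial ^ 22 :=
      (pow_dvd_pow p (by omega)).trans hf
    refine key (22 * (n / p) + ex n p) ?_ (hL p n hn (by omega) x hx)
    rw [pow_add]
    refine mul_dvd_mul hf' ?_
    by_cases h2 : p < 83 * n + 1
    · have := hD h2
      rwa [gx, if_neg h1] at this
    · rw [hZ n p hn (by omega)]; simp

theorem log_pow_log (p Y : ℕ) (hp : 0 < p) (hY : 0 < Y) :
    Real.log ((p : ℝ) ^ Nat.log p (Y ^ 46)) ≤ 46 * Real.log Y := by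
  have h2 : p ^ Nat.log p (Y ^ 46) ≤ Y ^ 46 := Nat.pow_log_le_self p (pow_pos hY _).ne'
  have h3 : (p : ℝ) ^ Nat.log p (Y ^ 46) ≤ (Y : ℝ) ^ 46 := by exact_mod_cast h2
  have rp : (0 : ℝ) < p := by exact_mod_cast hp
  have h4 := Real.log_le_log (pow_pos rp _) h3
  rw [Real.log_pow (Y : ℝ)] at h4
  exact_mod_cast h4

theorem log_DD (n : ℕ) : Real.log (DD n) ≤
    (Real.sqrt (83 * n + 1) + 1) * (46 * Real.log (83 * n + 1)) +
      ∑ p ∈ (Finset.range (83 * n + 1)).filter Nat.Prime, (ex n p : ℝ) * Real.log p := by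
  unfold DD
  push_cast
  rw [Real.log_prod (fun p hp => by
    have := (Finset.mem_filter.1 hp).2.pos
    positivity)]
  have hL : 0 ≤ 46 * Real.log (83 * n + 1) :=
    mul_nonneg (by norm_num) (Real.log_nonneg (by have : (0 : ℝ) ≤ n := by positivity
                                                  linarith))
  have h1 : ∀ p ∈ (Finset.range (83 * n + 1)).filter Nat.Prime, Real.log ((p : ℝ) ^ gx n p) ≤
      (if p ^ 2 < 83 * n + 1 then 46 * Real.log (83 * n + 1) else 0) + (ex n p : ℝ) * Real.log p := by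
    intro p hp
    have hp' := (Finset.mem_filter.1 hp).2
    have h0 : 0 ≤ (ex n p : ℝ) * Real.log p :=
      mul_nonneg (by positivity) (Real.log_natCast_nonneg p)
    unfold gx
    split_ifs with h
    · have h4 := log_pow_log p (83 * n + 1) hp'.pos (by omega)
      push_cast at h4
      linarith
    · rw [Real.log_pow]; linarith
  refine (Finset.sum_le_sum h1).trans ?_
  rw [Finset.sum_add_distrib]
  refine add_le_add ?_ le_rfl
  rw [← Finset.sum_filter, Finset.sum_const, nsmul_eq_mul]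
  refine mul_le_mul_of_nonneg_right ?_ hL
  have hsub : ((Finset.range (83 * n + 1)).filter Nat.Prime).filter (fun p => p ^ 2 < 83 * n + 1) ⊆
      Finset.range (Nat.sqrt (83 * n + 1) + 1) := by
    intro p hp
    have := (Finset.mem_filter.1 hp).2
    rw [Finset.mem_range, Nat.lt_succ_iff, Nat.le_sqrt']
    exact this.le
  have h2 := Finset.card_le_card hsub
  rw [Finset.card_range] at h2
  have h3 : ((Nat.sqrt (83 * n + 1) : ℕ) : ℝ) ≤ Real.sqrt (83 * n + 1) := by
    have := Real.nat_sqrt_le_real_sqrt (a := 83 * n + 1)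
    push_cast at this
    exact this
  have h4 : ((((Finset.range (83 * n + 1)).filter Nat.Prime).filter
      (fun p => p ^ 2 < 83 * n + 1)).card : ℝ) ≤ (Nat.sqrt (83 * n + 1) : ℝ) + 1 := by
    exact_mod_cast h2
  linarith

theorem log_fact (n : ℕ) (hn : 1 ≤ n) :
    Real.log n.factorial ≤ n * Real.log n - n + Real.log n + 1 := by
  induction n, hn using Nat.le_induction with
  | base => simp
  | succ n hn ih =>
    have hn' : (0 : ℝ) < n := by exact_mod_cast hn
    rw [Nat.factorial_succ]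
    push_cast
    rw [Real.log_mul (by positivity) (by exact_mod_cast n.factorial_ne_zero)]
    have h1 := Real.one_sub_inv_le_log_of_pos (x := ((n : ℝ) + 1) / n) (by positivity)
    rw [Real.log_div (by positivity) hn'.ne', inv_div] at h1
    have h2 : 1 ≤ ((n : ℝ) + 1) * (Real.log (n + 1) - Real.log n) := by
      have : ((n : ℝ) + 1) * (1 - n / (n + 1)) = 1 := by field_simp; ring
      nlinarith
    nlinarith

theorem small_ev (K : ℝ) : ∀ᶠ n : ℕ in atTop,
    K + 23 * Real.log n + (Real.sqrt (83 * n + 1) + 1) * (46 * Real.log (83 * n + 1)) <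
      3 / 10 * n := by
  have h1 : Tendsto (fun x : ℝ => Real.log x / x ^ (1 / 2 : ℝ)) atTop (𝓝 0) :=
    (isLittleO_log_rpow_atTop (by norm_num : (0 : ℝ) < 1 / 2)).tendsto_div_nhds_zero
  have h2 : Tendsto (fun n : ℕ => (83 * n + 1 : ℝ)) atTop atTop :=
    tendsto_atTop_add_const_right _ _ (tendsto_natCast_atTop_atTop.const_mul_atTop (by norm_num))
  have h3 := (h1.comp h2).eventually (gt_mem_nhds (show (0 : ℝ) < 1 / 100000 by norm_num))
  have h4 : ∀ᶠ n : ℕ in atTop, 10 * K + 1 ≤ (n : ℝ) :=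
    tendsto_natCast_atTop_atTop.eventually_ge_atTop _
  filter_upwards [h3, h4, eventually_ge_atTop 1] with n h3 h4 h5
  have hn : (1 : ℝ) ≤ n := by exact_mod_cast h5
  simp only [Function.comp] at h3
  rw [← Real.sqrt_eq_rpow] at h3
  set s := Real.sqrt (83 * n + 1) with hs
  have hs2 : s * s = 83 * n + 1 := Real.mul_self_sqrt (by positivity)
  have hs1 : 1 ≤ s := by rw [hs]; exact Real.one_le_sqrt.2 (by linarith)
  rw [div_lt_iff₀ (by linarith)] at h3
  have hl : Real.log n ≤ Real.log (83 * n + 1) := Real.log_le_log (by linarith) (by linarith)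
  have hl0 : 0 ≤ Real.log (83 * n + 1) := Real.log_nonneg (by linarith)
  have : (s + 1) * (46 * Real.log (83 * n + 1)) + 23 * Real.log (83 * n + 1) ≤
      115 * s * Real.log (83 * n + 1) := by nlinarith
  have : 115 * s * Real.log (83 * n + 1) ≤ 115 * s * (1 / 100000 * s) :=
    mul_le_mul_of_nonneg_left h3.le (by linarith)
  nlinarith

end Fin0

open Fin0

theorem final (hS : SmallStmt) (hC : CrudeStmt) (hL : LargeStmt) (hZ : ExZeroStmt)
    (hP : PrimeSumStmt) (hN : NonzeroStmt) : MainStmt := by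
  by_contra hcon
  simp only [MainStmt, Irrational, not_or, not_not] at hcon
  obtain ⟨⟨q5, h5⟩, ⟨q7, h7⟩, ⟨q9, h9⟩⟩ := hcon
  obtain ⟨C, hC0, hS⟩ := hS
  set d : ℕ := q5.den * q7.den * q9.den with hd
  have hd0 : 0 < d := by positivity
  obtain ⟨n0, hn0⟩ := eventually_atTop.1 (hP.and (small_ev (Real.log d + Real.log C + 22)))
  obtain ⟨p, hpgt, hp, hpm⟩ := Nat.forall_exists_prime_gt_and_modEq (30 * n0 + d) (q := 30) (a := 29)
    (by norm_num) (by norm_num)
  have : Fact p.Prime := ⟨hp⟩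
  obtain ⟨n, hn⟩ : ∃ n, p + 1 = 30 * n := ⟨(p + 1) / 30, by unfold Nat.ModEq at hpm; omega⟩
  have hn1 : 1 ≤ n := by omega
  obtain ⟨hP', hsm⟩ := hn0 n (by omega)
  obtain ⟨hN0, hN1⟩ := hN p n hn
  set Fq : ℚ := a0 n + (ai n 3 * q5 + ai n 5 * q7 + ai n 7 * q9) with hFq
  have hF : Fn n = Fq := by
    rw [hFq, Fn, ← h5, ← h7, ← h9]; push_cast; ring
  have hq : ∀ q : ℚ, q.den ∣ d → pn p q ≤ 1 := fun q hq =>
    Padic.norm_rat_le_one fun h => by
      have := Nat.le_of_dvd hd0 (h.trans hq)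
      omega
  have hm : ∀ x ∈ [ai n 3, ai n 5, ai n 7], ∀ q : ℚ, q.den ∣ d → pn p (x * q) ≤ 1 := by
    intro x hx q hq'
    rw [pn_mul]
    exact mul_le_one₀ (hN1 x hx) (pn_nonneg _ _) (hq q hq')
  have hFne : Fq ≠ 0 := by
    intro h0
    have e : a0 n = -(ai n 3 * q5 + ai n 5 * q7 + ai n 7 * q9) := by linear_combination h0
    have b1 := hm (ai n 3) (by simp) q5 ⟨q7.den * q9.den, by rw [hd]; ring⟩
    have b2 := hm (ai n 5) (by simp) q7 ⟨q5.den * q9.den, by rw [hd]; ring⟩
    have b3 := hm (ai n 7) (by simp) q9 ⟨q5.den * q7.den, by rw [hd]; ring⟩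
    have b4 : pn p (ai n 3 * q5 + ai n 5 * q7 + ai n 7 * q9) ≤ 1 :=
      (pn_add _ _ _).trans (max_le ((pn_add _ _ _).trans (max_le b1 b2)) b3)
    have b5 : pn p (a0 n) ≤ 1 := by
      rw [e]; unfold pn at *; push_cast at *; rwa [norm_neg]
    rw [hN0] at b5
    have : (1 : ℝ) < p := by exact_mod_cast hp.one_lt
    linarith
  have hI := integral hC hL hZ n hn1
  obtain ⟨z0, e0⟩ := hI (a0 n) (by simp)
  obtain ⟨z3, e3⟩ := hI (ai n 3) (by simp)
  obtain ⟨z5, e5⟩ := hI (ai n 5) (by simp)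
  obtain ⟨z7, e7⟩ := hI (ai n 7) (by simp)
  set N : ℕ := n.factorial ^ 22 * DD n with hNdef
  have hN0' : 0 < N := mul_pos (pow_pos n.factorial_pos _) (DD_pos n)
  have hint : (d : ℚ) * N * Fq = ((d * z0 + z3 * q5.num * q7.den * q9.den +
      z5 * q7.num * q5.den * q9.den + z7 * q9.num * q5.den * q7.den : ℤ) : ℚ) := by
    push_cast
    rw [← e0, ← e3, ← e5, ← e7, ← Rat.mul_den_eq_num q5, ← Rat.mul_den_eq_num q7,
      ← Rat.mul_den_eq_num q9, hFq, hd]
    push_cast
    ring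
  set Z : ℤ := d * z0 + z3 * q5.num * q7.den * q9.den +
      z5 * q7.num * q5.den * q9.den + z7 * q9.num * q5.den * q7.den with hZdef
  have hZ0 : Z ≠ 0 := by
    intro h
    rw [h] at hint
    have : (d : ℚ) * N * Fq ≠ 0 := mul_ne_zero (by positivity) hFne
    exact this (by simpa using hint)
  have hge : (1 : ℝ) ≤ d * N * |Fn n| := by
    have h1 : (1 : ℝ) ≤ |(Z : ℝ)| := by exact_mod_cast Int.one_le_abs hZ0
    have h2 : (Z : ℝ) = d * N * Fn n := by
      rw [hF]; exact_mod_cast hint.symm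
    rwa [h2, abs_mul, abs_of_nonneg (by positivity : (0 : ℝ) ≤ d * N)] at h1
  have rn : (0 : ℝ) < n := by exact_mod_cast hn1
  have rd : (0 : ℝ) < d := by exact_mod_cast hd0
  have rN : (0 : ℝ) < N := by exact_mod_cast hN0'
  have hle : (1 : ℝ) ≤ d * N * (C * n * Real.exp (-(315 / 2) * n) / (n : ℝ) ^ (22 * n)) :=
    hge.trans (mul_le_mul_of_nonneg_left (hS n hn1) (by positivity))
  have hlog := Real.log_nonneg hle
  rw [Real.log_mul (by positivity) (by positivity), Real.log_mul rd.ne' rN.ne',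
    Real.log_div (by positivity) (by positivity), Real.log_mul (by positivity) (by positivity),
    Real.log_mul hC0.ne' rn.ne', Real.log_exp, Real.log_pow] at hlog
  have hlN : Real.log N = 22 * Real.log n.factorial + Real.log (DD n) := by
    rw [hNdef]
    push_cast
    rw [Real.log_mul (by have := n.factorial_pos; positivity)
      (by have := DD_pos n; positivity), Real.log_pow]
    norm_num
  have := log_fact n hn1
  have := log_DD n
  push_cast at hlog
  nlinarith

end Pool.Agent.MP_807c24_nt.H13
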