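import Pool.Agent.MP_807c24_nt.H13.Spec

namespace Pool.Agent.MP_807c24_nt.H13

open Finset Filter Topology

namespace Interval

lemma sum_le (S : Finset ℕ) {u v : ℝ} (hu : 0 ≤ u) (huv : u ≤ v)
    (h : ∀ p ∈ S, p.Prime ∧ u < p ∧ (p : ℝ) ≤ v) :
    ∑ p ∈ S, Real.log p ≤ Chebyshev.theta v - Chebyshev.theta u := by
  have hd : Disjoint ((Ioc 0 ⌊u⌋₊).filter Nat.Prime) S := by
    rw [disjoint_left]
    intro p hp hS
    have h1 := (mem_Ioc.1 (mem_filter.1 hp).1).2
    have h2 := (Nat.floor_lt hu).2 (h p hS).2.1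
    omega
  have hs : (Ioc 0 ⌊u⌋₊).filter Nat.Prime ∪ S ⊆ (Ioc 0 ⌊v⌋₊).filter Nat.Prime := by
    intro p hp
    rcases mem_union.1 hp with hp | hp
    · obtain ⟨h1, h2⟩ := mem_filter.1 hp
      exact mem_filter.2 ⟨mem_Ioc.2 ⟨(mem_Ioc.1 h1).1, (mem_Ioc.1 h1).2.trans (Nat.floor_mono huv)⟩, h2⟩
    · obtain ⟨h1, _, h3⟩ := h p hp
      exact mem_filter.2 ⟨mem_Ioc.2 ⟨h1.pos, Nat.le_floor h3⟩, h1⟩
  have h1 := sum_le_sum_of_subset_of_nonneg (f := fun p : ℕ => Real.log p) hs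
    fun p _ _ => Real.log_natCast_nonneg p
  rw [sum_union hd] at h1
  unfold Chebyshev.theta
  linarith

lemma lim (hP : PntStmt) {c : ℝ} (hc : 0 < c) :
    Tendsto (fun n : ℕ => Chebyshev.theta (n / c) / n) atTop (𝓝 (1 / c)) := by
  have h1 : Tendsto (fun n : ℕ => (n : ℝ) / c) atTop atTop :=
    tendsto_natCast_atTop_atTop.atTop_div_const hc
  have h2 := (Tendsto.comp hP h1).mul_const (1 / c)
  rw [one_mul] at h2
  refine h2.congr fun n => ?_
  simp only [Function.comp]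
  rcases Nat.eq_zero_or_pos n with rfl | hn
  · simp
  · have : (n : ℝ) ≠ 0 := by positivity
    field_simp

lemma fract_eq (n p : ℕ) : Int.fract ((n : ℝ) / p) = (n : ℝ) / p - (n / p : ℕ) := by
  rw [Int.fract, ← Nat.floor_div_eq_div (K := ℝ) n p, ← Int.natCast_floor_eq_floor (by positivity),
    Int.cast_natCast]

lemma layer {a b : ℝ} (hab : a < b) {n N : ℕ} (hN : 0 < (N : ℝ) + a) (S : Finset ℕ)
    (h : ∀ p ∈ S, (p.Prime ∧ a ≤ Int.fract ((n : ℝ) / p) ∧ Int.fract ((n : ℝ) / p) < b) ∧ n / p = N) :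
    ∑ p ∈ S, Real.log p ≤ Chebyshev.theta (n / (N + a)) - Chebyshev.theta (n / (N + b)) := by
  have hb : 0 < (N : ℝ) + b := by linarith
  refine sum_le S (by positivity) (by gcongr) fun p hp => ?_
  obtain ⟨⟨h1, h2, h3⟩, h4⟩ := h p hp
  have hp0 : (0 : ℝ) < p := by exact_mod_cast h1.pos
  rw [fract_eq, h4] at h2 h3
  refine ⟨h1, ?_, ?_⟩
  · rw [div_lt_iff₀ hb, ← div_lt_iff₀' hp0]; linarith
  · rw [le_div_iff₀ hN, ← le_div_iff₀' hp0]; linarith

end Interval

open _root_.Pool.Agent.MP_807c24_nt.H13.Interval in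
theorem interval : PntStmt → IntervalStmt := by
  intro hP a b e0 e1 W ε f ha hab _ he0 he1 hε ha0 hW hf
  obtain ⟨N0, hN0⟩ := exists_nat_gt (e1 * Real.log 4 / (ε / 2))
  have hb : 0 < b := by linarith
  set T : ℕ → ℕ → ℝ := fun N n =>
    Chebyshev.theta (n / (N + a)) - Chebyshev.theta (n / (N + b)) with hT
  have hTl : ∀ N : ℕ, 0 < (N : ℝ) + a →
      Tendsto (fun n : ℕ => T N n / n) atTop (𝓝 (1 / (N + a) - 1 / (N + b))) := fun N hN => by
    refine ((lim hP hN).sub (lim hP (show 0 < (N : ℝ) + b by linarith))).congr fun n => ?_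
    simp only [hT]; ring
  have h0 : Tendsto (fun n : ℕ => e0 * (T 0 n / n)) atTop (𝓝 (e0 * (1 / a - 1 / b))) := by
    rcases ha.eq_or_lt with h | h
    · simp [ha0 h.symm]
    · simpa using (hTl 0 (by simpa using h)).const_mul e0
  have h1 : Tendsto (fun n : ℕ => ∑ N ∈ Icc 1 N0, T N n / n) atTop
      (𝓝 (∑ N ∈ Icc 1 N0, (1 / ((N : ℝ) + a) - 1 / ((N : ℝ) + b)))) :=
    tendsto_finsetSum _ fun N hN => hTl N (by
      have : (1 : ℝ) ≤ N := by exact_mod_cast (mem_Icc.1 hN).1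
      linarith)
  have h2 := (h0.add (h1.const_mul e1)).eventually_lt_const
    (show _ < e0 * (1 / a - 1 / b) + e1 * W + ε / 2 by
      have := mul_le_mul_of_nonneg_left (hW N0) he1
      linarith)
  filter_upwards [h2, eventually_gt_atTop 0] with n hn hn0
  have hnR : (0 : ℝ) < n := by positivity
  set F := (Finset.range (83 * n + 1)).filter
    (fun p : ℕ => p.Prime ∧ a ≤ Int.fract ((n : ℝ) / p) ∧ Int.fract ((n : ℝ) / p) < b) with hF
  have hlog : ∀ p : ℕ, 0 ≤ Real.log p := Real.log_natCast_nonneg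
  have hFm : ∀ p ∈ F, p.Prime ∧ a ≤ Int.fract ((n : ℝ) / p) ∧ Int.fract ((n : ℝ) / p) < b :=
    fun p hp => (mem_filter.1 hp).2
  have b0 : ∑ p ∈ F.filter (fun p => n / p = 0), f n p * Real.log p ≤ e0 * T 0 n := by
    have c1 : ∑ p ∈ F.filter (fun p => n / p = 0), f n p * Real.log p ≤
        e0 * ∑ p ∈ F.filter (fun p => n / p = 0), Real.log p := by
      rw [mul_sum]
      refine sum_le_sum fun p hp => mul_le_mul_of_nonneg_right ?_ (hlog p)
      obtain ⟨h3, h4⟩ := mem_filter.1 hp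
      obtain ⟨h5, h6, h7⟩ := hFm p h3
      have h8 := hf n p h5 h6 h7
      rwa [if_pos ((Nat.div_eq_zero_iff_lt h5.pos).1 h4)] at h8
    refine c1.trans ?_
    rcases ha.eq_or_lt with h | h
    · simp [ha0 h.symm]
    · exact mul_le_mul_of_nonneg_left (layer hab (N := 0) (by simpa using h) _ fun p hp =>
        ⟨hFm p (mem_filter.1 hp).1, (mem_filter.1 hp).2⟩) he0
  set F1 := F.filter (fun p => ¬ n / p = 0) with hF1
  have b1 : ∑ p ∈ F1, f n p * Real.log p ≤ e1 * ∑ p ∈ F1, Real.log p := by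
    rw [mul_sum]
    refine sum_le_sum fun p hp => mul_le_mul_of_nonneg_right ?_ (hlog p)
    obtain ⟨h3, h4⟩ := mem_filter.1 hp
    obtain ⟨h5, h6, h7⟩ := hFm p h3
    have h8 := hf n p h5 h6 h7
    rwa [if_neg fun h => h4 ((Nat.div_eq_zero_iff_lt h5.pos).2 h)] at h8
  have b2 : ∑ p ∈ F1.filter (fun p => n / p ≤ N0), Real.log p ≤ ∑ N ∈ Icc 1 N0, T N n := by
    rw [← sum_fiberwise_of_maps_to (g := fun p => n / p) (t := Icc 1 N0) fun p hp => by
      have h3 := (mem_filter.1 hp).2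
      have h4 := (mem_filter.1 (mem_filter.1 hp).1).2
      exact mem_Icc.2 ⟨Nat.pos_of_ne_zero h4, h3⟩]
    refine sum_le_sum fun N hN => layer hab (by
      have : (1 : ℝ) ≤ N := by exact_mod_cast (mem_Icc.1 hN).1
      linarith) _ fun p hp => ?_
    exact ⟨hFm p (mem_filter.1 (mem_filter.1 (mem_filter.1 hp).1).1).1, (mem_filter.1 hp).2⟩
  have b3 : ∑ p ∈ F1.filter (fun p => ¬ n / p ≤ N0), Real.log p ≤ Real.log 4 * (n / (N0 + 1)) := by
    have c1 := sum_le (F1.filter fun p => ¬ n / p ≤ N0) (u := 0) (v := n / (N0 + 1)) le_rfl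
      (by positivity) fun p hp => by
        obtain ⟨h3, h4⟩ := mem_filter.1 hp
        have h5 := (hFm p (mem_filter.1 h3).1).1
        refine ⟨h5, by exact_mod_cast h5.pos, ?_⟩
        rw [le_div_iff₀ (by positivity)]
        have h6 : (N0 + 1) * p ≤ n := (Nat.le_div_iff_mul_le h5.pos).1 (by omega)
        rw [mul_comm]
        exact_mod_cast h6
    rw [Chebyshev.theta_zero, sub_zero] at c1
    exact c1.trans (Chebyshev.theta_le_log4_mul_x (by positivity))
  have b4 : e1 * (Real.log 4 * (n / (N0 + 1))) ≤ n * (ε / 2) := by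
    rw [div_lt_iff₀ (by positivity)] at hN0
    have c1 : e1 * Real.log 4 / (N0 + 1) ≤ ε / 2 := by
      rw [div_le_iff₀ (by positivity)]; nlinarith
    calc _ = n * (e1 * Real.log 4 / (N0 + 1)) := by ring
      _ ≤ _ := by gcongr
  have b5 : e0 * T 0 n + e1 * ∑ N ∈ Icc 1 N0, T N n ≤
      n * (e0 * (1 / a - 1 / b) + e1 * W + ε / 2) := by
    rw [← sum_div] at hn
    have := mul_le_mul_of_nonneg_left hn.le hnR.le
    have e : n * (e0 * (T 0 n / n) + e1 * ((∑ N ∈ Icc 1 N0, T N n) / n)) =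
      e0 * T 0 n + e1 * ∑ N ∈ Icc 1 N0, T N n := by field_simp
    linarith
  rw [← sum_filter_add_sum_filter_not F (fun p => n / p = 0)]
  rw [← sum_filter_add_sum_filter_not F1 (fun p => n / p ≤ N0) fun p : ℕ => Real.log p] at b1
  have b6 := mul_le_mul_of_nonneg_left (add_le_add b2 b3) he1
  linarith

end Pool.Agent.MP_807c24_nt.H13
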