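import Pool.Agent.MP_807c24_nt.H13.Spec

/-!
The numerical inequality on the vertical line.
-/

namespace Pool.Agent.MP_807c24_nt.H13

open Finset

namespace Phi

/-- Order of the zero on a cell. -/
def zn (i : ℕ) : ℕ := (-(mult 1 (i + 1))).toNat

/-- Order of the pole on a cell. -/
def po (i : ℕ) : ℕ := (mult 1 (i + 1)).toNat

/-- The square of `2 i - 15`. -/
def sq (i : ℕ) : ℕ := 4 * i ^ 2 + 225 - 60 * i

/-- Numerator. -/
def PA (j : ℕ) : ℕ := ∏ i ∈ range 83, (256 * sq i + j ^ 2 + 256) ^ zn i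

/-- Denominator. -/
def PB (j : ℕ) : ℕ := ∏ i ∈ range 83, (256 * (sq i - 1) + j ^ 2) ^ po i

/-- One interval. -/
def step (j k : ℕ) : Bool :=
  decide (0 < PB j) && decide (PA k * 1024 ^ 22 * 27182818286 ^ 315 * (10 ^ 7) ^ j ≤
    PB j * 14806778 ^ j * (10 ^ 10) ^ 315)

/-- All intervals. -/
def chk : ℕ → List ℕ → Bool
  | j, [] => decide (1088 ≤ j)
  | j, k :: l => step j k && chk k l

/-- Break points. -/
def bps : List ℕ :=
  [10, 21, 30, 38, 45, 51, 56, 60, 64, 67, 70, 73, 75, 77, 79, 81, 83, 85, 87, 88, 89, 90, 91, 92,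
    93, 94, 95, 96, 97, 98, 99, 100, 101, 102, 103, 104, 105, 106, 107, 108, 109, 110, 111, 112,
    113, 114, 115, 116, 117, 118, 119, 120, 121, 122, 123, 124, 125, 126, 127, 128, 130, 132, 134,
    136, 138, 140, 142, 145, 148, 151, 155, 159, 164, 170, 177, 185, 195, 208, 225, 248, 281, 333,
    425, 622, 1088]

theorem chk_bps : chk 0 bps = true := by decide +kernel

theorem sum_zn : ∑ i ∈ range 83, zn i = 138 := by decide +kernel

theorem sum_po : ∑ i ∈ range 83, po i = 160 := by decide +kernel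

theorem sq_int (i : ℕ) : (sq i : ℤ) = (2 * i - 15) ^ 2 ∧ 1 ≤ sq i := by
  have h1 : 60 * i + 1 ≤ 4 * i ^ 2 + 225 := by
    rcases le_or_gt i 7 with h | h
    · interval_cases i <;> norm_num
    · nlinarith
  refine ⟨?_, by unfold sq; omega⟩
  unfold sq
  rw [Nat.cast_sub (by omega)]
  push_cast
  ring

theorem sq_real (i : ℕ) : ((i : ℝ) - 15 / 2) ^ 2 = (sq i : ℝ) / 4 := by
  have : (sq i : ℝ) = (2 * i - 15) ^ 2 := by exact_mod_cast (sq_int i).1
  rw [this]
  ring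

/-- Real numerator. -/
noncomputable def RA (η : ℝ) : ℝ := ∏ i ∈ range 83, ((sq i : ℝ) / 4 + η ^ 2 + 1 / 4) ^ zn i

/-- Real denominator. -/
noncomputable def RB (η : ℝ) : ℝ := ∏ i ∈ range 83, ((sq i : ℝ) / 4 + η ^ 2 - 1 / 4) ^ po i

theorem prod_eq (η : ℝ) : ∏ i ∈ Finset.range 83,
    (((i : ℝ) - 15 / 2) ^ 2 + η ^ 2 + (if mult 1 (i + 1) < 0 then 1 / 4 else -1 / 4)) ^
      (-(mult 1 (i + 1))) = RA η / RB η := by
  rw [RA, RB, ← Finset.prod_div_distrib]
  refine Finset.prod_congr rfl fun i _ => ?_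
  rw [sq_real]
  unfold zn po
  generalize mult 1 (i + 1) = m
  split_ifs with h
  · obtain ⟨k, hk⟩ := Int.eq_ofNat_of_zero_le (show 0 ≤ -m by omega)
    rw [hk, Int.toNat_natCast, Int.toNat_of_nonpos h.le, zpow_natCast]
    simp
  · obtain ⟨k, rfl⟩ := Int.eq_ofNat_of_zero_le (not_lt.1 h)
    rw [Int.toNat_natCast, Int.toNat_of_nonpos (by omega), zpow_neg, zpow_natCast]
    simp [sub_eq_add_neg, neg_div]

theorem one_le_sq (i : ℕ) : (1 : ℝ) ≤ sq i := by exact_mod_cast (sq_int i).2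

theorem RA_mono {a b : ℝ} (ha : 0 ≤ a) (h : a ≤ b) : RA a ≤ RA b := by
  refine Finset.prod_le_prod (fun i _ => by positivity) fun i _ => ?_
  gcongr

theorem RB_mono {a b : ℝ} (ha : 0 ≤ a) (h : a ≤ b) : RB a ≤ RB b := by
  have h0 : ∀ i, 0 ≤ (sq i : ℝ) / 4 + a ^ 2 - 1 / 4 := fun i => by
    have := one_le_sq i
    nlinarith [sq_nonneg a]
  refine Finset.prod_le_prod (fun i _ => pow_nonneg (h0 i) _) fun i _ => ?_
  refine pow_le_pow_left₀ (h0 i) ?_ _
  gcongr

theorem RA_eq (j : ℕ) : RA (j / 32) = PA j / 1024 ^ 138 := by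
  rw [RA, PA, ← sum_zn, ← Finset.prod_pow_eq_pow_sum, Nat.cast_prod, ← Finset.prod_div_distrib]
  refine Finset.prod_congr rfl fun i _ => ?_
  rw [Nat.cast_pow, ← div_pow]
  congr 1
  push_cast
  ring

theorem RB_eq (j : ℕ) : RB (j / 32) = PB j / 1024 ^ 160 := by
  rw [RB, PB, ← sum_po, ← Finset.prod_pow_eq_pow_sum, Nat.cast_prod, ← Finset.prod_div_distrib]
  refine Finset.prod_congr rfl fun i _ => ?_
  rw [Nat.cast_pow, ← div_pow]
  congr 1
  push_cast [Nat.cast_sub (sq_int i).2]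
  ring

theorem r_le : (14806778 / 10 ^ 7 : ℝ) ≤ Real.exp (157 / 400) := by
  refine le_trans ?_ (Real.sum_le_exp_of_nonneg (by norm_num) 10)
  simp only [Finset.sum_range_succ, Finset.sum_range_zero, Nat.factorial]
  norm_num

theorem exp_ge (j : ℕ) : (14806778 / 10 ^ 7 : ℝ) ^ j / (27182818286 / 10 ^ 10) ^ 315 ≤
    Real.exp (-315 + 314 / 25 * (j / 32)) := by
  have e1 : Real.exp (-315 + 314 / 25 * (j / 32)) = Real.exp (157 / 400) ^ j / Real.exp 1 ^ 315 := by
    rw [← Real.exp_nat_mul, ← Real.exp_nat_mul, ← Real.exp_sub]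
    congr 1
    push_cast
    ring
  have e2 : Real.exp 1 ≤ 27182818286 / 10 ^ 10 := Real.exp_one_lt_d9.le.trans (by norm_num)
  rw [e1]
  exact div_le_div₀ (by positivity) (pow_le_pow_left₀ (by positivity) r_le _) (by positivity)
    (pow_le_pow_left₀ (by positivity) e2 _)

theorem alg {a b x r s E F : ℝ} (hb : 0 < b) (hx : 0 < x) (hs : 0 < s) (hE : 0 < E) (hF : 0 < F)
    (h : a * x ^ 22 * E * s ≤ b * r * F) : a / x ^ 138 / (b / x ^ 160) ≤ r / s / (E / F) := by
  have e1 : a / x ^ 138 / (b / x ^ 160) = a * x ^ 22 / b := by field_simp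
  have e2 : r / s / (E / F) = r * F / (E * s) := by field_simp
  rw [e1, e2, div_le_div_iff₀ hb (by positivity)]
  linarith

theorem of_step {j k : ℕ} (h : step j k = true) {η : ℝ} (h1 : (j : ℝ) / 32 ≤ η)
    (h2 : η ≤ (k : ℝ) / 32) : RA η / RB η ≤ Real.exp (-315 + 314 / 25 * η) := by
  simp only [step, Bool.and_eq_true, decide_eq_true_eq] at h
  obtain ⟨h3, h4⟩ := h
  have h0 : (0 : ℝ) ≤ j / 32 := div_nonneg (Nat.cast_nonneg j) (by norm_num)
  have h5 : (0 : ℝ) < (PB j : ℝ) := (Nat.cast_pos (α := ℝ) (n := PB j)).2 h3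
  have h6 : (PA k : ℝ) * 1024 ^ 22 * 27182818286 ^ 315 * (10 ^ 7) ^ j ≤
      PB j * 14806778 ^ j * (10 ^ 10) ^ 315 := by
    have := (Nat.cast_le (α := ℝ)).2 h4
    simpa only [Nat.cast_mul, Nat.cast_pow, Nat.cast_ofNat] using this
  have h7 := alg h5 (by norm_num) (by positivity) (by positivity) (by positivity) h6
  rw [← RA_eq, ← RB_eq, ← div_pow, ← div_pow] at h7
  have h8 : 0 < RB (j / 32) := by rw [RB_eq]; exact div_pos h5 (by positivity)
  have h9 : 0 ≤ RA (k / 32) := by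
    rw [RA_eq]; exact div_nonneg (Nat.cast_nonneg _) (by positivity)
  refine (div_le_div₀ h9 (RA_mono (h0.trans h1) h2) h8 (RB_mono h0 h1)).trans
    (h7.trans ((exp_ge j).trans (Real.exp_le_exp.2 (by linarith))))

theorem tail {η : ℝ} (h : 34 ≤ η) : RA η / RB η ≤ Real.exp (-315 + 314 / 25 * η) := by
  have h0 : 0 < η := by linarith
  have h1 : RA η ≤ (6 * η ^ 2) ^ 138 := by
    rw [RA, ← sum_zn, ← Finset.prod_pow_eq_pow_sum]
    refine Finset.prod_le_prod (fun i _ => by positivity) fun i hi => ?_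
    refine pow_le_pow_left₀ (by positivity) ?_ _
    have hi' : (i : ℝ) ≤ 82 := by
      have := Finset.mem_range.1 hi
      exact_mod_cast (show i ≤ 82 by omega)
    have hi0 : (0 : ℝ) ≤ i := by positivity
    rw [← sq_real]
    nlinarith
  have h2 : (η ^ 2) ^ 160 ≤ RB η := by
    rw [RB, ← sum_po, ← Finset.prod_pow_eq_pow_sum]
    refine Finset.prod_le_prod (fun i _ => by positivity) fun i _ => ?_
    refine pow_le_pow_left₀ (by positivity) ?_ _
    linarith [one_le_sq i]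
  have h3 : (6 * η ^ 2) ^ 138 / (η ^ 2) ^ 160 = 6 ^ 138 / η ^ 44 := by
    rw [mul_pow]
    field_simp
  have h4 : (6 : ℝ) ^ 138 / η ^ 44 ≤ 6 ^ 138 / 34 ^ 44 := by gcongr
  have h5 : (6 : ℝ) ^ 138 / 34 ^ 44 ≤ (27 / 10) ^ 112 := by norm_num
  have h6 : (27 / 10 : ℝ) ^ 112 ≤ Real.exp 1 ^ 112 :=
    pow_le_pow_left₀ (by norm_num) (le_trans (by norm_num) Real.exp_one_gt_d9.le) _
  rw [← Real.exp_nat_mul] at h6
  refine (div_le_div₀ (by positivity) h1 (by positivity) h2).trans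
    (h3.le.trans (h4.trans (h5.trans (h6.trans (Real.exp_le_exp.2 ?_)))))
  push_cast
  linarith

theorem chk_nil (j : ℕ) : chk j [] = decide (1088 ≤ j) := rfl

theorem chk_cons (j k : ℕ) (l : List ℕ) : chk j (k :: l) = (step j k && chk k l) := rfl

theorem of_chk (l : List ℕ) : ∀ j : ℕ, chk j l = true → ∀ η : ℝ, (j : ℝ) / 32 ≤ η →
    RA η / RB η ≤ Real.exp (-315 + 314 / 25 * η) := by
  induction l with
  | nil =>
    intro j h η h1
    rw [chk_nil, decide_eq_true_eq] at h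
    have : (1088 : ℝ) ≤ j := by exact_mod_cast h
    exact tail (by linarith)
  | cons k l ih =>
    intro j h η h1
    rw [chk_cons, Bool.and_eq_true] at h
    rcases le_total η ((k : ℝ) / 32) with h2 | h2
    · exact of_step h.1 h1 h2
    · exact ih k h.2 η h2

end Phi

theorem phi : PhiStmt := fun η hη => by
  rw [Phi.prod_eq]
  exact Phi.of_chk _ 0 Phi.chk_bps η (by simpa using hη)

end Pool.Agent.MP_807c24_nt.H13
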