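import Mathlib

namespace Pool.Agent.MP_807c24_nt.H13

open Filter Topology MeasureTheory

/-- Newman's analytic theorem. -/
def NewmanStmt : Prop :=
  ∀ (f : ℝ → ℝ) (g : ℂ → ℂ) (U : Set ℂ) (C : ℝ),
    Measurable f → (∀ t, |f t| ≤ C) → IsOpen U → (∀ z : ℂ, 0 ≤ z.re → z ∈ U) →
    DifferentiableOn ℂ g U →
    (∀ z : ℂ, 0 < z.re → g z = ∫ t in Set.Ioi (0 : ℝ), (f t : ℂ) * Complex.exp (-(z * t))) →
    Tendsto (fun T : ℝ => ((∫ t in (0 : ℝ)..T, f t : ℝ) : ℂ)) atTop (𝓝 (g 0))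

/-- The prime number theorem for Chebyshev's theta function. -/
def PntStmt : Prop := Tendsto (fun x : ℝ => Chebyshev.theta x / x) atTop (𝓝 1)

end Pool.Agent.MP_807c24_nt.H13
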