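import Pool.Agent.MP_807c24_nt.H13.Chk

namespace Pool.Agent.MP_807c24_nt.H13.Far

theorem run0 : run 220 0 1 1 83 1 10 83949215211 = true := by decide +kernel

theorem run1 : run 220 1 10 8 79 1 5 33558387834 = true := by decide +kernel

theorem run2 : run 220 1 5 16 79 3 10 15833400917 = true := by decide +kernel

theorem run3 : run 220 3 10 25 83 2 5 10721589785 = true := by decide +kernel

theorem run4 : run 220 2 5 33 82 1 2 7993074556 = true := by decide +kernel

end Pool.Agent.MP_807c24_nt.H13.Far
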