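import Pool.Agent.MP_807c24_nt.H13.Chk

namespace Pool.Agent.MP_807c24_nt.H13.Far

theorem run5 : run 220 1 2 42 83 3 5 6631148346 = true := by decide +kernel

theorem run6 : run 220 3 5 50 83 7 10 5854405354 = true := by decide +kernel

theorem run7 : run 220 7 10 54 77 4 5 5104145656 = true := by decide +kernel

theorem run8 : run 220 4 5 65 81 9 10 4679546582 = true := by decide +kernel

theorem run9 : run 220 9 10 73 81 1 1 4561520939 = true := by decide +kernel

end Pool.Agent.MP_807c24_nt.H13.Far
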