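import Pool.Agent.MP_807c24_nt.H13.Far2
import Pool.Agent.MP_807c24_nt.H13.RunA
import Pool.Agent.MP_807c24_nt.H13.RunB

namespace Pool.Agent.MP_807c24_nt.H13

open Finset Filter Topology Far

theorem primeSum (hI : IntervalStmt) : PrimeSumStmt := by
  have hε : (0 : ℝ) < 1 / 100 := by norm_num
  filter_upwards [run_sound hI _ _ _ _ _ _ _ _ run0 _ hε,
    run_sound hI _ _ _ _ _ _ _ _ run1 _ hε,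
    run_sound hI _ _ _ _ _ _ _ _ run2 _ hε,
    run_sound hI _ _ _ _ _ _ _ _ run3 _ hε,
    run_sound hI _ _ _ _ _ _ _ _ run4 _ hε,
    run_sound hI _ _ _ _ _ _ _ _ run5 _ hε,
    run_sound hI _ _ _ _ _ _ _ _ run6 _ hε,
    run_sound hI _ _ _ _ _ _ _ _ run7 _ hε,
    run_sound hI _ _ _ _ _ _ _ _ run8 _ hε,
    run_sound hI _ _ _ _ _ _ _ _ run9 _ hε]
    with n h0 h1 h2 h3 h4 h5 h6 h7 h8 h9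
  have e : ∑ p ∈ (Finset.range (83 * n + 1)).filter Nat.Prime, (ex n p : ℝ) * Real.log p =
      ps n (((0 : ℕ) : ℝ) / ((1 : ℕ) : ℝ)) (((1 : ℕ) : ℝ) / ((1 : ℕ) : ℝ)) := by
    unfold ps
    refine Finset.sum_congr (Finset.filter_congr fun p _ => ?_) fun _ _ => rfl
    simp [Int.fract_nonneg, Int.fract_lt_one]
  rw [e]
  have s0 := ps_split n (((0 : ℕ) : ℝ) / ((1 : ℕ) : ℝ)) (((1 : ℕ) : ℝ) / ((10 : ℕ) : ℝ)) (((1 : ℕ) : ℝ) / ((1 : ℕ) : ℝ))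
  have s1 := ps_split n (((1 : ℕ) : ℝ) / ((10 : ℕ) : ℝ)) (((1 : ℕ) : ℝ) / ((5 : ℕ) : ℝ)) (((1 : ℕ) : ℝ) / ((1 : ℕ) : ℝ))
  have s2 := ps_split n (((1 : ℕ) : ℝ) / ((5 : ℕ) : ℝ)) (((3 : ℕ) : ℝ) / ((10 : ℕ) : ℝ)) (((1 : ℕ) : ℝ) / ((1 : ℕ) : ℝ))
  have s3 := ps_split n (((3 : ℕ) : ℝ) / ((10 : ℕ) : ℝ)) (((2 : ℕ) : ℝ) / ((5 : ℕ) : ℝ)) (((1 : ℕ) : ℝ) / ((1 : ℕ) : ℝ))
  have s4 := ps_split n (((2 : ℕ) : ℝ) / ((5 : ℕ) : ℝ)) (((1 : ℕ) : ℝ) / ((2 : ℕ) : ℝ)) (((1 : ℕ) : ℝ) / ((1 : ℕ) : ℝ))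
  have s5 := ps_split n (((1 : ℕ) : ℝ) / ((2 : ℕ) : ℝ)) (((3 : ℕ) : ℝ) / ((5 : ℕ) : ℝ)) (((1 : ℕ) : ℝ) / ((1 : ℕ) : ℝ))
  have s6 := ps_split n (((3 : ℕ) : ℝ) / ((5 : ℕ) : ℝ)) (((7 : ℕ) : ℝ) / ((10 : ℕ) : ℝ)) (((1 : ℕ) : ℝ) / ((1 : ℕ) : ℝ))
  have s7 := ps_split n (((7 : ℕ) : ℝ) / ((10 : ℕ) : ℝ)) (((4 : ℕ) : ℝ) / ((5 : ℕ) : ℝ)) (((1 : ℕ) : ℝ) / ((1 : ℕ) : ℝ))
  have s8 := ps_split n (((4 : ℕ) : ℝ) / ((5 : ℕ) : ℝ)) (((9 : ℕ) : ℝ) / ((10 : ℕ) : ℝ)) (((1 : ℕ) : ℝ) / ((1 : ℕ) : ℝ))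
  have hn : (0 : ℝ) ≤ n := by positivity
  simp only [SS] at h0 h1 h2 h3 h4 h5 h6 h7 h8 h9
  push_cast at *
  linarith

end Pool.Agent.MP_807c24_nt.H13
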