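import Pool.Agent.MP_807c24_nt.H13.PntSpec

/-!
Specification for: at least one of zeta(5), zeta(7), zeta(9) is irrational.

R(t) = (2t+h) * prod_{k=1}^{h-1} (t+k)^(-m k), partial fractions R = sum cf k i / (t+k)^i,
F = sum_{t} R''(t)/2 = sum cf k i * C(i+1,2) * (zeta(i+2) - harmonic sum).
-/

namespace Pool.Agent.MP_807c24_nt.H13

open Finset Filter Topology

noncomputable section

/-- `(c + X)^e` as a power series, `e` an integer. -/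
def fac (c : ℚ) (e : ℤ) : PowerSeries ℚ :=
  (PowerSeries.C c + PowerSeries.X) ^ e.toNat * (PowerSeries.C c + PowerSeries.X)⁻¹ ^ (-e).toNat

/-- The points `1, …, h-1`. -/
def pts (h : ℤ) : Finset ℤ := Finset.Icc 1 (h - 1)

/-- Expansion of `(t+k)^(m k) R(t)` in `X = t + k`. -/
def Gs (m : ℤ → ℤ) (h k : ℤ) : PowerSeries ℚ :=
  (PowerSeries.C ((h - 2 * k : ℤ) : ℚ) + PowerSeries.C 2 * PowerSeries.X) *
    ∏ k' ∈ (pts h).erase k, fac ((k' - k : ℤ) : ℚ) (-(m k'))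

/-- Partial fraction coefficient of `1/(t+k)^i`. -/
def cf (m : ℤ → ℤ) (h k : ℤ) (i : ℕ) : ℚ := PowerSeries.coeff ((m k).toNat - i) (Gs m h k)

/-- The orders `1, …, m k` (empty when `k` is not a pole). -/
def ords (m : ℤ → ℤ) (k : ℤ) : Finset ℕ := Finset.Icc 1 (m k).toNat

/-- Harmonic sum `1 + 1/2^s + … + 1/N^s`. -/
def Hs (s : ℕ) (N : ℤ) : ℚ := ∑ l ∈ Finset.Icc (1 : ℤ) N, 1 / (l : ℚ) ^ s

/-- Partial fractions. -/
def PfStmt : Prop :=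
  ∀ (m : ℤ → ℤ) (h : ℤ), 3 ≤ ∑ k ∈ pts h, m k →
    (∀ t : ℂ, (∀ k ∈ pts h, t + k ≠ 0) →
      (2 * t + h) * ∏ k ∈ pts h, (t + k) ^ (-(m k)) =
        ∑ k ∈ pts h, ∑ i ∈ ords m k, (cf m h k i : ℂ) / (t + k) ^ i) ∧
    (∑ k ∈ (pts h).filter (fun k => 1 ≤ m k), cf m h k 1 = 0) ∧
    (∀ k0 ∈ pts h, m k0 ≤ -3 →
      ∑ k ∈ pts h, ∑ i ∈ ords m k,
        cf m h k i * ((i + 1).choose 2 : ℚ) / ((k - k0 : ℤ) : ℚ) ^ (i + 2) = 0)

/-- Well-poised symmetry. -/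
def SymStmt : Prop :=
  ∀ (m : ℤ → ℤ) (h : ℤ), (∀ k, m (h - k) = m k) → Even (∑ k ∈ pts h, m k) →
    ∀ k ∈ pts h, ∀ i ∈ ords m k, cf m h (h - k) i = (-1) ^ (i + 1) * cf m h k i

/-- Contour integral bound. -/
def ContourStmt : Prop :=
  ∃ C : ℝ, 0 < C ∧ ∀ (ι : Type) (s : Finset ι) (κ i : ι → ℕ) (a : ι → ℝ) (B : ℝ),
    (∀ j ∈ s, 1 ≤ i j) →
    (∀ y : ℝ, ‖∑ j ∈ s, (a j : ℂ) / (1 / 2 + κ j + y * Complex.I) ^ (i j)‖ ≤
      B * Real.exp (6281 / 1000 * |y|)) →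
    |∑ j ∈ s, a j * ((i j + 1).choose 2 : ℝ) *
      ∑' ν : ℕ, 1 / ((ν : ℝ) + 1 + κ j) ^ (i j + 2)| ≤ C * B

/-- p-adic size of a rational number. -/
def pn (p : ℕ) [Fact p.Prime] (x : ℚ) : ℝ := ‖(x : ℚ_[p])‖

/-- The points of one residue class. -/
def cls (h : ℤ) (p : ℕ) (c : ℤ) : Finset ℤ := (pts h).filter (fun k => (p : ℤ) ∣ k - c)

/-- Symmetrized harmonic weight. -/
def Yw (h z k : ℤ) (i : ℕ) : ℚ := Hs (i + 2) (k - z - 1) + (-1) ^ (i + 1) * Hs (i + 2) (h - k - z - 1)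

/-- Contribution of one residue class to twice the constant term. -/
def Sc (m : ℤ → ℤ) (h z : ℤ) (p : ℕ) (c : ℤ) : ℚ :=
  ∑ k ∈ cls h p c, ∑ i ∈ ords m k, cf m h k i * ((i + 1).choose 2 : ℚ) * Yw h z k i

/-- p-adic bounds for the coefficients. -/
def CoefStmt : Prop :=
  ∀ (p : ℕ) [Fact p.Prime] (m : ℤ → ℤ) (h : ℤ) (k : ℤ), k ∈ pts h → ∀ i ∈ ords m k,
    -- any prime
    (pn p (cf m h k i) ≤
      (∏ k' ∈ (pts h).erase k, pn p ((k' - k : ℤ) : ℚ) ^ (-(m k'))) * (h : ℝ) ^ ((m k).toNat - i)) ∧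
    -- large primes
    (h ≤ (p : ℤ) ^ 2 → pn p (cf m h k i) ≤ (p : ℝ) ^ ((∑ k' ∈ cls h p k, m k') - i)) ∧
    -- no other pole in the class
    ((∀ k' ∈ cls h p k, k' ≠ k → m k' ≤ 0) → pn p (cf m h k i) ≤ 1) ∧
    -- exact size of the top coefficient
    (i = (m k).toNat → pn p (cf m h k i) =
      pn p ((h - 2 * k : ℤ) : ℚ) * ∏ k' ∈ (pts h).erase k, pn p ((k' - k : ℤ) : ℚ) ^ (-(m k')))

/-- p-adic bounds for one class. -/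
def ClassStmt : Prop :=
  ∀ (p : ℕ) [Fact p.Prime] (m : ℤ → ℤ) (h z c : ℤ), p ≠ 2 → h ≤ (p : ℤ) ^ 2 → 0 ≤ z →
    (∀ k ∈ pts h, 0 < m k → z < k ∧ k < h - z) →
    (pn p (Sc m h z p c) ≤ (p : ℝ) ^ ((∑ k ∈ cls h p c, m k) + 2)) ∧
    ((∃ κ : ℤ, (p : ℤ) ∣ κ - 2 * c ∧ ∀ k : ℤ, (p : ℤ) ∣ k - c →
        m (κ - k) = m k ∧ (κ - k ∈ pts h ↔ k ∈ pts h) ∧ (z < k ↔ κ - k < h - z)) →
      Even (∑ k ∈ cls h p c, m k) →
      pn p (Sc m h z p c) ≤ (p : ℝ) ^ ((∑ k ∈ cls h p c, m k) + 1)) ∧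
    ((∀ k k' : ℤ, (p : ℤ) ∣ k - c → (p : ℤ) ∣ k' - c → z < k → k < h - z → z < k' → k' < h - z →
        k = k') → pn p (Sc m h z p c) ≤ 1)

/-! ### The configuration -/

/-- Jumps of the multiplicity function. -/
def jumps : List (ℕ × ℤ) :=
  [(0, -1), (3, -1), (6, -1), (25, 1), (26, 1), (27, 1), (28, 1), (29, 1), (30, 1), (31, 1),
    (32, 1), (33, 1), (34, 1), (35, 1)]

/-- Multiplicity of the pole (positive) or zero (negative) at `t = -k`. -/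
def mult (n : ℕ) (k : ℤ) : ℤ :=
  (jumps.map fun j => if (j.1 : ℤ) * n < k ∧ k ≤ (83 - (j.1 : ℤ)) * n then j.2 else 0).sum

/-- `h = 83 n + 1`. -/
def hh (n : ℕ) : ℤ := 83 * n + 1

/-- Constant term of the linear form. -/
def a0 (n : ℕ) : ℚ :=
  -∑ k ∈ pts (hh n), ∑ i ∈ ords (mult n) k,
    cf (mult n) (hh n) k i * ((i + 1).choose 2 : ℚ) * Hs (i + 2) (k - 25 * n - 1)

/-- Coefficient of zeta(i+2). -/
def ai (n i : ℕ) : ℚ :=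
  ∑ k ∈ (pts (hh n)).filter (fun k => (i : ℤ) ≤ mult n k),
    cf (mult n) (hh n) k i * ((i + 1).choose 2 : ℚ)

/-- Real zeta value. -/
def zr (s : ℕ) : ℝ := ∑' ν : ℕ, 1 / ((ν : ℝ) + 1) ^ s

/-- The linear form. -/
def Fn (n : ℕ) : ℝ := a0 n + ai n 3 * zr 5 + ai n 5 * zr 7 + ai n 7 * zr 9

/-- The numerical inequality on the vertical line (squared form). -/
def PhiStmt : Prop :=
  ∀ η : ℝ, 0 ≤ η →
    ∏ i ∈ Finset.range 83,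
      (((i : ℝ) - 15 / 2) ^ 2 + η ^ 2 + (if mult 1 (i + 1) < 0 then 1 / 4 else -1 / 4)) ^
        (-(mult 1 (i + 1))) ≤ Real.exp (-315 + 314 / 25 * η)

/-- Size of `R` on the vertical line. -/
def SizeStmt : Prop :=
  ∀ n : ℕ, 1 ≤ n → ∀ y : ℝ,
    ‖(2 * (-(8 * n : ℂ) - 1 / 2 + y * Complex.I) + (hh n : ℤ)) *
      ∏ k ∈ pts (hh n), ((-(8 * n : ℂ) - 1 / 2 + y * Complex.I) + k) ^ (-(mult n k))‖ ≤
      2067 * n * Real.exp (-(315 / 2) * n) / (n : ℝ) ^ (22 * n) * Real.exp (6281 / 1000 * |y|)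

/-- The form is small. -/
def SmallStmt : Prop :=
  ∃ C : ℝ, 0 < C ∧ ∀ n : ℕ, 1 ≤ n → |Fn n| ≤ C * n * Real.exp (-(315 / 2) * n) / (n : ℝ) ^ (22 * n)

/-- Bound for every prime. -/
def CrudeStmt : Prop :=
  ∀ (p : ℕ) [Fact p.Prime] (n : ℕ), 1 ≤ n → ∀ x ∈ [a0 n, ai n 3, ai n 5, ai n 7],
    pn p x ≤ (p : ℝ) ^ (22 * padicValNat p n.factorial) * (83 * n + 1 : ℝ) ^ 46

/-- Total multiplicity of a class from the counts `nb β = #{points ≤ β n} + const`. -/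
def Mof (nb : ℕ → ℤ) : ℤ := (jumps.map fun j => j.2 * (nb (83 - j.1) - nb j.1)).sum

/-- Symmetric pattern. -/
def symB (nb : ℕ → ℤ) : Bool := jumps.all fun j => nb j.1 + nb (83 - j.1) == nb 0 + nb 83

/-- Exponent for a class with at least two points in the middle range. -/
def rule1 (nb : ℕ → ℤ) : ℤ := if symB nb = true ∧ Mof nb % 2 = 0 then Mof nb + 1 else Mof nb + 2

/-- Exponent for a class. -/
def rule0 (nb : ℕ → ℤ) : ℤ := if nb 58 - nb 25 ≤ 1 ∨ nb 55 - nb 28 ≤ 0 then 0 else rule1 nb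

/-- Counts of the class of `c` modulo `p`. -/
def nbf (n p c : ℕ) (β : ℕ) : ℤ := ((β : ℤ) * n - c) / p

/-- Exponent of a large prime on top of `(n!)^22`. -/
def ex (n p : ℕ) : ℕ :=
  (Finset.range p).sup fun c => (rule0 (nbf n p c) - 22 * ((n / p : ℕ) : ℤ)).toNat

/-- Bound for large primes. -/
def LargeStmt : Prop :=
  ∀ (p : ℕ) [Fact p.Prime] (n : ℕ), 1 ≤ n → 83 * n + 1 ≤ p ^ 2 →
    ∀ x ∈ [a0 n, ai n 3, ai n 5, ai n 7], pn p x ≤ (p : ℝ) ^ (22 * (n / p) + ex n p)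

/-- Primes with `n/p` in one interval modulo 1. -/
def IntervalStmt : Prop :=
  ∀ (a b e0 e1 W ε : ℝ) (f : ℕ → ℕ → ℝ), 0 ≤ a → a < b → b ≤ 1 → 0 ≤ e0 → 0 ≤ e1 → 0 < ε →
    (a = 0 → e0 = 0) →
    (∀ N0 : ℕ, ∑ N ∈ Finset.Icc 1 N0, (1 / ((N : ℝ) + a) - 1 / ((N : ℝ) + b)) ≤ W) →
    (∀ n p : ℕ, p.Prime → a ≤ Int.fract ((n : ℝ) / p) → Int.fract ((n : ℝ) / p) < b →
      f n p ≤ if n < p then e0 else e1) →
    ∀ᶠ n : ℕ in atTop,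
      ∑ p ∈ (Finset.range (83 * n + 1)).filter
          (fun p : ℕ => p.Prime ∧ a ≤ Int.fract ((n : ℝ) / p) ∧ Int.fract ((n : ℝ) / p) < b),
        f n p * Real.log p ≤ n * (e0 * (1 / a - 1 / b) + e1 * W + ε)

/-- Sum over the primes. -/
def PrimeSumStmt : Prop :=
  ∀ᶠ n : ℕ in atTop,
    ∑ p ∈ (Finset.range (83 * n + 1)).filter Nat.Prime, (ex n p : ℝ) * Real.log p ≤ 896 / 5 * n

/-- No prime above `83 n` is needed. -/
def ExZeroStmt : Prop := ∀ n p : ℕ, 1 ≤ n → 83 * n < p → ex n p = 0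

/-- The prime that shows that the form is not zero. -/
def NonzeroStmt : Prop :=
  ∀ (p : ℕ) [Fact p.Prime] (n : ℕ), p + 1 = 30 * n →
    pn p (a0 n) = p ∧ ∀ x ∈ [ai n 3, ai n 5, ai n 7], pn p x ≤ 1

/-- The theorem. -/
def MainStmt : Prop := Irrational (zr 5) ∨ Irrational (zr 7) ∨ Irrational (zr 9)

end

end Pool.Agent.MP_807c24_nt.H13
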