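import Pool.Agent.MP_807c24_nt.H13.Newman
import Pool.Agent.MP_807c24_nt.H13.Pnt
import Pool.Agent.MP_807c24_nt.H13.Pf
import Pool.Agent.MP_807c24_nt.H13.Contour
import Pool.Agent.MP_807c24_nt.H13.Class
import Pool.Agent.MP_807c24_nt.H13.Phi
import Pool.Agent.MP_807c24_nt.H13.Size
import Pool.Agent.MP_807c24_nt.H13.Small
import Pool.Agent.MP_807c24_nt.H13.Crude
import Pool.Agent.MP_807c24_nt.H13.Large
import Pool.Agent.MP_807c24_nt.H13.Interval
import Pool.Agent.MP_807c24_nt.H13.PrimeSum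
import Pool.Agent.MP_807c24_nt.H13.Final

namespace Pool.Agent.MP_807c24_nt.H13.Zeta579

open Pool.Agent.MP_807c24_nt.H13

/-- At least one of the numbers zeta(5), zeta(7), zeta(9) is irrational. -/
theorem result :
    Irrational (∑' n : ℕ, 1 / ((n : ℝ) + 1) ^ 5) ∨ Irrational (∑' n : ℕ, 1 / ((n : ℝ) + 1) ^ 7) ∨
      Irrational (∑' n : ℕ, 1 / ((n : ℝ) + 1) ^ 9) :=
  final (small pf sym contour (size phi)) (crude coef) (large sym coef classB) exZero
    (primeSum (interval (pnt_of_newman newman))) (nonzero coef)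

end Pool.Agent.MP_807c24_nt.H13.Zeta579
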